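import Pool.Agent.Helper55.RG.Base

/-!
# Functions with even divisors on curves: the statements of the parts (function fields)
-/

set_option autoImplicit false
set_option linter.all false

open FF Polynomial

namespace Pool.Agent.Helper55.RG

/-- DER: elements outside of the algebraically closed field `κ` are moved by derivations. -/
def S_DER : Prop := ∀ (κ Ω : Type) [Field κ] [IsAlgClosed κ] [CharZero κ] [Field Ω] [Algebra κ Ω]
  (c : Ω), c ∉ Set.range (algebraMap κ Ω) → ∃ δ : Derivation κ Ω Ω, δ c ≠ 0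

/-- EXP: Laurent expansions at a place of a function field over an algebraically closed field. -/
def S_EXP : Prop := ∀ (κ N : Type) [Field κ] [IsAlgClosed κ] [CharZero κ] [Field N] [Algebra κ N]
  [IsFF κ N] (P : Place κ N) (π : N), P.ord π = 1 →
  ∃ j : N →+* LaurentSeries κ, (∀ c : κ, j (algebraMap κ N c) = HahnSeries.C c) ∧
    j π = HahnSeries.single (1 : ℤ) (1 : κ) ∧ ∀ x : N, x ≠ 0 → (j x).order = P.ord x

/-- VAL: values at places over an algebraically closed field. -/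
def S_VAL : Prop := ∀ (κ N : Type) [Field κ] [IsAlgClosed κ] [CharZero κ] [Field N] [Algebra κ N]
  [IsFF κ N] (P : Place κ N) (x : N), P.Reg x →
  ∃ c : κ, x = algebraMap κ N c ∨ 0 < P.ord (x - algebraMap κ N c)

/-- UPL: there is one place over a simple point `(a, b)` of `g = 0`, and it is not ramified. -/
def S_UPL : Prop := ∀ (κ N : Type) [Field κ] [CharZero κ] [Field N] [Algebra κ N]
  (t α : N), Transcendental κ t → IntermediateField.adjoin κ {t, α} = ⊤ → ∀ g : κ[X][X],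
  ev2 (algebraMap κ N) t α g = 0 → ∀ a b : κ, (g.map (evalRingHom a)).eval b = 0 →
  ((g.map (evalRingHom a)).derivative).eval b ≠ 0 →
  ∀ P : Place κ N, 0 < P.ord (t - algebraMap κ N a) →
    (α = algebraMap κ N b ∨ 0 < P.ord (α - algebraMap κ N b)) →
    P.ord (t - algebraMap κ N a) = 1 ∧
    ∀ Q : Place κ N, 0 < Q.ord (t - algebraMap κ N a) →
      (α = algebraMap κ N b ∨ 0 < Q.ord (α - algebraMap κ N b)) → Q = P

/-- DEQ: a derivation along an embedding is determined by its values at `Ω` and `π`. -/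
def S_DEQ : Prop := ∀ (Ω N M : Type) [Field Ω] [CharZero Ω] [Field N] [Algebra Ω N] [IsFF Ω N]
  [Field M] (π : N), Transcendental Ω π → ∀ (j : N →+* M) (D : N → M),
  (∀ x y, D (x + y) = D x + D y) → (∀ x y, D (x * y) = j x * D y + j y * D x) →
  (∀ c : Ω, D (algebraMap Ω N c) = 0) → D π = 0 → ∀ x, D x = 0

/-- LEI: the derivation of Laurent series given by a derivation of the coefficients, and `d / dX`. -/
def S_LEI : Prop := ∀ (Ω : Type) [Field Ω] (δ : Derivation ℤ Ω Ω),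
  (∃ d₀ : Derivation ℤ (LaurentSeries Ω) (LaurentSeries Ω), ∀ f n, (d₀ f).coeff n = δ (f.coeff n)) ∧
  ∃ d₁ : Derivation ℤ (LaurentSeries Ω) (LaurentSeries Ω),
    ∀ f n, (d₁ f).coeff n = (n + 1 : ℤ) • f.coeff (n + 1)

/-- EST: estimates for the derivation `D` of `N` which extends a derivation of the constants `Ω` over
`κ` and kills `t` and `α`, where the relation between `t` and `α` has coefficients in `κ`. -/
def S_EST : Prop := ∀ (κ Ω N : Type) [Field κ] [IsAlgClosed κ] [CharZero κ] [Field Ω]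
  [IsAlgClosed Ω] [Algebra κ Ω] [Field N] [Algebra Ω N] [IsFF Ω N] (t α : N), Transcendental Ω t →
  IntermediateField.adjoin Ω {t, α} = ⊤ → ∀ (g A B : κ[X][X]) (s : κ[X]), s ≠ 0 → g.Monic →
  A * g + B * derivative g = C s →
  ev2 ((algebraMap Ω N).comp (algebraMap κ Ω)) t α g = 0 →
  ∀ (δ : Derivation κ Ω Ω) (D : Derivation ℤ N N), D t = 0 → D α = 0 →
  (∀ c : Ω, D (algebraMap Ω N c) = algebraMap Ω N (δ c)) → ∀ P : Place Ω N,
    ((P.ord t < 0 ∨ ∃ a : κ, 0 < P.ord (t - algebraMap Ω N (algebraMap κ Ω a))) →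
      ∀ x : N, D x ≠ 0 → P.ord x ≤ P.ord (D x)) ∧ ∀ x : N, P.Reg x → P.Reg (D x)

/-- REC: a finite-dimensional space of Laurent series which is stable under the derivations of the
coefficients contains a series with coefficients in `κ`. -/
def S_REC : Prop := ∀ (κ Ω : Type) [Field κ] [Field Ω] [Algebra κ Ω],
  (∀ c : Ω, (∀ δ : Derivation κ Ω Ω, δ c = 0) → c ∈ Set.range (algebraMap κ Ω)) →
  ∀ W : Submodule Ω (LaurentSeries Ω), FiniteDimensional Ω W → W ≠ ⊥ →
  (∀ (δ : Derivation κ Ω Ω), ∀ f ∈ W, ∃ f' ∈ W, ∀ n : ℤ, f'.coeff n = δ (f.coeff n)) →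
  ∃ f : LaurentSeries κ, f ≠ 0 ∧ lmap κ Ω f ∈ W

/-- IND: series with coefficients in `κ` which are independent over `κ` are independent over `Ω`. -/
def S_IND : Prop := ∀ (κ Ω : Type) [Field κ] [Field Ω] [Algebra κ Ω] (q : ℕ)
  (v : Fin q → LaurentSeries κ), LinearIndependent κ v →
  LinearIndependent Ω fun l => lmap κ Ω (v l)

/-- CST: a series with coefficients in `κ` which is a quotient of elements of the span of a field `A` of
such series is in `A`. -/
def S_CST : Prop := ∀ (κ Ω : Type) [Field κ] [Field Ω] [Algebra κ Ω] (A : Subfield (LaurentSeries κ)),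
  (∀ c : κ, HahnSeries.C c ∈ A) → ∀ p q : LaurentSeries Ω,
  p ∈ Submodule.span Ω (lmap κ Ω '' A) → q ∈ Submodule.span Ω (lmap κ Ω '' A) → q ≠ 0 →
  ∀ h : LaurentSeries κ, lmap κ Ω h * q = p → h ∈ A

/-- RIG: **rigidity of functions with even divisors.** `N₀` is a function field over `κ` with a
Laurent expansion `j`, `N` is the field generated over `Ω` by `N₀`. A function of `N` with even order
at all places over the points outside of `κ` and infinity is a function of `N₀` times a square. -/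
def S_RIG : Prop := ∀ (κ Ω N₀ : Type) [Field κ] [IsAlgClosed κ] [CharZero κ] [Field Ω]
  [IsAlgClosed Ω] [Algebra κ Ω] [Field N₀] [Algebra κ N₀] [IsFF κ N₀] (t : N₀) (a₀ : κ)
  (j : N₀ →+* LaurentSeries κ), Transcendental κ t →
  (∀ c : κ, j (algebraMap κ N₀ c) = HahnSeries.C c) →
  j t = HahnSeries.C a₀ + HahnSeries.single (1 : ℤ) (1 : κ) →
  ∀ (ψ : N₀ →+* IntermediateField.adjoin Ω (Set.range fun x : N₀ => lmap κ Ω (j x))),
  (∀ x : N₀, (ψ x : LaurentSeries Ω) = lmap κ Ω (j x)) →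
  IsFF Ω (IntermediateField.adjoin Ω (Set.range fun x : N₀ => lmap κ Ω (j x))) ∧
  ∀ z : IntermediateField.adjoin Ω (Set.range fun x : N₀ => lmap κ Ω (j x)), z ≠ 0 →
    (∀ P : Place Ω (IntermediateField.adjoin Ω (Set.range fun x : N₀ => lmap κ Ω (j x))),
      0 ≤ P.ord (ψ t) →
      (∀ a : κ, ¬ 0 < P.ord (ψ t - algebraMap Ω _ (algebraMap κ Ω a))) → Even (P.ord z)) →
    ∃ (w : IntermediateField.adjoin Ω (Set.range fun x : N₀ => lmap κ Ω (j x))) (z₀ : N₀),
      w ≠ 0 ∧ z * w ^ 2 = ψ z₀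

/-- GAC: ultrapowers of algebraically closed fields are algebraically closed. -/
def S_GAC : Prop := ∀ (κ : Type) [Field κ] [IsAlgClosed κ], IsAlgClosed (UP κ)

/-- REG: functions which are regular where `t` is regular remain so after extension of the
constants. -/
def S_REG : Prop := ∀ (κ Ω N₀ N : Type) [Field κ] [CharZero κ] [Field Ω] [Algebra κ Ω] [Field N₀]
  [Algebra κ N₀] [IsFF κ N₀] [Field N] [Algebra Ω N] (t v : N₀), Transcendental κ t →
  (∀ P : Place κ N₀, P.Reg t → P.Reg v) → ∀ ψ : N₀ →+* N,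
  (∀ c : κ, ψ (algebraMap κ N₀ c) = algebraMap Ω N (algebraMap κ Ω c)) →
  ∀ P : Place Ω N, P.Reg (ψ t) → P.Reg (ψ v)

/-- BZ1: two multiples `x₁² z`, `x₂² z` of `z` by squares, with poles of bounded order, at infinity
only, and without common zeros over the points with `s(a) ≠ 0`. -/
def S_BZ1 : Prop := ∀ (κ N : Type) [Field κ] [IsAlgClosed κ] [CharZero κ] [Field N] [Algebra κ N]
  [IsFF κ N] (t : N), Transcendental κ t → ∀ s : κ[X], s ≠ 0 → ∃ M : ℕ, ∀ z : N, z ≠ 0 →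
  EvenOff t s z → ∃ x₁ x₂ : N, x₁ ≠ 0 ∧ x₂ ≠ 0 ∧ x₁ ^ 2 * z ∈ LL (M • polar (k := κ) t) ∧
    x₂ ^ 2 * z ∈ LL (M • polar (k := κ) t) ∧ x₁ * x₂ * z ∈ LL (M • polar (k := κ) t) ∧
    ∀ (P : Place κ N) (a : κ), 0 < P.ord (t - algebraMap κ N a) → s.eval a ≠ 0 →
      ¬ (0 < P.ord (x₁ ^ 2 * z) ∧ 0 < P.ord (x₂ ^ 2 * z))

/-- BZ2: a Bezout relation with bounded degrees for two functions without common zeros over the
points with `s(a) ≠ 0`. -/
def S_BZ2 : Prop := ∀ (κ N : Type) [Field κ] [IsAlgClosed κ] [CharZero κ] [Field N] [Algebra κ N]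
  [IsFF κ N] (t : N), Transcendental κ t → ∀ s : κ[X], s ≠ 0 → ∀ M : ℕ, ∃ M' r : ℕ, ∀ u₁ u₂ : N,
  u₁ ≠ 0 → u₂ ≠ 0 → u₁ ∈ LL (M • polar (k := κ) t) → u₂ ∈ LL (M • polar (k := κ) t) →
  (∀ (P : Place κ N) (a : κ), 0 < P.ord (t - algebraMap κ N a) → s.eval a ≠ 0 →
      ¬ (0 < P.ord u₁ ∧ 0 < P.ord u₂)) →
  ∃ a b : N, a ∈ LL (M' • polar (k := κ) t) ∧ b ∈ LL (M' • polar (k := κ) t) ∧
    a * u₁ + b * u₂ = (aeval t s) ^ r

open TensorProduct in
/-- LOS: `Łoś` for elements of `κ^ℕ ⊗ N₀`. -/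
def S_LOS : Prop := ∀ (κ N₀ : Type) [Field κ] [Field N₀] [Algebra κ N₀]
  (j : N₀ →+* LaurentSeries κ), (∀ c : κ, j (algebraMap κ N₀ c) = HahnSeries.C c) →
  ∃ Φ : ((ℕ → κ) ⊗[κ] N₀) →+* LaurentSeries (UP κ),
    (∀ r x, Φ (r ⊗ₜ x) = HahnSeries.C (UP.mk κ r) * lmap κ (UP κ) (j x)) ∧
    ∃ ev : ℕ → ((ℕ → κ) ⊗[κ] N₀) →+* N₀, (∀ i r x, ev i (r ⊗ₜ x) = r i • x) ∧
      ∀ u : (ℕ → κ) ⊗[κ] N₀, Φ u = 0 ↔ ∀ᶠ i in (Filter.hyperfilter ℕ : Filter ℕ), ev i u = 0

/-- FIN: **finiteness of the group of the functions with even divisors, modulo squares.** -/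
def S_FIN : Prop := ∀ (κ N : Type) [Field κ] [IsAlgClosed κ] [CharZero κ] [Field N] [Algebra κ N]
  [IsFF κ N] (t : N), Transcendental κ t → ∀ s : κ[X], s ≠ 0 →
  ∃ Z : Finset N, (∀ ζ ∈ Z, ζ ≠ 0) ∧ ∀ z : N, z ≠ 0 → EvenOff t s z →
    ∃ ζ ∈ Z, ∃ w : N, w ≠ 0 ∧ z = ζ * w ^ 2

end Pool.Agent.Helper55.RG
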