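import Pool.Agent.Helper55.RG.Base

/-!
# The statements of further parts
-/

set_option autoImplicit false
set_option linter.all false

open FF Polynomial

namespace Pool.Agent.Helper55.RG

/-- SQR: square roots of Laurent series of even order. -/
def S_SQR : Prop := ∀ (Ω : Type) [Field Ω] [IsAlgClosed Ω] [CharZero Ω] (f : LaurentSeries Ω),
  f ≠ 0 → Even f.order → ∃ y : LaurentSeries Ω, y ^ 2 = f

/-- PRI: primitive elements which are integral over `κ[t]`. -/
def S_PRI : Prop := ∀ (κ N : Type) [Field κ] [CharZero κ] [Field N] [Algebra κ N] [IsFF κ N] (t : N),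
  Transcendental κ t → ∃ (α : N) (g A B : κ[X][X]) (s : κ[X]),
    IntermediateField.adjoin κ {t, α} = ⊤ ∧ g.Monic ∧ ev2 (algebraMap κ N) t α g = 0 ∧ s ≠ 0 ∧
    A * g + B * derivative g = C s

/-- PRK: primitive elements which are integral over `k[t]`. -/
def S_PRK : Prop := ∀ (k K L : Type) [Field k] [CharZero k] [Field K] [Algebra k[X] K]
  [IsFractionRing k[X] K] [Field L] [Algebra K L] [FiniteDimensional K L],
  ∃ (α : L) (g A B : k[X][X]) (s : k[X]), IntermediateField.adjoin K {α} = ⊤ ∧ g.Monic ∧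
    eval₂ ((algebraMap K L).comp (algebraMap k[X] K)) α g = 0 ∧
    Irreducible (g.map (algebraMap k[X] K)) ∧ s ≠ 0 ∧ A * g + B * derivative g = C s

/-- KUM: quadratic characters of the Galois group of `Ω / L` are given by square roots. -/
def S_KUM : Prop := ∀ (K Ω : Type) [Field K] [CharZero K] [Field Ω] [Algebra K Ω] [IsGalois K Ω]
  (L : IntermediateField K Ω) (χ : (Ω ≃ₐ[K] Ω) → Ω), (∀ σ, χ σ = 1 ∨ χ σ = -1) →
  (∀ σ ∈ L.fixingSubgroup, ∀ τ ∈ L.fixingSubgroup, χ (σ * τ) = χ σ * χ τ) →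
  ∀ S : Set Ω, S.Finite → (∀ u ∈ L.fixingSubgroup, (∀ x ∈ S, u x = x) → χ u = 1) →
  ∃ y : Ω, y ≠ 0 ∧ y ^ 2 ∈ L ∧ ∀ σ ∈ L.fixingSubgroup, σ y = χ σ * y

end Pool.Agent.Helper55.RG
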