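import Pool.Agent.Helper55.RG.Spec6

/-!
# The field `M`
-/

set_option autoImplicit false
set_option linter.all false

open Polynomial IsDedekindDomain NumberField
open scoped Classical

namespace Pool.Agent.Helper55.RG

open Pool.Agent.TH115.GD Pool.Agent.R939.EI Pool.Agent.Helper55.TT Pool.Agent.Helper55.UV

/-- BDS: the field `M` generated by the roots of `D` and `s`, the roots of `g(θ, Y)`, the square
roots of the `θ - r` and the constants `k₁` is a Galois extension whose degree divides a number which does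
not depend on `D`. -/
def S_BDS : Prop := ∀ (k k' : Type) [Field k] [CharZero k] [Field k'] [Algebra k k']
  [IsSepClosure k k'] (s : k[X]) (g : k[X][X]) (k₁ : IntermediateField k k')
  [FiniteDimensional k k₁] (n : ℕ), s ≠ 0 → g.Monic →
  ∃ N : ℕ, 0 < N ∧ ∀ D : k[X], D ≠ 0 → D.natDegree ≤ n →
    ∃ M : IntermediateField k k', FiniteDimensional k M ∧ IsGalois k M ∧
      Module.finrank k M ∣ N ∧ k₁ ≤ M ∧ (∀ θ : k', aeval θ D = 0 → θ ∈ M) ∧
      (∀ r : k', aeval r s = 0 → r ∈ M) ∧
      (∀ θ b : k', aeval θ D = 0 → ev2 (algebraMap k k') θ b g = 0 → b ∈ M) ∧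
      ∀ θ r w : k', aeval θ D = 0 → aeval r s = 0 → w ^ 2 = θ - r → w ∈ M

end Pool.Agent.Helper55.RG
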