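import Pool.Agent.Helper55.RG.Spec5
import Pool.Agent.Helper55.RG.Spec

/-!
# Finiteness of the quadratic extensions of `F L` which are not ramified outside of `s`: preparations
-/

set_option autoImplicit false
set_option linter.all false

open Polynomial IsDedekindDomain
open scoped Classical

namespace Pool.Agent.Helper55.RG

open Pool.Agent.TH115.GD Pool.Agent.R939.EI Pool.Agent.Helper55.TT Pool.Agent.Helper55.UV

theorem mem_pl' {k' : Type} [Field k'] (a : k') (p : k'[X]) :
    p ∈ (pl a).asIdeal ↔ p.eval a = 0 := by
  show p ∈ Ideal.span {X - C a} ↔ _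
  rw [Ideal.mem_span_singleton, dvd_iff_isRoot]
  rfl

theorem eq_pl' {k' : Type} [Field k'] [IsAlgClosed k'] (v : HeightOneSpectrum k'[X]) :
    ∃ a : k', v = pl a := by
  obtain ⟨p, hp⟩ := (IsPrincipalIdealRing.principal v.asIdeal).principal
  have hp0 : p ≠ 0 := by
    rintro rfl
    apply v.ne_bot
    rw [hp]
    simp
  have hpu : ¬ IsUnit p := by
    intro h
    apply v.isPrime.ne_top
    rw [hp]
    exact Ideal.span_singleton_eq_top.2 h
  have hdeg : p.degree ≠ 0 := by
    intro h
    apply hpu
    exact isUnit_iff_degree_eq_zero.2 h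
  obtain ⟨a, ha⟩ := IsAlgClosed.exists_root p hdeg
  refine ⟨a, ?_⟩
  ext1
  have hle : v.asIdeal ≤ (pl a).asIdeal := by
    rw [hp]
    show Ideal.span {p} ≤ _
    rw [Ideal.span_le, Set.singleton_subset_iff]
    exact (mem_pl' a p).2 ha
  have hmax : v.asIdeal.IsMaximal := v.isMaximal
  exact hmax.eq_of_le (pl a).isPrime.ne_top hle

theorem isAC {k k' : Type} [Field k] [CharZero k] [Field k'] [Algebra k k'] [IsSepClosure k k'] :
    IsAlgClosed k' := by
  haveI : IsSepClosed k' := IsSepClosure.sep_closed k
  haveI : CharZero k' := charZero_of_injective_algebraMap (algebraMap k k').injective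
  exact IsAlgClosed.of_exists_root _ fun p _ hp =>
    IsSepClosed.exists_root p hp.degree_pos.ne' hp.separable

theorem isAC_sep {F : Type} [Field F] [CharZero F] : IsAlgClosed (Sep F) := by
  haveI : CharZero (Sep F) := charZero_of_injective_algebraMap (algebraMap F (Sep F)).injective
  haveI : IsSepClosed (Sep F) := IsSepClosure.sep_closed F
  exact IsAlgClosed.of_exists_root _ fun p _ hp =>
    IsSepClosed.exists_root p hp.degree_pos.ne' hp.separable

theorem isFF_adj {k' F : Type} [Field k'] [Field F] [Algebra k'[X] F] [IsFractionRing k'[X] F]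
    (N : IntermediateField F (Sep F)) [FiniteDimensional F N] [Algebra k' N]
    (hc : ∀ c : k', algebraMap k' N c = algebraMap F N (algebraMap k'[X] F (C c))) :
    Transcendental k' (algebraMap F N (algebraMap k'[X] F X)) ∧ FF.IsFF k' N := by
  have hae : ∀ p : k'[X], aeval (algebraMap F N (algebraMap k'[X] F X)) p =
      algebraMap F N (algebraMap k'[X] F p) := by
    intro p
    induction p using Polynomial.induction_on' with
    | add p q hp hq => rw [map_add, hp, hq, map_add, map_add]
    | monomial n c =>
      rw [aeval_monomial, hc, ← map_pow, ← map_pow, ← map_mul, ← map_mul, C_mul_X_pow_eq_monomial]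
  have htr : Transcendental k' (algebraMap F N (algebraMap k'[X] F X)) := by
    rw [transcendental_iff]
    intro p hp
    rw [hae] at hp
    have h1 := (map_eq_zero_iff _ (algebraMap F N).injective).1 hp
    exact (map_eq_zero_iff _ (IsFractionRing.injective k'[X] F)).1 h1
  refine ⟨htr, ?_⟩
  set t : N := algebraMap F N (algebraMap k'[X] F X) with ht
  have hmem : ∀ x : F, algebraMap F N x ∈ IntermediateField.adjoin k' {t} := by
    intro x
    obtain ⟨p, q, -, rfl⟩ := IsFractionRing.div_surjective (A := k'[X]) x
    rw [map_div₀]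
    refine div_mem ?_ ?_
    · rw [← hae]
      exact IntermediateField.algebra_adjoin_le_adjoin _ _ (aeval_mem_adjoin_singleton _ _)
    · rw [← hae]
      exact IntermediateField.algebra_adjoin_le_adjoin _ _ (aeval_mem_adjoin_singleton _ _)
  refine FF.IsFF.of_finite htr ?_
  obtain ⟨S, hS⟩ := (inferInstance : FiniteDimensional F N).fg_top
  refine ⟨⟨S, ?_⟩⟩
  rw [eq_top_iff]
  intro x _
  have hx : x ∈ Submodule.span F (S : Set N) := by rw [hS]; trivial
  induction hx using Submodule.span_induction with
  | mem x h => exact Submodule.subset_span h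
  | zero => exact Submodule.zero_mem _
  | add x y _ _ hx hy => exact Submodule.add_mem _ (hx trivial) (hy trivial)
  | smul a x _ hx =>
    have h1 := Submodule.smul_mem _ (⟨algebraMap F N a, hmem a⟩ : IntermediateField.adjoin k' {t})
      (hx trivial)
    have h2 : (⟨algebraMap F N a, hmem a⟩ : IntermediateField.adjoin k' {t}) • x = a • x := by
      rw [Algebra.smul_def, Algebra.smul_def]
      rfl
    rwa [h2] at h1

end Pool.Agent.Helper55.RG
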