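import Pool.Agent.Helper55.RG.Hfin1
import Pool.Agent.Helper55.RG.Spec3

/-!
# Finiteness of the quadratic extensions of `F L` which are not ramified outside of `s`
-/

set_option autoImplicit false
set_option linter.all false

open Polynomial IsDedekindDomain
open scoped Classical

namespace Pool.Agent.Helper55.RG

open Pool.Agent.TH115.GD Pool.Agent.R939.EI Pool.Agent.Helper55.TT Pool.Agent.Helper55.UV

section tower

variable {k k' K F : Type} [Field k] [Field k'] [Algebra k k'] [Field K] [Algebra k[X] K]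
    [Field F] [Algebra k'[X] F] [IsFractionRing k'[X] F] [Algebra K F]

theorem em_map (hT : IsTower k k' K F) (p : k[X]) :
    em k K (Sep F) p = em k' F (Sep F) (p.map (algebraMap k k')) := by
  show algebraMap K (Sep F) (algebraMap k[X] K p) =
    algebraMap F (Sep F) (algebraMap k'[X] F (p.map (algebraMap k k')))
  rw [← hT.map, ← IsScalarTower.algebraMap_apply K F (Sep F)]

theorem ev_gmap (hT : IsTower k k' K F) (g : k[X][X]) (α : Sep F) :
    eval₂ (em k' F (Sep F)) α (g.map (mapRingHom (algebraMap k k'))) =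
      eval₂ (em k K (Sep F)) α g := by
  rw [eval₂_map]
  have h : (em k' F (Sep F)).comp (mapRingHom (algebraMap k k')) = em k K (Sep F) :=
    RingHom.ext fun p => (em_map hT p).symm
  rw [h]

theorem sep_at {g A B : k[X][X]} {s : k[X]} (hAB : A * g + B * derivative g = C s) {a : k'}
    (ha : (s.map (algebraMap k k')).eval a ≠ 0) :
    ((g.map (mapRingHom (algebraMap k k'))).map (evalRingHom a)).Separable := by
  set φ : k[X] →+* k' := (evalRingHom a).comp (mapRingHom (algebraMap k k')) with hφ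
  have h1 : (g.map (mapRingHom (algebraMap k k'))).map (evalRingHom a) = g.map φ := by
    rw [Polynomial.map_map]
  rw [h1, separable_def]
  have h2 := congrArg (Polynomial.map φ) hAB
  rw [Polynomial.map_add, Polynomial.map_mul, Polynomial.map_mul, ← derivative_map, map_C] at h2
  have h3 : φ s ≠ 0 := ha
  refine ⟨C (φ s)⁻¹ * A.map φ, C (φ s)⁻¹ * B.map φ, ?_⟩
  rw [mul_assoc, mul_assoc, ← mul_add, h2, ← C_mul, inv_mul_cancel₀ h3, C_1]

theorem ini_fix (hUNR : S_UNR) [IsAlgClosed k'] (hT : IsTower k k' K F) {g A B : k[X][X]}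
    (hg : g.Monic) {s : k[X]}
    (hAB : A * g + B * derivative g = C s) {α : Sep F} (hα : eval₂ (em k K (Sep F)) α g = 0)
    {a : k'} (ha : (s.map (algebraMap k k')).eval a ≠ 0)
    {ι : Sep F →ₐ[F] Sep (Comp k'[X] F (pl a))} {σ : Sep F ≃ₐ[F] Sep F}
    (hσ : InI (Comp k'[X] F (pl a)) ι σ) : σ α = α := by
  obtain ⟨β, hβ, -⟩ := hUNR k' F (g.map (mapRingHom (algebraMap k k'))) a (hg.map _)
    (sep_at hAB ha) α (by rw [ev_gmap hT, hα]) ι
  obtain ⟨τ, hτ⟩ := hσ
  have h : ι (σ α) = ι α := by rw [← hτ, hβ, τ.commutes]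
  exact ι.injective h

theorem fix_adj {α : Sep F} {τ : Sep F ≃ₐ[K] Sep F} (h : τ α = α) :
    τ ∈ (IntermediateField.adjoin K {α}).fixingSubgroup := by
  rw [IntermediateField.mem_fixingSubgroup_iff]
  intro x hx
  induction hx using IntermediateField.adjoin_induction with
  | mem x hx =>
    rw [Set.mem_singleton_iff] at hx
    rw [hx, h]
  | algebraMap x => exact τ.commutes x
  | add x y _ _ hx hy => rw [map_add, hx, hy]
  | inv x _ hx => rw [map_inv₀, hx]
  | mul x y _ _ hx hy => rw [map_mul, hx, hy]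

end tower

/-- HFIN: finiteness of the quadratic extensions which are not ramified outside of `s`, up to
constants. -/
def S_HFIN : Prop := ∀ (k k' K F : Type) [Field k] [CharZero k] [Field k'] [Algebra k k'] [Field K]
  [Algebra k[X] K] [Field F] [Algebra k'[X] F] [IsFractionRing k'[X] F] [Algebra K F],
  IsTower k k' K F → ∀ (L : IntermediateField K (Sep F)) [FiniteDimensional K L] (P : k[X]),
  P ≠ 0 → ∃ (s : k[X]) (L2 : IntermediateField K (Sep F)), s ≠ 0 ∧ P ∣ s ∧ L ≤ L2 ∧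
    FiniteDimensional K L2 ∧ Normal K L2 ∧
    (∀ v : HeightOneSpectrum k'[X], s.map (algebraMap k k') ∉ v.asIdeal →
      ∀ (ι : Sep F →ₐ[F] Sep (Comp k'[X] F v)) (σ : Sep F ≃ₐ[F] Sep F),
      InI (Comp k'[X] F v) ι σ → rH K F (Sep F) σ ∈ L.fixingSubgroup) ∧
    ∀ y : Sep F, y ≠ 0 → y ^ 2 ∈ L →
      (∀ v : HeightOneSpectrum k'[X], s.map (algebraMap k k') ∉ v.asIdeal →
        ∀ (ι : Sep F →ₐ[F] Sep (Comp k'[X] F v)) (σ : Sep F ≃ₐ[F] Sep F),
        InI (Comp k'[X] F v) ι σ → σ y = y) →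
      ∀ τ : Sep F ≃ₐ[K] Sep F, (∀ c : k', em k' F (Sep F) (C c) ∈ L →
        τ (em k' F (Sep F) (C c)) = em k' F (Sep F) (C c)) → y * τ y ∈ L2

theorem hfin_main (hFIN : S_FIN) (hUNR : S_UNR) (hBRI : S_BRI) (hDSN : S_DSN) (hPRK : S_PRK) :
    S_HFIN := by
  intro k k' K F _ _ _ _ _ _ _ _ _ _ hT L _ P hP
  haveI := hT.sep
  haveI := hT.fracK
  haveI : IsAlgClosed k' := isAC (k := k)
  haveI : IsSepClosure K (Sep F) := sepKΩ hT.map
  haveI : Algebra.IsSeparable K (Sep F) := IsSepClosure.separable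
  haveI : IsGalois K (Sep F) := inferInstance
  haveI : CharZero k' := charZero_of_injective_algebraMap (algebraMap k k').injective
  haveI : CharZero F := charZero_of_injective_algebraMap (IsFractionRing.injective k'[X] F)
  haveI : CharZero K := charZero_of_injective_algebraMap (IsFractionRing.injective k[X] K)
  haveI : IsAlgClosed (Sep F) := isAC_sep
  obtain ⟨α₀, g, A, B, s', hα₀, hgm, hgα, hgi, hs', hAB⟩ := hPRK k K L
  set α : Sep F := (α₀ : Sep F) with hα
  have hL : IntermediateField.adjoin K {α} = L := by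
    have h1 := congrArg IntermediateField.lift hα₀
    rw [IntermediateField.lift_adjoin_simple, IntermediateField.lift_top] at h1
    exact h1
  have hgα' : eval₂ (em k K (Sep F)) α g = 0 := by
    have h1 := congrArg (algebraMap L (Sep F)) hgα
    rw [hom_eval₂, map_zero] at h1
    exact h1
  have hαL : α ∈ L := α₀.2
  set s : k[X] := P * s' with hs
  have hs0 : s ≠ 0 := mul_ne_zero hP hs'
  have hs1 : ∀ v : HeightOneSpectrum k'[X], s.map (algebraMap k k') ∉ v.asIdeal →
      ∃ a : k', v = pl a ∧ (s'.map (algebraMap k k')).eval a ≠ 0 ∧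
        (s.map (algebraMap k k')).eval a ≠ 0 := by
    intro v hv
    obtain ⟨a, rfl⟩ := eq_pl' v
    rw [mem_pl'] at hv
    refine ⟨a, rfl, ?_, hv⟩
    intro h
    apply hv
    rw [hs, Polynomial.map_mul, eval_mul, h, mul_zero]
  have hFα : IsIntegral F α := by
    haveI : Algebra.IsSeparable F (Sep F) := IsSepClosure.separable
    exact (Algebra.IsSeparable.isIntegral F α)
  set N : IntermediateField F (Sep F) := IntermediateField.adjoin F {α} with hN
  haveI : FiniteDimensional F N := IntermediateField.adjoin.finiteDimensional hFα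
  letI algN : Algebra k' N := (((algebraMap F N).comp (algebraMap k'[X] F)).comp C).toAlgebra
  have hcN : ∀ c : k', algebraMap k' N c = algebraMap F N (algebraMap k'[X] F (C c)) :=
    fun c => rfl
  obtain ⟨htr, hff⟩ := isFF_adj N hcN
  haveI := hff
  obtain ⟨Z, hZ0, hZ⟩ := hFIN k' N _ htr (s.map (algebraMap k k'))
    (by rwa [Ne, Polynomial.map_eq_zero])
  -- representatives in `L`
  have hch : ∀ ζ : N, ∃ Y : Sep F, (∃ z ∈ L, z ≠ 0 ∧ ∃ w : N, w ≠ 0 ∧ z = ζ * w ^ 2) →
      Y ≠ 0 ∧ Y ^ 2 ∈ L ∧ ∃ w : N, w ≠ 0 ∧ Y ^ 2 = ζ * w ^ 2 := by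
    intro ζ
    by_cases h : ∃ z ∈ L, z ≠ 0 ∧ ∃ w : N, w ≠ 0 ∧ z = ζ * w ^ 2
    · obtain ⟨z, hzL, hz0, w, hw0, hzw⟩ := h
      obtain ⟨Y, hY⟩ := IsAlgClosed.exists_pow_nat_eq z (n := 2) (by norm_num)
      refine ⟨Y, fun _ => ⟨?_, by rwa [hY], w, hw0, by rw [hY, hzw]⟩⟩
      rintro rfl
      apply hz0
      rw [← hY]
      norm_num
    · exact ⟨1, fun h' => absurd h' h⟩
  choose Yf hYf using hch
  set L' : IntermediateField K (Sep F) := L ⊔ IntermediateField.adjoin K (Yf '' (Z : Set N))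
    with hL'
  haveI : Finite (Yf '' (Z : Set N)) := (Z.finite_toSet.image Yf)
  haveI : FiniteDimensional K (IntermediateField.adjoin K (Yf '' (Z : Set N))) :=
    IntermediateField.finiteDimensional_adjoin fun x _ => Algebra.IsSeparable.isIntegral K x
  haveI : FiniteDimensional K L' := IntermediateField.finiteDimensional_sup _ _
  set L2 : IntermediateField K (Sep F) := IntermediateField.normalClosure K L' (Sep F) with hL2
  have hle : L' ≤ L2 := IntermediateField.le_normalClosure L'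
  have hnorm : Normal K L2 := inferInstance
  have hstab : ∀ (τ : Sep F ≃ₐ[K] Sep F) (x : Sep F), x ∈ L2 → τ x ∈ L2 := by
    intro τ x hx
    have h1 := (IntermediateField.normal_iff_forall_map_le'.1 hnorm) τ
    exact h1 ⟨x, hx, rfl⟩
  refine ⟨s, L2, hs0, ⟨s', rfl⟩, le_sup_left.trans hle, inferInstance, hnorm, ?_, ?_⟩
  · intro v hv ι σ hσ
    obtain ⟨a, rfl, ha, -⟩ := hs1 v hv
    rw [← hL]
    exact fix_adj (ini_fix hUNR hT hgm hAB hgα' ha hσ)
  · intro y y0 hyL hyI τ hτ
    have hzN : y ^ 2 ∈ N := by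
      have hLN : ∀ x ∈ L, x ∈ N := by
        intro x hx
        rw [← hL] at hx
        induction hx using IntermediateField.adjoin_induction with
        | mem x hx =>
          rw [Set.mem_singleton_iff] at hx
          rw [hx]
          exact IntermediateField.mem_adjoin_simple_self F α
        | algebraMap x =>
          rw [IsScalarTower.algebraMap_apply K F (Sep F)]
          exact N.algebraMap_mem _
        | add x y _ _ hx hy => exact add_mem hx hy
        | inv x _ hx => exact inv_mem hx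
        | mul x y _ _ hx hy => exact mul_mem hx hy
      exact hLN _ hyL
    have hz0 : (⟨y ^ 2, hzN⟩ : N) ≠ 0 := by
      intro h
      exact pow_ne_zero 2 y0 (congrArg Subtype.val h)
    obtain ⟨ζ, hζ, w, hw0, hzw⟩ := hZ ⟨y ^ 2, hzN⟩ hz0 (by
      intro Pl a hPa hsa
      have hsa' : s.map (algebraMap k k') ∉ (pl a).asIdeal := by
        rwa [mem_pl']
      have hsa'' : (s'.map (algebraMap k k')).eval a ≠ 0 := by
        intro h
        apply hsa
        rw [hs, Polynomial.map_mul, eval_mul, h, mul_zero]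
      exact hBRI k' F (g.map (mapRingHom (algebraMap k k'))) a (hgm.map _) (sep_at hAB hsa'') α
        (by rw [ev_gmap hT, hgα']) hcN y ⟨y ^ 2, hzN⟩ hz0 rfl
        (fun ι σ hσ => hyI _ hsa' ι σ hσ) Pl hPa)
    have hzw' : y ^ 2 = (ζ : Sep F) * (w : Sep F) ^ 2 := congrArg Subtype.val hzw
    obtain ⟨hY0, hYL, w', hw'0, hYw⟩ := hYf ζ ⟨y ^ 2, hyL, pow_ne_zero 2 y0, w, hw0, hzw'⟩
    have hw0' : (w : Sep F) ≠ 0 := fun h => hw0 (Subtype.ext h)
    have hw'0' : (w' : Sep F) ≠ 0 := fun h => hw'0 (Subtype.ext h)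
    obtain ⟨c, w₁, hc0, hcL, hw₁, hyc⟩ := hDSN k k' K F hT L (y ^ 2) (Yf ζ ^ 2) hyL hYL
      (pow_ne_zero 2 y0) (pow_ne_zero 2 hY0) ((w : Sep F) / (w' : Sep F)) (by
        have h1 : (w : Sep F) / (w' : Sep F) ∈ N := div_mem w.2 w'.2
        have h2 : N ≤ IntermediateField.adjoin F (L : Set (Sep F)) := by
          rw [hN, IntermediateField.adjoin_simple_le_iff]
          exact IntermediateField.subset_adjoin _ _ hαL
        exact h2 h1) (by
        rw [hzw', hYw]
        field_simp)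
    obtain ⟨γ, hγ⟩ := IsAlgClosed.exists_pow_nat_eq c (n := 2) (by norm_num)
    have hγ' : em k' F (Sep F) (C γ) ^ 2 = em k' F (Sep F) (C c) := by
      rw [← map_pow, ← C_pow, hγ]
    have hyy : y ^ 2 = (Yf ζ * em k' F (Sep F) (C γ) * w₁) ^ 2 := by
      rw [mul_pow, mul_pow, hγ', hyc]
    have hτγ : τ (em k' F (Sep F) (C γ)) = em k' F (Sep F) (C γ) ∨
        τ (em k' F (Sep F) (C γ)) = -em k' F (Sep F) (C γ) := by
      apply sq_eq_sq_iff_eq_or_eq_neg.1
      rw [← map_pow, hγ', hτ c hcL]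
    have hYL2 : Yf ζ ∈ L2 := hle (le_sup_right (a := L)
      (IntermediateField.subset_adjoin _ _ ⟨ζ, hζ, rfl⟩))
    have hw₁L2 : w₁ ∈ L2 := hle (le_sup_left (b := IntermediateField.adjoin K (Yf '' (Z : Set N))) hw₁)
    have hcL2 : em k' F (Sep F) (C c) ∈ L2 :=
      hle (le_sup_left (b := IntermediateField.adjoin K (Yf '' (Z : Set N))) hcL)
    have hmain : Yf ζ * τ (Yf ζ) * em k' F (Sep F) (C c) * w₁ * τ w₁ ∈ L2 :=
      mul_mem (mul_mem (mul_mem (mul_mem hYL2 (hstab τ _ hYL2)) hcL2) hw₁L2) (hstab τ _ hw₁L2)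
    have hneg := neg_mem hmain
    rcases sq_eq_sq_iff_eq_or_eq_neg.1 hyy with h | h <;> rcases hτγ with h' | h' <;>
      rw [h] <;> simp only [map_mul, map_neg, h'] <;> [skip; skip; skip; skip]
    · have e : Yf ζ * em k' F (Sep F) (C γ) * w₁ * (τ (Yf ζ) * em k' F (Sep F) (C γ) * τ w₁) =
        Yf ζ * τ (Yf ζ) * em k' F (Sep F) (C c) * w₁ * τ w₁ := by
        rw [← hγ']; ring
      rw [e]; exact hmain
    · have e : Yf ζ * em k' F (Sep F) (C γ) * w₁ * (τ (Yf ζ) * -em k' F (Sep F) (C γ) * τ w₁) =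
        -(Yf ζ * τ (Yf ζ) * em k' F (Sep F) (C c) * w₁ * τ w₁) := by
        rw [← hγ']; ring
      rw [e]; exact hneg
    · have e : -(Yf ζ * em k' F (Sep F) (C γ) * w₁) * -(τ (Yf ζ) * em k' F (Sep F) (C γ) * τ w₁) =
        Yf ζ * τ (Yf ζ) * em k' F (Sep F) (C c) * w₁ * τ w₁ := by
        rw [← hγ']; ring
      rw [e]; exact hmain
    · have e : -(Yf ζ * em k' F (Sep F) (C γ) * w₁) * -(τ (Yf ζ) * -em k' F (Sep F) (C γ) * τ w₁) =
        -(Yf ζ * τ (Yf ζ) * em k' F (Sep F) (C c) * w₁ * τ w₁) := by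
        rw [← hγ']; ring
      rw [e]; exact hneg

end Pool.Agent.Helper55.RG
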