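import Pool.Agent.Helper55.RG.Crit2

/-!
# The constants in `L`
-/

set_option autoImplicit false
set_option linter.all false

open Polynomial IsDedekindDomain
open scoped Classical

namespace Pool.Agent.Helper55.RG

open Pool.Agent.TH115.GD Pool.Agent.R939.EI Pool.Agent.Helper55.TT Pool.Agent.Helper55.UV

variable {k k' K F : Type} [Field k] [Field k'] [Algebra k k'] [Field K]
    [Algebra k[X] K] [Field F] [Algebra k'[X] F] [IsFractionRing k'[X] F] [Algebra K F]

theorem em_inj : Function.Injective (em k' F (Sep F)) := by
  intro x y h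
  exact IsFractionRing.injective k'[X] F ((algebraMap F (Sep F)).injective h)

/-- the constants in `L` -/
noncomputable def consts (hT : IsTower k k' K F) (L : IntermediateField K (Sep F)) :
    IntermediateField k k' where
  carrier := {c | ((em k' F (Sep F)).comp C) c ∈ L}
  mul_mem' := by
    intro a b ha hb
    rw [Set.mem_setOf_eq, map_mul]
    exact mul_mem ha hb
  one_mem' := by
    rw [Set.mem_setOf_eq, map_one]
    exact one_mem L
  add_mem' := by
    intro a b ha hb
    rw [Set.mem_setOf_eq, map_add]
    exact add_mem ha hb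
  zero_mem' := by
    rw [Set.mem_setOf_eq, map_zero]
    exact zero_mem L
  algebraMap_mem' := by
    intro c
    show em k' F (Sep F) (C (algebraMap k k' c)) ∈ L
    rw [← map_C, ← em_map hT]
    exact L.algebraMap_mem _
  inv_mem' := by
    intro a ha
    rw [Set.mem_setOf_eq, map_inv₀]
    exact inv_mem ha

theorem mem_consts (hT : IsTower k k' K F) (L : IntermediateField K (Sep F)) (c : k') :
    c ∈ consts hT L ↔ em k' F (Sep F) (C c) ∈ L := Iff.rfl

theorem lin_indep0 {k k' K Ω : Type} [Field k] [Field k'] [Algebra k k'] [Field K]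
    [Algebra k[X] K] [IsFractionRing k[X] K] [Field Ω] [Algebra K Ω] (φ : k'[X] →+* Ω)
    (hφ : Function.Injective φ)
    (h : ∀ p : k[X], algebraMap K Ω (algebraMap k[X] K p) = φ (p.map (algebraMap k k')))
    {ι : Type} {b : ι → k'} (hb : LinearIndependent k b) :
    LinearIndependent K fun i => φ (C (b i)) := by
  rw [linearIndependent_iff'] at hb ⊢
  intro s g hg i hi
  obtain ⟨d, hd⟩ := IsLocalization.exist_integer_multiples (nonZeroDivisors k[X]) s g
  have hd' : ∀ i : ι, ∃ f : k[X], i ∈ s → algebraMap k[X] K f = algebraMap k[X] K d * g i := by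
    intro i
    by_cases hi : i ∈ s
    · obtain ⟨f, hf⟩ := hd i hi
      refine ⟨f, fun _ => ?_⟩
      rw [hf, Algebra.smul_def]
    · exact ⟨0, fun h => absurd h hi⟩
  choose f hf using hd'
  have hd0 : algebraMap k[X] K d ≠ 0 := by
    have := nonZeroDivisors.ne_zero d.2
    simpa using this
  have h1 : ∑ i ∈ s, (f i).map (algebraMap k k') * C (b i) = 0 := by
    apply hφ
    rw [map_sum, map_zero]
    have h2 : ∀ i ∈ s, φ ((f i).map (algebraMap k k') * C (b i)) =
        algebraMap K Ω (algebraMap k[X] K d) * (g i • φ (C (b i))) := by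
      intro i hi
      rw [map_mul, ← h, Algebra.smul_def, ← mul_assoc, ← map_mul, ← hf i hi]
    rw [Finset.sum_congr rfl h2, ← Finset.mul_sum, hg, mul_zero]
  have h3 : f i = 0 := by
    ext n
    rw [coeff_zero]
    refine hb s (fun j => (f j).coeff n) ?_ i hi
    have h4 := congrArg (fun p : k'[X] => p.coeff n) h1
    simp only [finset_sum_coeff, coeff_mul_C, coeff_map, coeff_zero] at h4
    rw [← h4]
    exact Finset.sum_congr rfl fun j _ => by rw [Algebra.smul_def]
  have h5 := hf i hi
  rw [h3, map_zero] at h5
  rcases mul_eq_zero.1 h5.symm with h | h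
  · exact absurd h hd0
  · exact h

theorem lin_indep (hT : IsTower k k' K F) {ι : Type} {b : ι → k'} (hb : LinearIndependent k b) :
    LinearIndependent K fun i => em k' F (Sep F) (C (b i)) := by
  haveI := hT.fracK
  exact lin_indep0 (em k' F (Sep F)) em_inj (em_map hT) hb

theorem fin_consts (hT : IsTower k k' K F) (L : IntermediateField K (Sep F))
    [FiniteDimensional K L] : FiniteDimensional k (consts hT L) := by
  let b := Module.Basis.ofVectorSpace k (consts hT L)
  have h1 : LinearIndependent k fun i => ((b i : consts hT L) : k') := by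
    have := b.linearIndependent.map' (consts hT L).val.toLinearMap
      (LinearMap.ker_eq_bot.2 Subtype.val_injective)
    exact this
  have h2 := lin_indep (F := F) hT h1
  let v : Module.Basis.ofVectorSpaceIndex k (consts hT L) → L :=
    fun i => ⟨em k' F (Sep F) (C (b i : k')), (mem_consts hT L _).1 (b i).2⟩
  have h3 : LinearIndependent K v := by
    apply LinearIndependent.of_comp L.val.toLinearMap
    exact h2
  haveI : Finite (Module.Basis.ofVectorSpaceIndex k (consts hT L)) :=
    LinearIndependent.finite_of_isNoetherian h3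
  exact Module.Finite.of_basis b

end Pool.Agent.Helper55.RG
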