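import Pool.Agent.Helper55.RG.Asm1
import Pool.Agent.Helper55.UV.Unif

/-!
# The theorem for all representations
-/

set_option autoImplicit false
set_option linter.all false

open Polynomial IsDedekindDomain NumberField
open scoped Classical

namespace Pool.Agent.Helper55.RG

open Pool.Agent Pool.Agent.TH115.GD Pool.Agent.R939.EI Pool.Agent.R939.PP Pool.Agent.R939.HI
  Pool.Agent.W275.UB Pool.Agent.Helper55.TT Pool.Agent.H927R2.RD Pool.Agent.Helper55.UV

/-- The image under `ρ` of the Galois group of `L` modulo 2 is a 2-group: the order of each of its elements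
is a power of 2. -/
def IsPro2On {K F : Type} [Field K] [Field F] [Algebra K F] (L : IntermediateField K (Sep F)) {d : ℕ}
    (ρ : (Sep F ≃ₐ[K] Sep F) →* GL (Fin d) ℤ_[2]) : Prop :=
  ∀ σ : Sep F ≃ₐ[K] Sep F, (∀ x ∈ L, σ x = x) →
    ∃ m : ℕ, ∀ i j, (2 : ℤ_[2]) ∣ ((ρ (σ ^ 2 ^ m)).1 - 1) i j

/-- `VanishL k' K F L P D`: for all continuous representations `ρ` of the Galois group of `K`
in `GL_d(ℤ₂)` (any `d`), such that the image modulo 2 of the Galois group of `L` is a 2-group, which are not
ramified outside of the roots of `P D` and infinity, and such that the inertia groups at the roots of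
`D` have no nonzero invariants in `ℚ₂ ^ d`, there are no nonzero classes in `H¹(F, ℚ₂ ^ d)` which are fixed
by the Galois group of `K` and locally trivial at the roots of `D` and at the places which are not roots
of `P D` or infinite. -/
def VanishL (k' K F : Type) {k : Type} [Field k] [Field k'] [Algebra k k'] [Field K]
    [Field F] [Algebra k'[X] F] [IsFractionRing k'[X] F] [Algebra K F]
    (L : IntermediateField K (Sep F)) (P D : k[X]) : Prop :=
  ∀ (d : ℕ) (ρ : (Sep F ≃ₐ[K] Sep F) →* GL (Fin d) ℤ_[2]), Continuous ρ → IsPro2On L ρ →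
    UnramOutside k' (P * D) ρ → NoInvAtRoots k' D ρ →
    ∀ c : (Sep F ≃ₐ[F] Sep F) → Fin d → ℚ_[2], IsFixedClass ρ c → LocTrivial k' (P * D) D ρ c →
      IsCob ρ c

section main

variable {k k' K F : Type} [Field k] [Field k'] [Algebra k k'] [Field K] [Algebra k[X] K]
    [Field F] [Algebra k'[X] F] [IsFractionRing k'[X] F] [Algebra K F]

theorem irr_frac [IsFractionRing k[X] K] {g : k[X][X]} (hg : Irreducible (g.map (algebraMap k[X] K))) :
    Irreducible (g.map (algebraMap k[X] (FractionRing k[X]))) := by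
  let e : K ≃ₐ[k[X]] FractionRing k[X] := FractionRing.algEquiv k[X] K |>.symm
  have h1 : g.map (algebraMap k[X] (FractionRing k[X])) =
      (g.map (algebraMap k[X] K)).map (e : K →+* FractionRing k[X]) := by
    rw [Polynomial.map_map]
    have h : algebraMap k[X] (FractionRing k[X]) =
        (e : K →+* FractionRing k[X]).comp (algebraMap k[X] K) :=
      RingHom.ext fun p => (e.commutes p).symm
    rw [← h]
  rw [h1]
  have h2 := (MulEquiv.irreducible_iff (Polynomial.mapEquiv e.toRingEquiv)).2 hg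
  exact h2

/-- The dense set. -/
theorem dense_set (hDSL : S_DSL) (hKUM : S_KUM) (hCJ1 : S_CJ1) (hCJ2 : S_CJ2) (hCH1 : S_CH1)
    (hSUR : S_SUR) (hHFIN : S_HFIN) (hPRK : S_PRK) (hIRR : S_IRR) (hIRK : S_IRK) (hIK1 : S_IK1)
    [NumberField k] (hT : IsTower k k' K F) {J : Type} [Fintype J]
    (B : Module.Basis J ℤ (𝓞 k)) (L : IntermediateField K (Sep F)) [FiniteDimensional K L]
    {P : k[X]} (hP : P ≠ 0) {n : ℕ} (hn : 3 ≤ n) :
    D0 {x : (Σ l : Fin 1, Fin ((fun _ => n : Fin 1 → ℕ) l + 1)) × J → ℤ |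
      ¬ VanishL k' K F L P (Dp B x 0)} := by
  haveI := hT.sep
  haveI := hT.fracK
  haveI : IsSepClosure K (Sep F) := sepKΩ hT.map
  haveI : Algebra.IsSeparable K (Sep F) := IsSepClosure.separable
  haveI : IsGalois K (Sep F) := inferInstance
  set N : IntermediateField K (Sep F) := IntermediateField.normalClosure K L (Sep F) with hN
  have hLN : L ≤ N := IntermediateField.le_normalClosure L
  obtain ⟨s, L2, hs, hPs, hle, hfd2, hn2, hunr, hfin⟩ := hHFIN k k' K F hT N P hP
  haveI := hfd2
  haveI := hn2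
  obtain ⟨α₀, g, -, -, -, hα₀, hgm, hgα, hgi, -, -⟩ := hPRK k K L2
  set α : Sep F := (α₀ : Sep F) with hα
  have hL2 : IntermediateField.adjoin K {α} = L2 := by
    have h1 := congrArg IntermediateField.lift hα₀
    rw [IntermediateField.lift_adjoin_simple, IntermediateField.lift_top] at h1
    exact h1
  have hgα' : eval₂ (em k K (Sep F)) α g = 0 := by
    have h1 := congrArg (algebraMap L2 (Sep F)) hgα
    rw [hom_eval₂, map_zero] at h1
    exact h1
  set k₁ : IntermediateField k k' := consts hT N with hk₁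
  haveI : FiniteDimensional k k₁ := fin_consts hT N
  haveI : NumberField k₁ := NumberField.of_module_finite k k₁
  set n' : Fin 1 → ℕ := fun _ => n with hn'
  have d1 : D0 {x : (Σ l : Fin 1, Fin (n' l + 1)) × J → ℤ | ¬ AllIrr (Dp B x 0)} :=
    dens_allIrr B 0 (le_trans (by norm_num) hn)
  have d2 := hIRR k J B 1 n' 0 (le_trans (by norm_num) hn) g hgm (irr_frac hgi)
  have d3 := hIRK k k₁ J B 1 n' 0 (le_trans (by norm_num) hn)
  have d4 := hIK1 k k₁ J B 1 n' 0 hn (s.map (algebraMap k k₁))
    (by rwa [Ne, Polynomial.map_eq_zero])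
  have d5 : D0 {x : (Σ l : Fin 1, Fin (n' l + 1)) × J → ℤ | Irreducible (Dp B x 0) ∧
      Dp B x 0 ∣ s} := dens_ndvd B 0 (le_trans (by norm_num) hn) hs
  intro ε hε
  refine (((((d1.union d2).union d3).union d4).union d5) ε hε).mono ?_
  intro x hx
  by_contra hcon
  simp only [Set.mem_union, Set.mem_setOf_eq, not_or, not_not, not_and] at hcon
  obtain ⟨⟨⟨⟨h1, h2⟩, h3⟩, h4⟩, h5⟩ := hcon
  apply hx
  have hirr : Irreducible (Dp B x 0) := h1.1
  intro d ρ hρ hp2 hun hno c hc hloc
  have hsub : ∀ v : HeightOneSpectrum k'[X],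
      (s * Dp B x 0).map (algebraMap k k') ∉ v.asIdeal →
      (P * Dp B x 0).map (algebraMap k k') ∉ v.asIdeal := by
    intro v hv h
    apply hv
    obtain ⟨s', rfl⟩ := hPs
    have h6 : (P * s' * Dp B x 0).map (algebraMap k k') =
        (P * Dp B x 0).map (algebraMap k k') * s'.map (algebraMap k k') := by
      rw [← Polynomial.map_mul]
      congr 1
      ring
    rw [h6]
    exact v.asIdeal.mul_mem_right _ h
  exact crit_L hDSL hKUM hCJ1 hCJ2 hCH1 hT hle hs hunr hfin k₁ (mem_consts hT N) hirr h3 (h4 h3)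
    (h5 hirr) (fun θ hθ ι σ => by
      obtain ⟨δ, hδD, hδ⟩ := hSUR k k' K F hT (Dp B x 0) θ hirr hθ ι g hgm (h2 hirr) α hgα' σ
      refine ⟨δ, hδD, fun y hy => ?_⟩
      rw [← hL2] at hy
      induction hy using IntermediateField.adjoin_induction with
      | mem x hx =>
        rw [Set.mem_singleton_iff] at hx
        rw [hx, hδ]
      | algebraMap x => rw [δ.commutes, σ.commutes]
      | add x y _ _ hx hy => rw [map_add, map_add, hx, hy]
      | inv x _ hx => rw [map_inv₀, map_inv₀, hx]
      | mul x y _ _ hx hy => rw [map_mul, map_mul, hx, hy]) hρ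
    (fun σ hσ => hp2 σ fun x hx =>
      (IntermediateField.mem_fixingSubgroup_iff _ _).1 hσ x (hLN hx))
    (fun v hv => hun v (hsub v hv)) hno hc.1 hc.2.1 hc.2.2
    (fun v hv => hloc.1 v (hsub v hv)) hloc.2

end main

end Pool.Agent.Helper55.RG
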