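import Pool.Agent.Helper55.RG.Fin1

/-!
# Finiteness of the group of the functions with even divisors
-/

set_option autoImplicit false
set_option linter.all false

open FF Polynomial IntermediateField
open scoped TensorProduct

namespace Pool.Agent.Helper55.RG

theorem ultra_inf {p : ℕ → Prop} (h : ∀ᶠ i in (Filter.hyperfilter ℕ : Filter ℕ), p i) :
    ∃ m n, m < n ∧ p m ∧ p n := by
  have hinf : {i | p i}.Infinite := fun hfin => hfin.notMem_hyperfilter h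
  obtain ⟨m, hm⟩ := hinf.nonempty
  obtain ⟨n, hn, hmn⟩ := hinf.exists_gt m
  exact ⟨m, n, hmn, hm, hn⟩

theorem reg_LL {κ N : Type} [Field κ] [CharZero κ] [Field N] [Algebra κ N] [IsFF κ N] {t v : N}
    (ht : Transcendental κ t) {M : ℕ} (hv : v ∈ LL (M • polar (k := κ) t)) (P : Place κ N)
    (hP : P.Reg t) : P.Reg v := by
  have ht0 : t ≠ 0 := by
    rintro rfl
    exact ht isAlgebraic_zero
  have h1 := (P.reg_iff ht0).1 hP
  rcases hv with h | h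
  · exact Or.inl h
  · right
    have h2 := h P
    rw [Finsupp.smul_apply, polar_apply, max_eq_right (by omega), smul_zero, neg_zero] at h2
    exact h2

theorem red_ev1 {κ N : Type} [Field κ] [Field N] [Algebra κ N] {P : Place κ N} {t : N} {a : κ}
    (ht : t = algebraMap κ N a ∨ 0 < P.ord (t - algebraMap κ N a)) (p : κ[X]) :
    P.red (eval₂RingHom (algebraMap κ N) t p) = P.constHom (p.eval a) := by
  have h := red_ev2 ht ht (C p)
  rw [ev2, eval₂_C, Polynomial.map_C, coe_evalRingHom, eval_C] at h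
  exact h

/-- lifts of sequences in finite-dimensional spaces -/
theorem lift_seq {κ N : Type} [Field κ] [Field N] [Algebra κ N] {ev : ℕ → ((ℕ → κ) ⊗[κ] N) →+* N}
    (hev : ∀ i r x, ev i (r ⊗ₜ x) = r i • x) (V : Submodule κ N) [FiniteDimensional κ V]
    (f : ℕ → N) (hf : ∀ i, f i ∈ V) :
    ∃ (q : ℕ) (r : Fin q → ℕ → κ) (v : Fin q → N), (∀ l, v l ∈ V) ∧
      ∀ i, ev i (∑ l, r l ⊗ₜ[κ] v l) = f i := by
  let b := Module.finBasis κ V
  refine ⟨_, fun l i => b.repr ⟨f i, hf i⟩ l, fun l => (b l : N), fun l => (b l).2, fun i => ?_⟩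
  rw [map_sum]
  have h1 := congrArg (fun x : V => (x : N)) (b.sum_repr ⟨f i, hf i⟩)
  simp only [Submodule.coe_sum, Submodule.coe_smul] at h1
  rw [← h1]
  exact Finset.sum_congr rfl fun l _ => hev _ _ _

theorem fin_main (hRIG : S_RIG) (hPRI : S_PRI) (hEXP : S_EXP) (hVAL : S_VAL) (hUPL : S_UPL)
    (hGAC : S_GAC) (hREG : S_REG) (hBZ1 : S_BZ1) (hBZ2 : S_BZ2) (hLOS : S_LOS) : S_FIN := by
  classical
  intro κ N _ _ _ _ _ _ t ht s hs
  obtain ⟨α, g, A, B, s₁, hgen, hgm, hgt, hs₁, hAB⟩ := hPRI κ N t ht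
  obtain ⟨a₀, j, hj, hjt⟩ := exists_j hEXP hVAL hUPL ht hgen hgm hgt hs₁ hAB
  obtain ⟨M, hM⟩ := hBZ1 κ N t ht s hs
  obtain ⟨M', r, hM'⟩ := hBZ2 κ N t ht s hs M
  by_contra hcon
  obtain ⟨f, hf, hfr⟩ := exists_seq_of_forall_finset_exists
    (fun z : N => z ≠ 0 ∧ EvenOff t s z) (fun x y => ¬ ∃ w : N, w ≠ 0 ∧ y = x * w ^ 2) (by
      intro Z hZ
      by_contra hc
      apply hcon
      refine ⟨Z, fun ζ hζ => (hZ ζ hζ).1, fun z hz hzE => ?_⟩
      by_contra hc2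
      apply hc
      refine ⟨z, ⟨hz, hzE⟩, fun ζ hζ => ?_⟩
      rintro ⟨w, hw, he⟩
      exact hc2 ⟨ζ, hζ, w, hw, he⟩)
  choose x₁ x₂ hx₁ hx₂ hm₁ hm₂ hm₃ hnc using fun i => hM (f i) (hf i).1 (hf i).2
  have hf0 : ∀ i, f i ≠ 0 := fun i => (hf i).1
  have hu₁ : ∀ i, x₁ i ^ 2 * f i ≠ 0 := fun i => mul_ne_zero (pow_ne_zero _ (hx₁ i)) (hf0 i)
  have hu₂ : ∀ i, x₂ i ^ 2 * f i ≠ 0 := fun i => mul_ne_zero (pow_ne_zero _ (hx₂ i)) (hf0 i)
  choose a b ha hb hab using fun i => hM' _ _ (hu₁ i) (hu₂ i) (hm₁ i) (hm₂ i) (hnc i)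
  haveI hΩ : IsAlgClosed (UP κ) := hGAC κ
  haveI : CharZero (UP κ) := charZero_of_injective_algebraMap (algebraMap κ (UP κ)).injective
  obtain ⟨Φ, hΦ, ev, hev, hLos⟩ := hLOS κ N j hj
  set θ : N →+* LaurentSeries (UP κ) := (lmap κ (UP κ)).comp j with hθdef
  have hθ : ∀ c : κ, θ (algebraMap κ N c) =
      algebraMap (UP κ) (LaurentSeries (UP κ)) (algebraMap κ (UP κ) c) := by
    intro c
    rw [algMap_eq, hθdef, RingHom.comp_apply, hj, lmap_C]
  have hθt : θ t = HahnSeries.C (algebraMap κ (UP κ) a₀) + HahnSeries.single (1 : ℤ) (1 : UP κ) := by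
    rw [hθdef, RingHom.comp_apply, hjt, map_add, lmap_C, lmap_single, map_one]
  have h0 : Transcendental (UP κ) (θ t) := by
    rw [hθt]
    exact trans_ls _
  obtain ⟨hIs, hrig⟩ := hRIG κ (UP κ) N t a₀ j ht hj hjt (psi (UP κ) θ) (fun x => rfl)
  have hΦθ : ∀ x, Φ ((1 : ℕ → κ) ⊗ₜ x) = θ x := by
    intro x
    rw [hΦ, map_one, map_one, one_mul]
    rfl
  have hΦC : ∀ r : ℕ → κ, Φ (r ⊗ₜ (1 : N)) = algebraMap (UP κ) _ (UP.mk κ r) := by
    intro r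
    rw [hΦ, map_one, map_one, mul_one, algMap_eq]
  have hΦm : ∀ (r : ℕ → κ) (x : N), Φ (r ⊗ₜ x) = algebraMap (UP κ) _ (UP.mk κ r) * θ x := by
    intro r x
    rw [hΦ, algMap_eq]
    rfl
  have hmem : ∀ u, Φ u ∈ EF (UP κ) θ := by
    intro u
    induction u using TensorProduct.induction_on with
    | zero => rw [map_zero]; exact zero_mem _
    | tmul r x =>
      rw [hΦm]
      exact mul_mem (IntermediateField.algebraMap_mem _ _)
        (IntermediateField.subset_adjoin _ _ ⟨x, rfl⟩)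
    | add u v hu hv => rw [map_add]; exact add_mem hu hv
  let ΦE : ((ℕ → κ) ⊗[κ] N) →+* EF (UP κ) θ := Φ.codRestrict (EF (UP κ) θ) hmem
  have hΦE : ∀ u, ((ΦE u : EF (UP κ) θ) : LaurentSeries (UP κ)) = Φ u := fun u => rfl
  have hΦE0 : ∀ u, ΦE u = 0 ↔ Φ u = 0 := by
    intro u
    constructor
    · intro h
      rw [← hΦE, h]
      rfl
    · intro h
      ext1
      rw [hΦE, h]
      rfl
  -- the lifts
  obtain ⟨q₁, r₁, v₁, hv₁, hF₁⟩ := lift_seq hev (LL (M • polar (k := κ) t))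
    (fun i => x₁ i ^ 2 * f i) hm₁
  obtain ⟨q₂, r₂, v₂, hv₂, hF₂⟩ := lift_seq hev (LL (M • polar (k := κ) t))
    (fun i => x₂ i ^ 2 * f i) hm₂
  obtain ⟨q₃, r₃, v₃, hv₃, hF₃⟩ := lift_seq hev (LL (M • polar (k := κ) t))
    (fun i => x₁ i * x₂ i * f i) hm₃
  obtain ⟨q₄, r₄, v₄, hv₄, hF₄⟩ := lift_seq hev (LL (M' • polar (k := κ) t)) a ha
  obtain ⟨q₅, r₅, v₅, hv₅, hF₅⟩ := lift_seq hev (LL (M' • polar (k := κ) t)) b hb
  set F₁ := ∑ l, r₁ l ⊗ₜ[κ] v₁ l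
  set F₂ := ∑ l, r₂ l ⊗ₜ[κ] v₂ l
  set F₃ := ∑ l, r₃ l ⊗ₜ[κ] v₃ l
  set F₄ := ∑ l, r₄ l ⊗ₜ[κ] v₄ l
  set F₅ := ∑ l, r₅ l ⊗ₜ[κ] v₅ l
  have hnz : ∀ (F : (ℕ → κ) ⊗[κ] N) (c : ℕ → N), (∀ i, ev i F = c i) → (∀ i, c i ≠ 0) →
      ΦE F ≠ 0 := by
    intro F c h1 h2 h3
    rw [hΦE0, hLos] at h3
    obtain ⟨m, n, -, hm, -⟩ := ultra_inf h3
    exact h2 m (by rw [← h1, hm])
  have hU₁ : ΦE F₁ ≠ 0 := hnz _ _ hF₁ hu₁
  have hU₂ : ΦE F₂ ≠ 0 := hnz _ _ hF₂ hu₂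
  have rel₁ : ΦE F₁ * ΦE F₂ = ΦE F₃ ^ 2 := by
    have h1 : ΦE (F₁ * F₂ - F₃ ^ 2) = 0 := by
      rw [hΦE0, hLos]
      refine Filter.Eventually.of_forall fun i => ?_
      rw [map_sub, map_mul, map_pow, hF₁, hF₂, hF₃]
      ring
    rw [map_sub, map_mul, map_pow, sub_eq_zero] at h1
    exact h1
  have rel₂ : ΦE F₄ * ΦE F₁ + ΦE F₅ * ΦE F₂ = psi (UP κ) θ ((aeval t s) ^ r) := by
    have h1 : ΦE (F₄ * F₁ + F₅ * F₂ - (1 : ℕ → κ) ⊗ₜ ((aeval t s) ^ r)) = 0 := by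
      rw [hΦE0, hLos]
      refine Filter.Eventually.of_forall fun i => ?_
      rw [map_sub, map_add, map_mul, map_mul, hF₄, hF₁, hF₅, hF₂, hev, hab, Pi.one_apply, one_smul,
        sub_self]
    rw [map_sub, map_add, map_mul, map_mul, sub_eq_zero] at h1
    rw [h1]
    ext1
    rw [hΦE, hΦθ]
    rfl
  have hregF : ∀ (q : ℕ) (r : Fin q → ℕ → κ) (v : Fin q → N) (m : ℕ),
      (∀ l, v l ∈ LL (m • polar (k := κ) t)) → ∀ P : Place (UP κ) (EF (UP κ) θ),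
      P.Reg (psi (UP κ) θ t) → P.Reg (ΦE (∑ l, r l ⊗ₜ[κ] v l)) := by
    intro q r v m hv P hP
    rw [map_sum]
    refine Finset.sum_induction _ P.Reg (fun _ _ => P.reg_add) P.reg_zero fun l _ => ?_
    have h1 : ΦE (r l ⊗ₜ[κ] v l) = algebraMap (UP κ) _ (UP.mk κ (r l)) * psi (UP κ) θ (v l) := by
      ext1
      rw [hΦE, hΦm]
      rfl
    rw [h1]
    refine P.reg_mul (P.reg_const _) ?_
    exact hREG κ (UP κ) N (EF (UP κ) θ) t (v l) ht (fun P₀ => reg_LL ht (hv l) P₀) (psi (UP κ) θ)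
      (psi_const hθ) P hP
  have hpsit : psi (UP κ) θ t ≠ 0 := by
    intro h
    exact trans_psi (Ω := UP κ) h0 (by rw [h]; exact isAlgebraic_zero)
  obtain ⟨w, z₀, hw, he⟩ := hrig (ΦE F₁) hU₁ (by
    intro P hP1 hP2
    have hR : P.Reg (psi (UP κ) θ t) := Or.inr hP1
    have R₁ := hregF _ r₁ v₁ M hv₁ P hR
    have R₂ := hregF _ r₂ v₂ M hv₂ P hR
    have R₄ := hregF _ r₄ v₄ M' hv₄ P hR
    have R₅ := hregF _ r₅ v₅ M' hv₅ P hR
    have o₁ := (P.reg_iff hU₁).1 R₁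
    have o₂ := (P.reg_iff hU₂).1 R₂
    have hF₃0 : ΦE F₃ ≠ 0 := by
      intro h
      rw [h, zero_pow two_ne_zero] at rel₁
      exact mul_ne_zero hU₁ hU₂ rel₁
    have hpar : P.ord (ΦE F₁) + P.ord (ΦE F₂) = 2 * P.ord (ΦE F₃) := by
      rw [← P.ord_mul hU₁ hU₂, rel₁, P.ord_pow]
      push_cast
      ring
    have hnot : ¬ (0 < P.ord (ΦE F₁) ∧ 0 < P.ord (ΦE F₂)) := by
      rintro ⟨p₁, p₂⟩
      obtain ⟨c, hc⟩ := hVAL (UP κ) (EF (UP κ) θ) P _ hR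
      have e1 : P.red (psi (UP κ) θ ((aeval t s) ^ r)) = 0 := by
        rw [← rel₂, P.red_add (P.reg_mul R₄ R₁) (P.reg_mul R₅ R₂), P.red_mul R₄ R₁, P.red_mul R₅ R₂,
          (P.red_eq_zero_iff R₁).2 (Or.inr p₁), (P.red_eq_zero_iff R₂).2 (Or.inr p₂), mul_zero,
          mul_zero, add_zero]
      have e2 : psi (UP κ) θ (aeval t s) = eval₂RingHom (algebraMap (UP κ) (EF (UP κ) θ))
          (psi (UP κ) θ t) (s.map (algebraMap κ (UP κ))) := by
        rw [coe_eval₂RingHom, eval₂_map, aeval_def, hom_eval₂]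
        congr 1
        ext1 c
        exact psi_const hθ c
      have R₆ : P.Reg (psi (UP κ) θ (aeval t s)) := by
        rw [e2]
        exact reg_ev1 hR _
      rw [map_pow, P.red_pow R₆] at e1
      have e1' : P.red (psi (UP κ) θ (aeval t s)) = 0 := by
        rcases Nat.eq_zero_or_pos r with hr | hr
        · exfalso
          rw [hr, pow_zero] at e1
          exact one_ne_zero e1
        · exact (pow_eq_zero_iff hr.ne').1 e1
      rw [e2, red_ev1 hc] at e1'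
      have e3 : (s.map (algebraMap κ (UP κ))).eval c = 0 := (map_eq_zero _).1 e1'
      have hsplit := IsAlgClosed.splits s
      obtain ⟨a, ha⟩ : c ∈ Set.range (algebraMap κ (UP κ)) := by
        have h5 : c ∈ (s.map (algebraMap κ (UP κ))).roots :=
          (mem_roots ((Polynomial.map_ne_zero_iff (algebraMap κ (UP κ)).injective).2 hs)).2 e3
        rw [hsplit.roots_map (algebraMap κ (UP κ)), Multiset.mem_map] at h5
        obtain ⟨a, -, ha⟩ := h5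
        exact ⟨a, ha⟩
      rw [← ha] at hc
      rcases hc with hc | hc
      · apply trans_psi (Ω := UP κ) h0
        rw [hc]
        exact isAlgebraic_algebraMap _
      · exact hP2 a hc
    rcases lt_or_eq_of_le o₁ with h | h
    · have h2 : P.ord (ΦE F₂) = 0 := by
        by_contra hne
        exact hnot ⟨h, lt_of_le_of_ne o₂ (Ne.symm hne)⟩
      rw [h2, add_zero] at hpar
      rw [hpar]
      exact even_two_mul _
    · rw [← h]
      exact Even.zero)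
  -- back to the sequence
  have hrange : ∀ x ∈ Algebra.adjoin (UP κ) (Set.range fun x : N => θ x), ∃ u, Φ u = x := by
    intro x hx
    induction hx using Algebra.adjoin_induction with
    | mem x hx =>
      obtain ⟨y, rfl⟩ := hx
      exact ⟨_, hΦθ y⟩
    | algebraMap c =>
      obtain ⟨r, rfl⟩ := UP.mk_surj c
      exact ⟨_, hΦC r⟩
    | add x y _ _ hx hy =>
      obtain ⟨u, rfl⟩ := hx
      obtain ⟨v, rfl⟩ := hy
      exact ⟨u + v, map_add _ _ _⟩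
    | mul x y _ _ hx hy =>
      obtain ⟨u, rfl⟩ := hx
      obtain ⟨v, rfl⟩ := hy
      exact ⟨u * v, map_mul _ _ _⟩
  obtain ⟨p, hp, q, hq, hpq⟩ := (IntermediateField.mem_adjoin_iff_div).1 w.2
  obtain ⟨P, rfl⟩ := hrange p hp
  obtain ⟨Q, rfl⟩ := hrange q hq
  have hw' : (w : LaurentSeries (UP κ)) ≠ 0 := by
    intro h
    apply hw
    ext1
    rw [h]
    rfl
  have hQ : Φ Q ≠ 0 := by
    intro h
    rw [h, div_zero] at hpq
    exact hw' hpq
  have hP : Φ P ≠ 0 := by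
    intro h
    rw [h, zero_div] at hpq
    exact hw' hpq
  have hfin : Φ (F₁ * P ^ 2 - (1 : ℕ → κ) ⊗ₜ z₀ * Q ^ 2) = 0 := by
    rw [map_sub, map_mul, map_mul, map_pow, map_pow, hΦθ, sub_eq_zero]
    have h1 : Φ F₁ * (w : LaurentSeries (UP κ)) ^ 2 = θ z₀ := by
      have := congrArg (fun x : EF (UP κ) θ => (x : LaurentSeries (UP κ))) he
      simp only [MulMemClass.coe_mul, SubmonoidClass.coe_pow] at this
      exact this
    rw [← h1, hpq]
    field_simp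
  have ev1 := (hLos _).1 hfin
  have ev2 : ∀ᶠ i in (Filter.hyperfilter ℕ : Filter ℕ), ¬ ev i P = 0 := by
    rw [Ultrafilter.eventually_not]
    intro h
    exact hP ((hLos _).2 h)
  have ev3 : ∀ᶠ i in (Filter.hyperfilter ℕ : Filter ℕ), ¬ ev i Q = 0 := by
    rw [Ultrafilter.eventually_not]
    intro h
    exact hQ ((hLos _).2 h)
  obtain ⟨m, n, hmn, ⟨hm1, hm2, hm3⟩, ⟨hn1, hn2, hn3⟩⟩ := ultra_inf (ev1.and (ev2.and ev3))
  have key : ∀ i, ev i (F₁ * P ^ 2 - (1 : ℕ → κ) ⊗ₜ z₀ * Q ^ 2) = 0 → ¬ ev i P = 0 →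
      f i = z₀ * (ev i Q / (x₁ i * ev i P)) ^ 2 := by
    intro i h1 h2
    rw [map_sub, map_mul, map_mul, map_pow, map_pow, hF₁, hev, Pi.one_apply, one_smul,
      sub_eq_zero] at h1
    have := hx₁ i
    field_simp
    linear_combination h1
  apply hfr m n hmn
  have hm0 := hx₁ m
  have hn0 := hx₁ n
  refine ⟨(ev n Q / (x₁ n * ev n P)) / (ev m Q / (x₁ m * ev m P)), ?_, ?_⟩
  · exact div_ne_zero (div_ne_zero hn3 (mul_ne_zero hn0 hn2))
      (div_ne_zero hm3 (mul_ne_zero hm0 hm2))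
  · rw [key m hm1 hm2, key n hn1 hn2]
    field_simp

end Pool.Agent.Helper55.RG
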