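import Pool.Agent.Helper55.RG.Rig2

/-!
# Rigidity of functions with even divisors
-/

set_option autoImplicit false
set_option linter.all false

open FF Polynomial IntermediateField

namespace Pool.Agent.Helper55.RG

section ls

variable {Ω : Type} [Field Ω]

theorem algMap_eq (c : Ω) : algebraMap Ω (LaurentSeries Ω) c = HahnSeries.C c := by
  rw [HahnSeries.algebraMap_apply']
  simp

/-- the order of Laurent series -/
noncomputable def lsP (Ω : Type) [Field Ω] : Place Ω (LaurentSeries Ω) where
  ord f := f.order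
  ord_zero := HahnSeries.order_zero
  ord_mul := fun hf hg => HahnSeries.order_mul hf hg
  ord_add := fun hf hg hfg => HahnSeries.min_order_le_order_add hfg
  ord_const := by
    intro c hc
    rw [algMap_eq]
    exact HahnSeries.order_C
  surj := ⟨HahnSeries.single 1 1, HahnSeries.single_ne_zero one_ne_zero,
    HahnSeries.order_single one_ne_zero⟩

theorem lsP_ord (f : LaurentSeries Ω) : (lsP Ω).ord f = f.order := rfl

theorem trans_ls (a : Ω) :
    Transcendental Ω (HahnSeries.C a + HahnSeries.single (1 : ℤ) (1 : Ω) : LaurentSeries Ω) := by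
  intro h
  have h1 : IsAlgebraic Ω (HahnSeries.single (1 : ℤ) (1 : Ω) : LaurentSeries Ω) := by
    have h2 : (HahnSeries.single (1 : ℤ) (1 : Ω) : LaurentSeries Ω) =
        (HahnSeries.C a + HahnSeries.single (1 : ℤ) (1 : Ω)) - algebraMap Ω _ a := by
      rw [algMap_eq]; ring
    rw [h2]
    exact h.sub (isAlgebraic_algebraMap a)
  refine (lsP Ω).transcendental_of_ord_ne (f := HahnSeries.single (1 : ℤ) (1 : Ω)) ?_ h1
  rw [lsP_ord, HahnSeries.order_single one_ne_zero]
  exact one_ne_zero

end ls

section span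

variable {Ω : Type} [Field Ω]

/-- the span of a multiplicative set is closed under multiplication -/
theorem span_mul {S : Set (LaurentSeries Ω)} (hS : ∀ x ∈ S, ∀ y ∈ S, x * y ∈ S) {p q : LaurentSeries Ω}
    (hp : p ∈ Submodule.span Ω S) (hq : q ∈ Submodule.span Ω S) :
    p * q ∈ Submodule.span Ω S := by
  have key : ∀ x ∈ S, x * q ∈ Submodule.span Ω S := by
    intro x hx
    induction hq using Submodule.span_induction with
    | mem y hy => exact Submodule.subset_span (hS x hx y hy)
    | zero => rw [mul_zero]; exact zero_mem _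
    | add y z _ _ hy hz => rw [mul_add]; exact add_mem hy hz
    | smul c y _ hy =>
      rw [← HahnSeries.C_mul_eq_smul, mul_left_comm, HahnSeries.C_mul_eq_smul]
      exact Submodule.smul_mem _ _ hy
  induction hp using Submodule.span_induction with
  | mem x hx => exact key x hx
  | zero => rw [zero_mul]; exact zero_mem _
  | add y z _ _ hy hz => rw [add_mul]; exact add_mem hy hz
  | smul c y _ hy =>
    rw [← HahnSeries.C_mul_eq_smul, mul_assoc, HahnSeries.C_mul_eq_smul]
    exact Submodule.smul_mem _ _ hy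

theorem adjoin_span {S : Set (LaurentSeries Ω)} (hS : ∀ x ∈ S, ∀ y ∈ S, x * y ∈ S) (h1 : 1 ∈ S)
    {p : LaurentSeries Ω} (hp : p ∈ Algebra.adjoin Ω S) : p ∈ Submodule.span Ω S := by
  induction hp using Algebra.adjoin_induction with
  | mem x hx => exact Submodule.subset_span hx
  | algebraMap c =>
    rw [algMap_eq, ← mul_one (HahnSeries.C c), HahnSeries.C_mul_eq_smul]
    exact Submodule.smul_mem _ _ (Submodule.subset_span h1)
  | add x y _ _ hx hy => exact add_mem hx hy
  | mul x y _ _ hx hy => exact span_mul hS hx hy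

end span

section step

variable {Ω : Type} [Field Ω]

/-- the space `y W` -/
def yW (E : IntermediateField Ω (LaurentSeries Ω)) (W : Submodule Ω E) (y : LaurentSeries Ω) :
    Submodule Ω (LaurentSeries Ω) where
  carrier := {f | ∃ x ∈ W, f = y * (x : LaurentSeries Ω)}
  zero_mem' := ⟨0, zero_mem _, by simp⟩
  add_mem' := by
    rintro _ _ ⟨x, hx, rfl⟩ ⟨x', hx', rfl⟩
    exact ⟨x + x', add_mem hx hx', by rw [AddMemClass.coe_add, mul_add]⟩
  smul_mem' := by
    rintro c _ ⟨x, hx, rfl⟩
    refine ⟨c • x, Submodule.smul_mem _ _ hx, ?_⟩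
    rw [← HahnSeries.C_mul_eq_smul, Algebra.smul_def, MulMemClass.coe_mul]
    have h1 : ((algebraMap Ω E c : E) : LaurentSeries Ω) = HahnSeries.C c := by
      rw [← algMap_eq]; rfl
    rw [h1]
    ring

theorem yW_fin (E : IntermediateField Ω (LaurentSeries Ω)) (W : Submodule Ω E)
    (hW : FiniteDimensional Ω W) (y : LaurentSeries Ω) : FiniteDimensional Ω (yW E W y) := by
  let f : W →ₗ[Ω] yW E W y :=
    { toFun := fun x => ⟨y * ((x : E) : LaurentSeries Ω), x, x.2, rfl⟩
      map_add' := by
        intro x x'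
        ext1
        simp [mul_add]
      map_smul' := by
        intro c x
        ext1
        have h1 : ((algebraMap Ω E c : E) : LaurentSeries Ω) = HahnSeries.C c := by
          rw [← algMap_eq]; rfl
        show y * (((c • x : W) : E) : LaurentSeries Ω) = c • (y * ((x : E) : LaurentSeries Ω))
        rw [← HahnSeries.C_mul_eq_smul, Submodule.coe_smul, Algebra.smul_def, MulMemClass.coe_mul, h1]
        ring }
  refine Module.Finite.of_surjective f ?_
  rintro ⟨_, x, hx, rfl⟩
  exact ⟨⟨x, hx⟩, rfl⟩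

end step

theorem rig_main (hDER : S_DER) (hLEI : S_LEI) (hEST : S_EST) (hREC : S_REC) (hCST : S_CST)
    (hSQR : S_SQR) (hPRI : S_PRI) : S_RIG := by
  intro κ Ω N₀ _ _ _ _ _ _ _ _ _ t a₀ j ht hj hjt ψ hψ
  haveI : CharZero Ω := charZero_of_injective_algebraMap (algebraMap κ Ω).injective
  obtain ⟨α, g, A, B, s, hgen, hgm, hgt, hs, hAB⟩ := hPRI κ N₀ t ht
  set θ : N₀ →+* LaurentSeries Ω := (lmap κ Ω).comp j with hθdef
  have hθ : ∀ c : κ, θ (algebraMap κ N₀ c) = algebraMap Ω (LaurentSeries Ω) (algebraMap κ Ω c) := by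
    intro c
    rw [algMap_eq, hθdef, RingHom.comp_apply, hj, lmap_C]
  have hθt : θ t = HahnSeries.C (algebraMap κ Ω a₀) + HahnSeries.single (1 : ℤ) (1 : Ω) := by
    rw [hθdef, RingHom.comp_apply, hjt, map_add, lmap_C, lmap_single, map_one]
  have h0 : Transcendental Ω (θ t) := by
    rw [hθt]
    exact trans_ls _
  have hIs : IsFF Ω (EF Ω θ) := isFF_EF hθ h0 hgen hgm hgt
  refine ⟨hIs, ?_⟩
  have hψe : ψ = psi Ω θ := by
    ext1 x
    ext1
    rw [hψ]
    rfl
  subst hψe
  -- the base place
  set E := EF Ω θ with hE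
  have htr : Transcendental Ω (psi Ω θ t) := trans_psi h0
  have hcoeE : ∀ c : Ω, ((algebraMap Ω E c : E) : LaurentSeries Ω) = HahnSeries.C c := by
    intro c
    rw [← algMap_eq]; rfl
  have hsub : ((psi Ω θ t - algebraMap Ω E (algebraMap κ Ω a₀) : E) : LaurentSeries Ω) =
      HahnSeries.single (1 : ℤ) (1 : Ω) := by
    rw [AddSubgroupClass.coe_sub, hcoeE, psi_coe, hθt]
    ring
  have main : ∀ z : E, z ≠ 0 → Even ((z : LaurentSeries Ω).order) →
      (∀ P : Place Ω E, 0 ≤ P.ord (psi Ω θ t) →
        (∀ a : κ, ¬ 0 < P.ord (psi Ω θ t - algebraMap Ω _ (algebraMap κ Ω a))) → Even (P.ord z)) →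
      ∃ (w : E) (z₀ : N₀), w ≠ 0 ∧ z * w ^ 2 = psi Ω θ z₀ := by
    intro z hz hev hzP
    have hz' : (z : LaurentSeries Ω) ≠ 0 := by
      intro h
      apply hz
      ext1
      rw [h]
      rfl
    obtain ⟨y, hy⟩ := hSQR Ω (z : LaurentSeries Ω) hz' hev
    have hy0 : y ≠ 0 := by
      rintro rfl
      rw [zero_pow two_ne_zero] at hy
      exact hz' hy.symm
    obtain ⟨n, hn⟩ := exists_ne (Ω := Ω) z htr
    set W := LL (hd Ω z (psi Ω θ t) n) with hW
    obtain ⟨x₀, hx₀, hx₀0⟩ := Submodule.exists_mem_ne_zero_of_ne_bot hn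
    obtain ⟨f₀, hf₀, hf₀W⟩ := hREC κ Ω (fun c hc => by
        by_contra hcon
        obtain ⟨δ, hδ⟩ := hDER κ Ω c hcon
        exact hδ (hc δ)) (yW E W y) (yW_fin E W inferInstance y) (by
        intro hbot
        have h1 : y * (x₀ : LaurentSeries Ω) ∈ yW E W y := ⟨x₀, hx₀, rfl⟩
        rw [hbot, Submodule.mem_bot] at h1
        rcases mul_eq_zero.1 h1 with h2 | h2
        · exact hy0 h2
        · apply hx₀0
          ext1
          rw [h2]
          rfl) (by
        rintro δ f ⟨x, hx, rfl⟩
        obtain ⟨⟨d₁, hd₁⟩, -⟩ := hLEI Ω (δ.restrictScalars ℤ)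
        obtain ⟨d₀, hd₀⟩ := mkD (M := LaurentSeries Ω) (fun x => d₁ x) (fun x y => map_add d₁ x y)
          (fun x y => by
            rw [Derivation.leibniz, smul_eq_mul, smul_eq_mul])
        have hd₀' : ∀ (f : LaurentSeries Ω) (n : ℤ), (d₀ f).coeff n = δ (f.coeff n) := by
          intro f n
          rw [hd₀]
          exact hd₁ f n
        have hdm : ∀ x y : LaurentSeries Ω, d₀ (x * y) = x * d₀ y + y * d₀ x := by
          intro x y
          rw [hd₀, hd₀, hd₀, Derivation.leibniz, smul_eq_mul, smul_eq_mul]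
        have hk : ∀ x : N₀, d₀ (θ x) = 0 := by
          intro x
          ext n
          rw [hd₀', hθdef, RingHom.comp_apply, lmap_coeff, δ.map_algebraMap]
          rfl
        have hc : ∀ c : Ω, d₀ (algebraMap Ω (LaurentSeries Ω) c) =
            algebraMap Ω (LaurentSeries Ω) (δ c) := by
          intro c
          rw [algMap_eq, algMap_eq]
          ext n
          rw [hd₀']
          show δ ((HahnSeries.single (0 : ℤ) c).coeff n) = (HahnSeries.single (0 : ℤ) (δ c)).coeff n
          rw [HahnSeries.coeff_single, HahnSeries.coeff_single]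
          split_ifs
          · rfl
          · exact map_zero δ
        obtain ⟨D, hD1, hD2, hD3⟩ := exists_D (κ := κ) (Ω := Ω) (θ := θ) (δ := δ) (d₀ := d₀) hk hc
        have hest := hEST κ Ω E (psi Ω θ t) (psi Ω θ α) htr (adjoin_top hθ hgen) g A B s hs hgm
          hAB (by
            unfold ev2 at hgt ⊢
            have h2 : (eval₂RingHom ((algebraMap Ω E).comp (algebraMap κ Ω)) (psi Ω θ t)) =
                (psi Ω θ).comp (eval₂RingHom (algebraMap κ N₀) t) := by
              apply Polynomial.ringHom_ext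
              · intro c
                simp only [RingHom.comp_apply, coe_eval₂RingHom, eval₂_C]
                rw [psi_const hθ]
              · simp only [RingHom.comp_apply, coe_eval₂RingHom, eval₂_X]
            rw [h2, ← hom_eval₂, hgt, map_zero]) δ D (hD1 t) (hD1 α) hD2
        have hnab := nabla (t := psi Ω θ t) hz D
          (fun P => P.ord (psi Ω θ t) < 0 ∨
            ∃ a : κ, 0 < P.ord (psi Ω θ t - algebraMap Ω E (algebraMap κ Ω a)))
          (fun P hP => (hest P).1 hP) (fun P => (hest P).2) (by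
            intro P hP
            push Not at hP
            exact ⟨hzP P hP.1 fun a ha => absurd ha (not_lt.2 (hP.2 a)), hP.1⟩) n hx
        refine ⟨d₀ (y * (x : LaurentSeries Ω)), ⟨_, hnab, ?_⟩, hd₀' _⟩
        have e1 : (2 : LaurentSeries Ω) * y * d₀ y = ((D z : E) : LaurentSeries Ω) := by
          rw [hD3, ← hy, pow_two, hdm]
          ring
        have h2L : (2 : LaurentSeries Ω) ≠ 0 := by
          have h := (algebraMap Ω (LaurentSeries Ω)).injective.ne (two_ne_zero (α := Ω))
          rwa [map_ofNat, map_zero] at h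
        rw [hdm, AddMemClass.coe_add, MulMemClass.coe_mul, hD3 x]
        have h2E : ((2 : E) : LaurentSeries Ω) = 2 := map_ofNat E.val 2
        have e2 : ((D z / (2 * z) : E) : LaurentSeries Ω) =
            ((D z : E) : LaurentSeries Ω) / (2 * (z : LaurentSeries Ω)) := by
          rw [← h2E]
          rfl
        rw [e2, ← e1, ← hy]
        field_simp)
    obtain ⟨x, hx, hxe⟩ := hf₀W
    have hf₀' : lmap κ Ω f₀ ≠ 0 := (map_ne_zero_iff _ lmap_inj).2 hf₀
    have hx0 : x ≠ 0 := by
      rintro rfl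
      apply hf₀'
      rw [hxe]
      simp
    have hsq : lmap κ Ω (f₀ ^ 2) = ((z * x ^ 2 : E) : LaurentSeries Ω) := by
      rw [map_pow, hxe, mul_pow, hy]
      simp
    -- `f₀ ^ 2` is in `N₀`
    have hS : (lmap κ Ω '' (j.fieldRange : Set (LaurentSeries κ))) =
        Set.range fun x : N₀ => θ x := by
      ext f
      constructor
      · rintro ⟨_, ⟨x, rfl⟩, rfl⟩
        exact ⟨x, rfl⟩
      · rintro ⟨x, rfl⟩
        exact ⟨j x, ⟨x, rfl⟩, rfl⟩
    have hmulS : ∀ x ∈ (Set.range fun x : N₀ => θ x), ∀ y ∈ (Set.range fun x : N₀ => θ x),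
        x * y ∈ (Set.range fun x : N₀ => θ x) := by
      rintro _ ⟨x, rfl⟩ _ ⟨y, rfl⟩
      exact ⟨x * y, map_mul _ _ _⟩
    have hone : (1 : LaurentSeries Ω) ∈ (Set.range fun x : N₀ => θ x) := ⟨1, map_one _⟩
    obtain ⟨r, hr, q, hq, hrq⟩ := (IntermediateField.mem_adjoin_iff_div).1 (z * x ^ 2 : E).2
    have hzx : ((z * x ^ 2 : E) : LaurentSeries Ω) ≠ 0 := by
      rw [← hsq, map_pow]
      exact pow_ne_zero _ hf₀'
    have hq0 : q ≠ 0 := by
      rintro rfl
      rw [div_zero] at hrq
      exact hzx hrq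
    have hmem := hCST κ Ω j.fieldRange (fun c => ⟨algebraMap κ N₀ c, hj c⟩) r q (by
        rw [hS]; exact adjoin_span hmulS hone hr) (by
        rw [hS]; exact adjoin_span hmulS hone hq) hq0 (f₀ ^ 2) (by
        rw [hsq, hrq, div_mul_cancel₀ _ hq0])
    obtain ⟨z₀, hz₀⟩ := hmem
    refine ⟨x, z₀, hx0, ?_⟩
    ext1
    rw [← hsq, ← hz₀]
    rfl
  intro z hz hzP
  rcases Int.even_or_odd ((z : LaurentSeries Ω).order) with hev | hodd
  · exact main z hz hev hzP
  · have hu0 : psi Ω θ t - algebraMap Ω E (algebraMap κ Ω a₀) ≠ 0 := by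
      intro h
      rw [h] at hsub
      exact HahnSeries.single_ne_zero one_ne_zero hsub.symm
    have hz' : (z : LaurentSeries Ω) ≠ 0 := by
      intro h
      apply hz
      ext1
      rw [h]
      rfl
    have hψu : psi Ω θ (t - algebraMap κ N₀ a₀) =
        psi Ω θ t - algebraMap Ω E (algebraMap κ Ω a₀) := by
      rw [map_sub, psi_const hθ]
    obtain ⟨w, z₀, hw, he⟩ := main (z * (psi Ω θ t - algebraMap Ω E (algebraMap κ Ω a₀)))
      (mul_ne_zero hz hu0) (by
        rw [MulMemClass.coe_mul, hsub, HahnSeries.order_mul hz'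
          (HahnSeries.single_ne_zero one_ne_zero), HahnSeries.order_single one_ne_zero]
        exact hodd.add_one) (by
        intro P hP1 hP2
        rw [P.ord_mul hz hu0]
        have h1 : P.ord (psi Ω θ t - algebraMap Ω E (algebraMap κ Ω a₀)) = 0 := by
          have h2 := hP2 a₀
          have h3 : P.Reg (psi Ω θ t - algebraMap Ω E (algebraMap κ Ω a₀)) := by
            rw [sub_eq_add_neg]
            exact P.reg_add (Or.inr hP1) (P.reg_neg (P.reg_const _))
          have h4 := (P.reg_iff hu0).1 h3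
          omega
        rw [h1, add_zero]
        exact hzP P hP1 hP2)
    refine ⟨w, z₀ / (t - algebraMap κ N₀ a₀), hw, ?_⟩
    rw [map_div₀, hψu, ← he]
    field_simp

end Pool.Agent.Helper55.RG
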