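import Pool.Agent.Helper55.RG.Asm2
import Pool.Agent.Helper55.RG.Rig3
import Pool.Agent.Helper55.RG.Fin2
import Pool.Agent.Helper30.RG.DER
import Pool.Agent.Helper30.RG.GAC
import Pool.Agent.Helper31.RG.EXP
import Pool.Agent.Helper31.RG.UPL
import Pool.Agent.Helper31.RG.VAL
import Pool.Agent.Helper33.RG.BZ2
import Pool.Agent.Helper35.RG.BRI
import Pool.Agent.Helper35.RG.SUR
import Pool.Agent.Helper35.RG.UNR
import Pool.Agent.Helper46.RG.DSN
import Pool.Agent.Helper47.RG.CH1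
import Pool.Agent.Helper47.RG.DSL
import Pool.Agent.Helper47.RG.KUM
import Pool.Agent.Helper47.RG.PRI
import Pool.Agent.Helper47.RG.PRK
import Pool.Agent.Helper47.RG.SQR
import Pool.Agent.Helper61.RG.CJ1
import Pool.Agent.Helper61.RG.CJ2
import Pool.Agent.Helper71.RG.IK1
import Pool.Agent.Helper71.RG.IKB
import Pool.Agent.Helper71.RG.IKC
import Pool.Agent.Helper71.RG.SYK
import Pool.Agent.Helper72.RG.CST
import Pool.Agent.Helper72.RG.DEQ
import Pool.Agent.Helper72.RG.EST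
import Pool.Agent.Helper72.RG.IND
import Pool.Agent.Helper72.RG.LEI
import Pool.Agent.Helper72.RG.LOS
import Pool.Agent.Helper72.RG.REC
import Pool.Agent.Helper79.RG.GIR
import Pool.Agent.Helper79.RG.IAL
import Pool.Agent.Helper79.RG.IRK
import Pool.Agent.Helper79.RG.REG
import Pool.Agent.Helper79.RG.THE
import Pool.Agent.Helper79.RG.THN
import Pool.Agent.Helper86.RG.IRR
import Pool.Agent.Helper91.RG.BZ1

/-!
# The theorem for all representations: the proof
-/

set_option autoImplicit false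
set_option linter.all false

open Polynomial IsDedekindDomain NumberField
open scoped Classical

namespace Pool.Agent.Helper55.RG

open Pool.Agent Pool.Agent.TH115.GD Pool.Agent.R939.EI Pool.Agent.R939.PP Pool.Agent.R939.HI
  Pool.Agent.W275.UB Pool.Agent.Helper55.TT Pool.Agent.H927R2.RD Pool.Agent.Helper55.UV

theorem est : S_EST :=
  Pool.Agent.Helper72.RG.EST.main Pool.Agent.Helper31.RG.VAL.main Pool.Agent.Helper31.RG.EXP.main
    Pool.Agent.Helper31.RG.UPL.main Pool.Agent.Helper72.RG.DEQ.main Pool.Agent.Helper72.RG.LEI.main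

theorem rig : S_RIG :=
  rig_main Pool.Agent.Helper30.RG.DER.main Pool.Agent.Helper72.RG.LEI.main est
    Pool.Agent.Helper72.RG.REC.main Pool.Agent.Helper72.RG.CST.main Pool.Agent.Helper47.RG.SQR.main
    Pool.Agent.Helper47.RG.PRI.main

theorem fin : S_FIN :=
  fin_main rig Pool.Agent.Helper47.RG.PRI.main Pool.Agent.Helper31.RG.EXP.main
    Pool.Agent.Helper31.RG.VAL.main Pool.Agent.Helper31.RG.UPL.main Pool.Agent.Helper30.RG.GAC.main
    Pool.Agent.Helper79.RG.REG.main Pool.Agent.Helper91.RG.BZ1.main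
    Pool.Agent.Helper33.RG.BZ2.main Pool.Agent.Helper72.RG.LOS.main

theorem hfin : S_HFIN :=
  hfin_main fin Pool.Agent.Helper35.RG.UNR.main
    (Pool.Agent.Helper35.RG.BRI.main Pool.Agent.Helper31.RG.UPL.main)
    Pool.Agent.Helper46.RG.DSN.main Pool.Agent.Helper47.RG.PRK.main

theorem irr : S_IRR :=
  Pool.Agent.Helper86.RG.IRR.main Pool.Agent.Helper79.RG.ial Pool.Agent.Helper79.RG.the
    Pool.Agent.Helper79.RG.gir

theorem ik1 : S_IK1 :=
  Pool.Agent.Helper71.RG.IK1.main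
    (Pool.Agent.Helper71.RG.IKB.main Pool.Agent.Helper71.RG.SYK.main Pool.Agent.Helper79.RGN.thn)
    (Pool.Agent.Helper71.RG.IKC.main Pool.Agent.Helper71.RG.SYK.main Pool.Agent.Helper79.RGN.thn)

section main

variable {k k' K F : Type} [Field k] [Field k'] [Algebra k k'] [Field K] [Algebra k[X] K]
    [Field F] [Algebra k'[X] F] [IsFractionRing k'[X] F] [Algebra K F]

/-- The dense set. -/
theorem dense_all [NumberField k] (hT : IsTower k k' K F) {J : Type} [Fintype J]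
    (B : Module.Basis J ℤ (𝓞 k)) (L : IntermediateField K (Sep F)) [FiniteDimensional K L]
    {P : k[X]} (hP : P ≠ 0) {n : ℕ} (hn : 3 ≤ n) :
    D0 {x : (Σ l : Fin 1, Fin ((fun _ => n : Fin 1 → ℕ) l + 1)) × J → ℤ |
      ¬ VanishL k' K F L P (Dp B x 0)} :=
  dense_set Pool.Agent.Helper47.RG.DSL.main Pool.Agent.Helper47.RG.KUM.main
    Pool.Agent.Helper61.RG.CJ1.main Pool.Agent.Helper61.RG.CJ2.main Pool.Agent.Helper47.RG.CH1.main
    Pool.Agent.Helper35.RG.SUR.main hfin Pool.Agent.Helper47.RG.PRK.main irr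
    (Pool.Agent.Helper79.RGK.irk irr) ik1 hT B L hP hn

/-- **The theorem for all representations.** -/
theorem vanishL_all [NumberField k] (hT : IsTower k k' K F) {J : Type} [Fintype J]
    (B : Module.Basis J ℤ (𝓞 k)) (L : IntermediateField K (Sep F)) [FiniteDimensional K L]
    {P : k[X]} (hP : P ≠ 0) {n : ℕ} (hn : 3 ≤ n) {η : ℝ} (hη : 0 < η) :
    ∃ H0 : ℕ, ∀ H : ℕ, H0 ≤ H →
      (({x : Fin (n + 1) → 𝓞 k | (∀ j t, |B.repr (x j) t| ≤ (H : ℤ)) ∧
        ¬ VanishL k' K F L P (polA fun j => algebraMap (𝓞 k) k (x j))}.ncard : ℕ) : ℝ) ≤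
        η * (2 * H + 1) ^ (Fintype.card J * (n + 1)) := by
  classical
  obtain ⟨H0, hH⟩ := dense_all (k' := k') (K := K) (F := F) hT B L hP hn η hη
  refine ⟨H0, fun H hHH => ?_⟩
  have h1 := hH H hHH
  have hcard : Fintype.card ((Σ l : Fin 1, Fin ((fun _ => n : Fin 1 → ℕ) l + 1)) × J) =
      Fintype.card J * (n + 1) := by
    rw [Fintype.card_prod, Fintype.card_sigma, Nat.mul_comm]
    simp
  rw [hcard] at h1
  refine le_trans ?_ h1
  let φ : (Fin (n + 1) → 𝓞 k) → ((Σ l : Fin 1, Fin ((fun _ => n : Fin 1 → ℕ) l + 1)) × J → ℤ) :=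
    fun y o => B.repr (y o.1.2) o.2
  have hkv : ∀ y (o : Σ l : Fin 1, Fin ((fun _ => n : Fin 1 → ℕ) l + 1)), kv B (φ y) o =
      algebraMap (𝓞 k) k (y o.2) := by
    intro y o
    show algebraMap (𝓞 k) k (elt B fun j => B.repr (y o.2) j) = _
    rw [← basis_elt B]
  have hinj : Function.Injective φ := by
    intro y z hyz
    funext j
    apply FaithfulSMul.algebraMap_injective (𝓞 k) k
    have h3 := hkv y ⟨0, j⟩
    rw [hyz, hkv z ⟨0, j⟩] at h3
    exact h3.symm
  have h4 : (Set.ncard {x : Fin (n + 1) → 𝓞 k |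
      (∀ j t, |B.repr (x j) t| ≤ (H : ℤ)) ∧
        ¬ VanishL k' K F L P (polA fun j => algebraMap (𝓞 k) k (x j))}) ≤
      Set.ncard {v : (Σ l : Fin 1, Fin ((fun _ => n : Fin 1 → ℕ) l + 1)) × J → ℤ |
        v ∈ {x : (Σ l : Fin 1, Fin ((fun _ => n : Fin 1 → ℕ) l + 1)) × J → ℤ |
          ¬ VanishL k' K F L P (Dp B x 0)} ∧ ∀ i, |v i| ≤ (H : ℤ)} := by
    rw [← Set.ncard_image_of_injective _ hinj]
    refine Set.ncard_le_ncard ?_ (box_fin _ H)
    rintro _ ⟨y, ⟨b1, hbad⟩, rfl⟩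
    refine ⟨?_, ?_⟩
    · intro hgood
      apply hbad
      have e : Dp B (φ y) (0 : Fin 1) = polA fun j => algebraMap (𝓞 k) k (y j) := by
        show polA (fun j => kv B (φ y) ⟨0, j⟩) = _
        congr 1
        funext j
        exact hkv y ⟨0, j⟩
      rw [e] at hgood
      exact hgood
    · rintro ⟨⟨l, j⟩, t⟩
      exact b1 j t
  exact_mod_cast h4

end main

end Pool.Agent.Helper55.RG
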