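import Pool.Agent.Helper55.RG.Spec7
import Pool.Agent.Helper55.RG.Hf2

/-!
# The theorem for all representations, uniformly in the field of constants
-/

set_option autoImplicit false
set_option linter.all false

open Polynomial IsDedekindDomain NumberField
open scoped Classical

namespace Pool.Agent.Helper55.RG

open Pool.Agent Pool.Agent.TH115.GD Pool.Agent.R939.EI Pool.Agent.R939.PP Pool.Agent.R939.HI
  Pool.Agent.W275.UB Pool.Agent.Helper55.TT Pool.Agent.H927R2.RD Pool.Agent.Helper55.UV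

section ext

variable {k k' K F : Type} [Field k] [CharZero k] [Field k'] [Algebra k k'] [Field K]
    [Algebra k[X] K] [Field F] [Algebra k'[X] F] [IsFractionRing k'[X] F] [Algebra K F]
    {k₂ : IntermediateField k k'} {K₂ : Type} [Field K₂] [Algebra k₂[X] K₂] [Algebra K₂ F]

theorem act_em (hT : IsTower k k' K F) {δ : Sep F ≃ₐ[K] Sep F} {s : k' ≃ₐ[k] k'}
    (hδ : ∀ c, δ (em k' F (Sep F) (C c)) = em k' F (Sep F) (C (s c))) (q : k'[X]) :
    δ (em k' F (Sep F) q) = em k' F (Sep F) (q.map (s : k' →+* k')) := by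
  have h : (δ : Sep F →+* Sep F).comp (em k' F (Sep F)) =
      (em k' F (Sep F)).comp (mapRingHom (s : k' →+* k')) := by
    apply Polynomial.ringHom_ext
    · intro c
      show δ (em k' F (Sep F) (C c)) = em k' F (Sep F) ((C c).map (s : k' →+* k'))
      rw [hδ, map_C]
      rfl
    · show δ (em k' F (Sep F) X) = em k' F (Sep F) (X.map (s : k' →+* k'))
      have h1 := em_map (k' := k') (K := K) (F := F) hT X
      rw [map_X] at h1
      rw [map_X, ← h1]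
      exact δ.commutes _
  exact congrArg (fun f : k'[X] →+* Sep F => f q) h

theorem fix_K₂ (hT : IsTower k k' K F) (hT₂ : IsTower k₂ k' K₂ F) {δ : Sep F ≃ₐ[K] Sep F}
    {s : k' ≃ₐ[k] k'} (hδ : ∀ c, δ (em k' F (Sep F) (C c)) = em k' F (Sep F) (C (s c)))
    (hs : ∀ x ∈ k₂, s x = x) (x : K₂) :
    δ (algebraMap K₂ (Sep F) x) = algebraMap K₂ (Sep F) x := by
  haveI := hT₂.fracK
  have hp : ∀ p : k₂[X], δ (algebraMap K₂ (Sep F) (algebraMap k₂[X] K₂ p)) =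
      algebraMap K₂ (Sep F) (algebraMap k₂[X] K₂ p) := by
    intro p
    have h1 : algebraMap K₂ (Sep F) (algebraMap k₂[X] K₂ p) =
      em k' F (Sep F) (p.map (algebraMap k₂ k')) := em_map hT₂ p
    rw [h1, act_em hT hδ, Polynomial.map_map]
    have h2 : ((s : k' →+* k').comp (algebraMap k₂ k')) = algebraMap k₂ k' :=
      RingHom.ext fun x => hs x x.2
    rw [h2]
  obtain ⟨p, q, -, rfl⟩ := IsFractionRing.div_surjective (A := k₂[X]) x
  rw [map_div₀, map_div₀, hp, hp]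

theorem sur2 (hSU2 : S_SU2) (hT : IsTower k k' K F) (hT₂ : IsTower k₂ k' K₂ F) {π : k[X]}
    (hπ : Irreducible π) {θ : k'} (hθ : aeval θ π = 0)
    (ι : Sep F →ₐ[F] Sep (Comp k'[X] F (pl θ))) {g : k[X][X]} (hg : g.Monic)
    (hgi : Irreducible (g.map (AdjoinRoot.mk π))) {α : Sep F}
    (hα : eval₂ (em k K (Sep F)) α g = 0) {M : IntermediateField k k'}
    (hM : ∀ s₀ : k' ≃ₐ[k] k', ∃ s : k' ≃ₐ[k] k', (∀ x ∈ M, s x = s₀ x) ∧ ∀ x ∈ k₂, s x = x)
    (hθM : θ ∈ M) (hbM : ∀ b : k', ev2 (algebraMap k k') θ b g = 0 → b ∈ M)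
    (σ : Sep F ≃ₐ[K₂] Sep F) :
    ∃ δ : Sep F ≃ₐ[K₂] Sep F, InD K₂ (Comp k'[X] F (pl θ)) ι δ ∧ δ α = σ α := by
  obtain ⟨σ', hσ'⟩ := resc hT hT₂ σ
  obtain ⟨b, b', hb, hb', ⟨s₀, h1, h2⟩, hall⟩ := hSU2 k k' K F hT π θ hπ hθ ι g hg hgi α hα σ'
  obtain ⟨s, hsM, hsk⟩ := hM s₀
  obtain ⟨δ, G, γ, hG, hGι, hδα, hδc⟩ := hall s (by rw [hsM θ hθM, h1])
    (by rw [hsM b (hbM b hb), h2])
  have hK₂ := fix_K₂ hT hT₂ hδc hsk
  refine ⟨AlgEquiv.ofRingEquiv (f := δ.toRingEquiv) hK₂, ⟨AlgEquiv.ofRingEquiv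
    (f := G.toRingEquiv) ?_, γ, hG, hGι⟩, ?_⟩
  · intro x
    have h3 : algebraMap K₂ (Sep (Comp k'[X] F (pl θ))) x = ι (algebraMap K₂ (Sep F) x) := by
      rw [IsScalarTower.algebraMap_apply K₂ F (Sep (Comp k'[X] F (pl θ))),
        IsScalarTower.algebraMap_apply K₂ F (Sep F)]
      exact (ι.commutes _).symm
    show G (algebraMap K₂ (Sep (Comp k'[X] F (pl θ))) x) = _
    rw [h3, hGι, hK₂]
  · show δ α = σ α
    rw [hδα, hσ']

end ext

end Pool.Agent.Helper55.RG
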