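import Pool.Agent.Helper55.RG.Asm4

/-!
# The theorem for all representations, uniformly in the field of constants
-/

set_option autoImplicit false
set_option linter.all false

open Polynomial IsDedekindDomain NumberField
open scoped Classical

namespace Pool.Agent.Helper55.RG

open Pool.Agent Pool.Agent.TH115.GD Pool.Agent.R939.EI Pool.Agent.R939.PP Pool.Agent.R939.HI
  Pool.Agent.W275.UB Pool.Agent.Helper55.TT Pool.Agent.H927R2.RD Pool.Agent.Helper55.UV

/-- `VanishExt k' K F L P N D`: there is a Galois extension `M` of `k` in `k'`, whose degree divides `N`, such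
that for all finite extensions `k₂` of `k` in `k'` with `k₂ ∩ M = k`, and all representations of the
Galois group of `K₂ = k₂(t)` in `GL_d(ℤ₂)` (any `d`) as in `VanishL`, the fixed classes vanish. -/
def VanishExt (k' K F : Type) {k : Type} [Field k] [Field k'] [Algebra k k'] [Field K]
    [Field F] [Algebra k'[X] F] [IsFractionRing k'[X] F] [Algebra K F]
    (L : IntermediateField K (Sep F)) (P : k[X]) (N : ℕ) (D : k[X]) : Prop :=
  ∃ M : IntermediateField k k', IsGalois k M ∧ FiniteDimensional k M ∧ Module.finrank k M ∣ N ∧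
    ∀ k₂ : IntermediateField k k', FiniteDimensional k k₂ → k₂ ⊓ M = ⊥ →
    ∀ (K₂ : Type) [Field K₂] [Algebra k₂[X] K₂] [Algebra K₂ F], IsTower k₂ k' K₂ F →
      VanishL k' K₂ F (IntermediateField.adjoin K₂ (L : Set (Sep F))) (P.map (algebraMap k k₂))
        (D.map (algebraMap k k₂))

section main

variable {k k' K F : Type} [Field k] [CharZero k] [Field k'] [Algebra k k'] [Field K]
    [Algebra k[X] K] [Field F] [Algebra k'[X] F] [IsFractionRing k'[X] F] [Algebra K F]

theorem sepcl {k k' κ : Type} [Field k] [CharZero k] [Field k'] [Algebra k k'] [IsSepClosure k k']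
    [Field κ] [Algebra k κ] [Algebra κ k'] [IsScalarTower k κ k'] : IsSepClosure κ k' := by
  haveI : Algebra.IsSeparable k k' := IsSepClosure.separable
  exact ⟨IsSepClosure.sep_closed k, Algebra.isSeparable_tower_top_of_isSeparable k κ k'⟩

/-- The theorem for one `D`. -/
theorem vanish_ext_one (hDSL : S_DSL) (hKUM : S_KUM) (hCJ1 : S_CJ1) (hCJ2 : S_CJ2) (hCH1 : S_CH1)
    (hSU2 : S_SU2) (hSPM : S_SPM) (hCON : S_CON) (hKAP : S_KAP)
    (hT : IsTower k k' K F) {L₀ L L2 : IntermediateField K (Sep F)} {P s : k[X]} (hs : s ≠ 0)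
    (hPs : P ∣ s) (hL₀ : L₀ ≤ L) (hle : L ≤ L2) [FiniteDimensional K L] [Normal K L]
    [FiniteDimensional K L2] [Normal K L2]
    (hunr : ∀ v : HeightOneSpectrum k'[X], s.map (algebraMap k k') ∉ v.asIdeal →
      ∀ (ι : Sep F →ₐ[F] Sep (Comp k'[X] F v)) (σ : Sep F ≃ₐ[F] Sep F),
      InI (Comp k'[X] F v) ι σ → ∀ x ∈ L, σ x = x)
    (hfin : ∀ (k₂ : IntermediateField k k') [FiniteDimensional k k₂] (K₂ : Type) [Field K₂]
      [Algebra k₂[X] K₂] [Algebra K₂ F], IsTower k₂ k' K₂ F →
      ∀ y : Sep F, y ≠ 0 → y ^ 2 ∈ IntermediateField.adjoin K₂ (L : Set (Sep F)) →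
      (∀ v : HeightOneSpectrum k'[X], s.map (algebraMap k k') ∉ v.asIdeal →
        ∀ (ι : Sep F →ₐ[F] Sep (Comp k'[X] F v)) (σ : Sep F ≃ₐ[F] Sep F),
        InI (Comp k'[X] F v) ι σ → σ y = y) →
      ∀ τ : Sep F ≃ₐ[K₂] Sep F, (∀ c : k', em k' F (Sep F) (C c) ∈
        IntermediateField.adjoin K₂ (L : Set (Sep F)) →
        τ (em k' F (Sep F) (C c)) = em k' F (Sep F) (C c)) →
      y * τ y ∈ IntermediateField.adjoin K₂ (L2 : Set (Sep F)))
    {g : k[X][X]} (hg : g.Monic) {α : Sep F} (hα : eval₂ (em k K (Sep F)) α g = 0)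
    (hL2 : IntermediateField.adjoin K {α} = L2)
    {D : k[X]} (hD : Irreducible D) (hDg : Irreducible (g.map (AdjoinRoot.mk D)))
    (hD1 : Irreducible (D.map (algebraMap k (consts hT L))))
    (hind : IndepAt (D.map (algebraMap k (consts hT L))) (s.map (algebraMap k (consts hT L))))
    (hDs : ¬ D ∣ s)
    {M : IntermediateField k k'} [IsGalois k M] [FiniteDimensional k M] (hM1 : consts hT L ≤ M)
    (hMD : ∀ θ : k', aeval θ D = 0 → θ ∈ M) (hMs : ∀ r : k', aeval r s = 0 → r ∈ M)
    (hMb : ∀ θ b : k', aeval θ D = 0 → ev2 (algebraMap k k') θ b g = 0 → b ∈ M)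
    (hMw : ∀ θ r w : k', aeval θ D = 0 → aeval r s = 0 → w ^ 2 = θ - r → w ∈ M)
    (k₂ : IntermediateField k k') [FiniteDimensional k k₂] (hk₂ : k₂ ⊓ M = ⊥)
    (K₂ : Type) [Field K₂] [Algebra k₂[X] K₂] [Algebra K₂ F] (hT₂ : IsTower k₂ k' K₂ F) :
    VanishL k' K₂ F (IntermediateField.adjoin K₂ (L₀ : Set (Sep F))) (P.map (algebraMap k k₂))
      (D.map (algebraMap k k₂)) := by
  haveI := hT.sep
  haveI := hT.fracK
  haveI := hT₂.sep
  haveI := hT₂.fracK
  haveI : IsSepClosure K (Sep F) := sepKΩ hT.map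
  haveI : Algebra.IsSeparable K (Sep F) := IsSepClosure.separable
  haveI : IsGalois K (Sep F) := inferInstance
  haveI : IsSepClosure K₂ (Sep F) := sepKΩ hT₂.map
  haveI : Algebra.IsSeparable K₂ (Sep F) := IsSepClosure.separable
  haveI : IsGalois K₂ (Sep F) := inferInstance
  haveI : CharZero k₂ := charZero_of_injective_algebraMap (algebraMap k k₂).injective
  haveI : CharZero k' := charZero_of_injective_algebraMap (algebraMap k k').injective
  have hSP := hSPM k k' M k₂ hk₂
  have hstab : ∀ (τ : Sep F ≃ₐ[K] Sep F), ∀ x ∈ L, τ x ∈ L := fun τ x hx => stabN inferInstance τ hx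
  have hstab2 : ∀ (τ : Sep F ≃ₐ[K] Sep F), ∀ x ∈ L2, τ x ∈ L2 :=
    fun τ x hx => stabN inferInstance τ hx
  set L₂ : IntermediateField K₂ (Sep F) := IntermediateField.adjoin K₂ (L : Set (Sep F)) with hL₂
  haveI : FiniteDimensional K₂ L₂ := fin_adj hT hT₂ L
  haveI : Normal K₂ L₂ := normal_adj hT hT₂ hstab
  set κ : IntermediateField k₂ k' := consts hT₂ L₂ with hκ
  haveI : FiniteDimensional k₂ κ := fin_consts hT₂ L₂
  have hk₁κ : ∀ x : k', x ∈ consts hT L → x ∈ κ := by
    intro x hx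
    rw [hκ, mem_consts]
    exact IntermediateField.subset_adjoin _ _ ((mem_consts hT L x).1 hx)
  letI alg : Algebra (consts hT L) κ :=
    ({ toFun := fun x => ⟨(x : k'), hk₁κ x x.2⟩
       map_one' := rfl
       map_mul' := fun x y => rfl
       map_zero' := rfl
       map_add' := fun x y => rfl } : consts hT L →+* κ).toAlgebra
  haveI : IsScalarTower (consts hT L) κ k' := IsScalarTower.of_algebraMap_eq fun x => rfl
  haveI : IsSepClosure (consts hT L) k' := sepcl (k := k)
  haveI : IsSepClosure κ k' := sepcl (k := k₂)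
  haveI : CharZero (consts hT L) :=
    charZero_of_injective_algebraMap (algebraMap k (consts hT L)).injective
  -- the two ways to `κ`
  have hmap : ∀ q : k[X], (q.map (algebraMap k (consts hT L))).map (algebraMap (consts hT L) κ) =
      (q.map (algebraMap k k₂)).map (algebraMap k₂ κ) := by
    intro q
    apply Polynomial.map_injective (algebraMap κ k') (algebraMap κ k').injective
    rw [Polynomial.map_map, Polynomial.map_map, Polynomial.map_map, Polynomial.map_map]
    rfl
  have hmap' : ∀ q : k[X], (q.map (algebraMap k k₂)).map (algebraMap k₂ k') =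
      q.map (algebraMap k k') := by
    intro q
    rw [Polynomial.map_map]
    rfl
  have haev : ∀ (q : k[X]) (θ : k'), aeval θ (q.map (algebraMap k k₂)) = aeval θ q := by
    intro q θ
    rw [aeval_map_algebraMap]
  have haev1 : ∀ (q : k[X]) (θ : k'), aeval θ (q.map (algebraMap k (consts hT L))) = aeval θ q := by
    intro q θ
    rw [aeval_map_algebraMap]
  -- irreducibility and independence over `κ`
  set Ms : Set k' := ({θ : k' | aeval θ D = 0} ∪ {r : k' | aeval r s = 0}) ∪
    {w : k' | ∃ θ r : k', aeval θ D = 0 ∧ aeval r s = 0 ∧ w ^ 2 = θ - r} with hMsd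
  have hMsM : ∀ x ∈ Ms, x ∈ M := by
    rintro x ((hx | hx) | ⟨θ, r, hθ, hr, hw⟩)
    · exact hMD x hx
    · exact hMs x hx
    · exact hMw θ r x hθ hr hw
  have hfinr : ∀ q : k[X], q ≠ 0 → {θ : k' | aeval θ q = 0}.Finite := by
    intro q hq
    have h1 : (q.map (algebraMap k k')) ≠ 0 := by rwa [Ne, Polynomial.map_eq_zero]
    refine (Polynomial.finite_setOf_isRoot h1).subset ?_
    intro θ hθ
    show (q.map (algebraMap k k')).eval θ = 0
    rw [eval_map_algebraMap]
    exact hθ
  have hMsf : Ms.Finite := by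
    refine ((hfinr D hD.ne_zero).union (hfinr s hs)).union ?_
    have h1 : {w : k' | ∃ θ r : k', aeval θ D = 0 ∧ aeval r s = 0 ∧ w ^ 2 = θ - r} ⊆
        ⋃ θ ∈ {θ : k' | aeval θ D = 0}, ⋃ r ∈ {r : k' | aeval r s = 0},
          {w : k' | (X ^ 2 - C (θ - r) : k'[X]).IsRoot w} := by
      rintro w ⟨θ, r, hθ, hr, hw⟩
      simp only [Set.mem_iUnion]
      refine ⟨θ, hθ, r, hr, ?_⟩
      show (X ^ 2 - C (θ - r) : k'[X]).eval w = 0
      simp [hw]
    refine Set.Finite.subset ?_ h1
    refine (hfinr D hD.ne_zero).biUnion fun θ _ => (hfinr s hs).biUnion fun r _ => ?_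
    exact Polynomial.finite_setOf_isRoot (X_pow_sub_C_ne_zero (by norm_num) _)
  have hlift : ∀ σ : k' ≃ₐ[consts hT L] k', ∃ τ : k' ≃ₐ[κ] k', ∀ x ∈ Ms, τ x = σ x := by
    intro σ
    obtain ⟨τ, hτM, hτk⟩ := hSP (σ.restrictScalars k)
    have hτκ : ∀ x : κ, τ (algebraMap κ k' x) = algebraMap κ k' x := by
      intro x
      refine hCON k k' K F hT L k₂ K₂ hT₂ (x : k') ((mem_consts hT₂ L₂ _).1 x.2) τ hτk ?_
      intro y hy
      have hy' : y ∈ consts hT L := (mem_consts hT L y).2 hy
      rw [hτM y (hM1 hy')]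
      exact σ.commutes ⟨y, hy'⟩
    exact ⟨AlgEquiv.ofRingEquiv (f := τ.toRingEquiv) hτκ, fun x hx => hτM x (hMsM x hx)⟩
  obtain ⟨hDκ, hindκ⟩ := hKAP (consts hT L) κ k' Ms (D.map (algebraMap k (consts hT L)))
    (s.map (algebraMap k (consts hT L))) hMsf hlift
    (fun θ hθ => Or.inl (Or.inl (by rwa [haev1] at hθ)))
    (fun r hr => Or.inl (Or.inr (by rwa [haev1] at hr)))
    (fun θ r w hθ hr hw => Or.inr ⟨θ, r, by rwa [haev1] at hθ, by rwa [haev1] at hr, hw⟩)
    (by rwa [Ne, Polynomial.map_eq_zero]) hD1 hind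
  rw [hmap] at hDκ
  rw [hmap, hmap] at hindκ
  have hD₂ : Irreducible (D.map (algebraMap k k₂)) := by
    have h0 : D.map (algebraMap k k₂) ≠ 0 := by
      rw [Ne, Polynomial.map_eq_zero]
      exact hD.ne_zero
    exact Polynomial.IsPrimitive.irreducible_of_irreducible_map_of_injective
      (algebraMap k₂ κ).injective ((Polynomial.isPrimitive_iff_ne_zero _).2 h0) hDκ
  intro d ρ hρ hp2 hun hno c hc hloc
  have hmem : ∀ x ∈ IntermediateField.adjoin K₂ (L₀ : Set (Sep F)), x ∈ L₂ := by
    have : IntermediateField.adjoin K₂ (L₀ : Set (Sep F)) ≤ L₂ :=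
      IntermediateField.adjoin.mono _ _ _ hL₀
    exact fun x hx => this hx
  have hsub : ∀ v : HeightOneSpectrum k'[X],
      (s.map (algebraMap k k₂) * D.map (algebraMap k k₂)).map (algebraMap k₂ k') ∉ v.asIdeal →
      (P.map (algebraMap k k₂) * D.map (algebraMap k k₂)).map (algebraMap k₂ k') ∉ v.asIdeal := by
    intro v hv h
    apply hv
    obtain ⟨s', rfl⟩ := hPs
    have h6 : ((P * s').map (algebraMap k k₂) * D.map (algebraMap k k₂)).map (algebraMap k₂ k') =
        (P.map (algebraMap k k₂) * D.map (algebraMap k k₂)).map (algebraMap k₂ k') *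
          (s'.map (algebraMap k k₂)).map (algebraMap k₂ k') := by
      simp only [Polynomial.map_mul]
      ring
    rw [h6]
    exact v.asIdeal.mul_mem_right _ h
  refine crit_L (k := k₂) (L := L₂)
    (L2 := IntermediateField.adjoin K₂ (L2 : Set (Sep F))) hDSL hKUM hCJ1 hCJ2 hCH1 hT₂
    (IntermediateField.adjoin.mono _ _ _ hle) (s := s.map (algebraMap k k₂))
    (by rwa [Ne, Polynomial.map_eq_zero]) ?_ ?_ κ (mem_consts hT₂ L₂) hD₂ hDκ hindκ ?_ ?_ hρ
    (fun σ hσ => hp2 σ fun x hx =>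
      (IntermediateField.mem_fixingSubgroup_iff _ _).1 hσ x (hmem x hx))
    (fun v hv => hun v (hsub v hv)) hno hc.1 hc.2.1 hc.2.2
    (fun v hv => hloc.1 v (hsub v hv)) hloc.2
  · intro v hv ι σ hσ
    rw [hmap'] at hv
    have h1 := hunr v hv ι σ hσ
    rw [IntermediateField.mem_fixingSubgroup_iff]
    intro x hx
    show σ x = x
    induction hx using IntermediateField.adjoin_induction with
    | mem x hx => exact h1 x hx
    | algebraMap x =>
      rw [IsScalarTower.algebraMap_apply K₂ F (Sep F)]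
      exact σ.commutes _
    | add x y _ _ hx hy => rw [map_add, hx, hy]
    | inv x _ hx => rw [map_inv₀, hx]
    | mul x y _ _ hx hy => rw [map_mul, hx, hy]
  · intro y y0 hyL hyI τ hτ
    refine hfin k₂ K₂ hT₂ y y0 hyL ?_ τ hτ
    intro v hv
    rw [← hmap'] at hv
    exact hyI v hv
  · intro h
    exact hDs ((Polynomial.map_dvd_map' _).1 h)
  · intro θ hθ ι σ
    rw [haev] at hθ
    obtain ⟨δ, hδD, hδ⟩ := sur2 hSU2 hT hT₂ hD hθ ι hg hDg hα hSP (hMD θ hθ) (fun b hb =>
      hMb θ b hθ hb) σ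
    refine ⟨δ, hδD, fun x hx => ?_⟩
    have hL2' : ∀ x ∈ L2, δ x = σ x := by
      intro x hx
      rw [← hL2] at hx
      induction hx using IntermediateField.adjoin_induction with
      | mem x hx =>
        rw [Set.mem_singleton_iff] at hx
        rw [hx, hδ]
      | algebraMap x =>
        obtain ⟨x₂, h⟩ := alg_sub' hT hT₂ x
        rw [h, δ.commutes, σ.commutes]
      | add x y _ _ hx hy => rw [map_add, map_add, hx, hy]
      | inv x _ hx => rw [map_inv₀, map_inv₀, hx]
      | mul x y _ _ hx hy => rw [map_mul, map_mul, hx, hy]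
    induction hx using IntermediateField.adjoin_induction with
    | mem x hx => exact hL2' x hx
    | algebraMap x => rw [δ.commutes, σ.commutes]
    | add x y _ _ hx hy => rw [map_add, map_add, hx, hy]
    | inv x _ hx => rw [map_inv₀, map_inv₀, hx]
    | mul x y _ _ hx hy => rw [map_mul, map_mul, hx, hy]

end main

end Pool.Agent.Helper55.RG
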