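import Pool.Agent.Helper55.RG.Asm5
import Pool.Agent.Helper55.RG.Spec3

/-!
# The theorem for all representations, uniformly in the field of constants: the dense set
-/

set_option autoImplicit false
set_option linter.all false

open Polynomial IsDedekindDomain NumberField
open scoped Classical

namespace Pool.Agent.Helper55.RG

open Pool.Agent Pool.Agent.TH115.GD Pool.Agent.R939.EI Pool.Agent.R939.PP Pool.Agent.R939.HI
  Pool.Agent.W275.UB Pool.Agent.Helper55.TT Pool.Agent.H927R2.RD Pool.Agent.Helper55.UV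

section main

variable {k k' K F : Type} [Field k] [Field k'] [Algebra k k'] [Field K]
    [Algebra k[X] K] [Field F] [Algebra k'[X] F] [IsFractionRing k'[X] F] [Algebra K F]

/-- The dense set. -/
theorem dense_ext (hDSL : S_DSL) (hKUM : S_KUM) (hCJ1 : S_CJ1) (hCJ2 : S_CJ2) (hCH1 : S_CH1)
    (hSU2 : S_SU2) (hSPM : S_SPM) (hCON : S_CON) (hKAP : S_KAP) (hBDS : S_BDS) (hHF2 : S_HF2)
    (hPRK : S_PRK) (hIRR : S_IRR) (hIRK : S_IRK) (hIK1 : S_IK1)
    [NumberField k] (hT : IsTower k k' K F) {J : Type} [Fintype J]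
    (B : Module.Basis J ℤ (𝓞 k)) (L₀ : IntermediateField K (Sep F)) [FiniteDimensional K L₀]
    {P : k[X]} (hP : P ≠ 0) {n : ℕ} (hn : 3 ≤ n) :
    ∃ N : ℕ, 0 < N ∧ D0 {x : (Σ l : Fin 1, Fin ((fun _ => n : Fin 1 → ℕ) l + 1)) × J → ℤ |
      ¬ VanishExt k' K F L₀ P N (Dp B x 0)} := by
  haveI := hT.sep
  haveI := hT.fracK
  haveI : IsSepClosure K (Sep F) := sepKΩ hT.map
  haveI : Algebra.IsSeparable K (Sep F) := IsSepClosure.separable
  haveI : IsGalois K (Sep F) := inferInstance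
  obtain ⟨s, L, L2, hs, hPs, hL₀, hle, hfd, hnL, hfd2, hn2, hunr, hfin⟩ :=
    hHF2 k k' K F hT L₀ P hP
  haveI := hfd
  haveI := hnL
  haveI := hfd2
  haveI := hn2
  obtain ⟨α₀, g, -, -, -, hα₀, hgm, hgα, hgi, -, -⟩ := hPRK k K L2
  set α : Sep F := (α₀ : Sep F) with hα
  have hL2 : IntermediateField.adjoin K {α} = L2 := by
    have h1 := congrArg IntermediateField.lift hα₀
    rw [IntermediateField.lift_adjoin_simple, IntermediateField.lift_top] at h1
    exact h1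
  have hgα' : eval₂ (em k K (Sep F)) α g = 0 := by
    have h1 := congrArg (algebraMap L2 (Sep F)) hgα
    rw [hom_eval₂, map_zero] at h1
    exact h1
  haveI : FiniteDimensional k (consts hT L) := fin_consts hT L
  haveI : NumberField (consts hT L) := NumberField.of_module_finite k (consts hT L)
  obtain ⟨N, hN0, hN⟩ := hBDS k k' s g (consts hT L) n hs hgm
  refine ⟨N, hN0, ?_⟩
  set n' : Fin 1 → ℕ := fun _ => n with hn'
  have d1 : D0 {x : (Σ l : Fin 1, Fin (n' l + 1)) × J → ℤ | ¬ AllIrr (Dp B x 0)} :=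
    dens_allIrr B 0 (le_trans (by norm_num) hn)
  have d2 := hIRR k J B 1 n' 0 (le_trans (by norm_num) hn) g hgm (irr_frac hgi)
  have d3 := hIRK k (consts hT L) J B 1 n' 0 (le_trans (by norm_num) hn)
  have d4 := hIK1 k (consts hT L) J B 1 n' 0 hn (s.map (algebraMap k (consts hT L)))
    (by rwa [Ne, Polynomial.map_eq_zero])
  have d5 : D0 {x : (Σ l : Fin 1, Fin (n' l + 1)) × J → ℤ | Irreducible (Dp B x 0) ∧
      Dp B x 0 ∣ s} := dens_ndvd B 0 (le_trans (by norm_num) hn) hs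
  intro ε hε
  refine (((((d1.union d2).union d3).union d4).union d5) ε hε).mono ?_
  intro x hx
  by_contra hcon
  simp only [Set.mem_union, Set.mem_setOf_eq, not_or, not_not, not_and] at hcon
  obtain ⟨⟨⟨⟨h1, h2⟩, h3⟩, h4⟩, h5⟩ := hcon
  apply hx
  have hirr : Irreducible (Dp B x 0) := h1.1
  obtain ⟨M, hMf, hMg, hMN, hM1, hMD, hMs, hMb, hMw⟩ := hN (Dp B x 0) hirr.ne_zero
    (polA_natDegree (fun j => kv B x ⟨0, j⟩))
  haveI := hMf
  haveI := hMg
  refine ⟨M, hMg, hMf, hMN, ?_⟩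
  intro k₂ hk₂f hk₂ K₂ _ _ _ hT₂
  exact vanish_ext_one hDSL hKUM hCJ1 hCJ2 hCH1 hSU2 hSPM hCON hKAP hT hs hPs hL₀ hle hunr hfin
    hgm hgα' hL2 hirr (h2 hirr) h3 (h4 h3) (h5 hirr) hM1 hMD hMs hMb hMw k₂ hk₂ K₂ hT₂

end main

/-- Counting the elements of `𝓞 k`. -/
theorem count_box {k : Type} [Field k] [NumberField k] {J : Type} [Fintype J]
    (B : Module.Basis J ℤ (𝓞 k)) {n : ℕ} (Q : k[X] → Prop)
    (h : D0 {x : (Σ l : Fin 1, Fin ((fun _ => n : Fin 1 → ℕ) l + 1)) × J → ℤ |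
      ¬ Q (Dp B x 0)}) {η : ℝ} (hη : 0 < η) :
    ∃ H0 : ℕ, ∀ H : ℕ, H0 ≤ H →
      (({x : Fin (n + 1) → 𝓞 k | (∀ j t, |B.repr (x j) t| ≤ (H : ℤ)) ∧
        ¬ Q (polA fun j => algebraMap (𝓞 k) k (x j))}.ncard : ℕ) : ℝ) ≤
        η * (2 * H + 1) ^ (Fintype.card J * (n + 1)) := by
  classical
  obtain ⟨H0, hH⟩ := h η hη
  refine ⟨H0, fun H hHH => ?_⟩
  have h1 := hH H hHH
  have hcard : Fintype.card ((Σ l : Fin 1, Fin ((fun _ => n : Fin 1 → ℕ) l + 1)) × J) =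
      Fintype.card J * (n + 1) := by
    rw [Fintype.card_prod, Fintype.card_sigma, Nat.mul_comm]
    simp
  rw [hcard] at h1
  refine le_trans ?_ h1
  let φ : (Fin (n + 1) → 𝓞 k) → ((Σ l : Fin 1, Fin ((fun _ => n : Fin 1 → ℕ) l + 1)) × J → ℤ) :=
    fun y o => B.repr (y o.1.2) o.2
  have hkv : ∀ y (o : Σ l : Fin 1, Fin ((fun _ => n : Fin 1 → ℕ) l + 1)), kv B (φ y) o =
      algebraMap (𝓞 k) k (y o.2) := by
    intro y o
    show algebraMap (𝓞 k) k (elt B fun j => B.repr (y o.2) j) = _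
    rw [← basis_elt B]
  have hinj : Function.Injective φ := by
    intro y z hyz
    funext j
    apply FaithfulSMul.algebraMap_injective (𝓞 k) k
    have h3 := hkv y ⟨0, j⟩
    rw [hyz, hkv z ⟨0, j⟩] at h3
    exact h3.symm
  have h4 : (Set.ncard {x : Fin (n + 1) → 𝓞 k |
      (∀ j t, |B.repr (x j) t| ≤ (H : ℤ)) ∧
        ¬ Q (polA fun j => algebraMap (𝓞 k) k (x j))}) ≤
      Set.ncard {v : (Σ l : Fin 1, Fin ((fun _ => n : Fin 1 → ℕ) l + 1)) × J → ℤ |
        v ∈ {x : (Σ l : Fin 1, Fin ((fun _ => n : Fin 1 → ℕ) l + 1)) × J → ℤ |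
          ¬ Q (Dp B x 0)} ∧ ∀ i, |v i| ≤ (H : ℤ)} := by
    rw [← Set.ncard_image_of_injective _ hinj]
    refine Set.ncard_le_ncard ?_ (box_fin _ H)
    rintro _ ⟨y, ⟨b1, hbad⟩, rfl⟩
    refine ⟨?_, ?_⟩
    · intro hgood
      apply hbad
      have e : Dp B (φ y) (0 : Fin 1) = polA fun j => algebraMap (𝓞 k) k (y j) := by
        show polA (fun j => kv B (φ y) ⟨0, j⟩) = _
        congr 1
        funext j
        exact hkv y ⟨0, j⟩
      rw [e] at hgood
      exact hgood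
    · rintro ⟨⟨l, j⟩, t⟩
      exact b1 j t
  exact_mod_cast h4

end Pool.Agent.Helper55.RG
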