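import Pool.Agent.Helper55.RG.Asm3
import Pool.Agent.Helper55.RG.Asm6
import Pool.Agent.Helper30.RG.KAP
import Pool.Agent.Helper54.RG.SPM
import Pool.Agent.Helper56.RG.BDS
import Pool.Agent.Helper85.RG.MDG
import Pool.Agent.Helper85.RG.SU2

/-!
# The theorem for all representations, uniformly in the field of constants: the proof
-/

set_option autoImplicit false
set_option linter.all false

open Polynomial IsDedekindDomain NumberField
open scoped Classical

namespace Pool.Agent.Helper55.RG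

open Pool.Agent Pool.Agent.TH115.GD Pool.Agent.R939.EI Pool.Agent.R939.PP Pool.Agent.R939.HI
  Pool.Agent.W275.UB Pool.Agent.Helper55.TT Pool.Agent.H927R2.RD Pool.Agent.Helper55.UV

theorem hf2 : S_HF2 :=
  hf2_main fin Pool.Agent.Helper35.RG.UNR.main
    (Pool.Agent.Helper35.RG.BRI.main Pool.Agent.Helper31.RG.UPL.main)
    Pool.Agent.Helper46.RG.DSN.main Pool.Agent.Helper47.RG.PRK.main

section main

variable {k k' K F : Type} [Field k] [Field k'] [Algebra k k'] [Field K] [Algebra k[X] K]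
    [Field F] [Algebra k'[X] F] [IsFractionRing k'[X] F] [Algebra K F]

/-- **The theorem for all representations, uniformly in the field of constants.** -/
theorem vanishExt_all [NumberField k] (hT : IsTower k k' K F) {J : Type} [Fintype J]
    (B : Module.Basis J ℤ (𝓞 k)) (L : IntermediateField K (Sep F)) [FiniteDimensional K L]
    {P : k[X]} (hP : P ≠ 0) {n : ℕ} (hn : 3 ≤ n) :
    ∃ N : ℕ, 0 < N ∧ ∀ η : ℝ, 0 < η → ∃ H0 : ℕ, ∀ H : ℕ, H0 ≤ H →
      (({x : Fin (n + 1) → 𝓞 k | (∀ j t, |B.repr (x j) t| ≤ (H : ℤ)) ∧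
        ¬ VanishExt k' K F L P N (polA fun j => algebraMap (𝓞 k) k (x j))}.ncard : ℕ) : ℝ) ≤
        η * (2 * H + 1) ^ (Fintype.card J * (n + 1)) := by
  obtain ⟨N, hN0, hN⟩ := dense_ext (k' := k') (K := K) (F := F) Pool.Agent.Helper47.RG.DSL.main
    Pool.Agent.Helper47.RG.KUM.main
    Pool.Agent.Helper61.RG.CJ1.main Pool.Agent.Helper61.RG.CJ2.main Pool.Agent.Helper47.RG.CH1.main
    Pool.Agent.Helper85.RG.su2 Pool.Agent.Helper54.RG.spm Pool.Agent.Helper54.RG.con
    Pool.Agent.Helper30.RG.kap (Pool.Agent.Helper56.RG.bds Pool.Agent.Helper85.RG.mdg) hf2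
    Pool.Agent.Helper47.RG.PRK.main irr (Pool.Agent.Helper79.RGK.irk irr) ik1 hT B L hP hn
  exact ⟨N, hN0, fun η hη => count_box B (VanishExt k' K F L P N) hN hη⟩

end main

end Pool.Agent.Helper55.RG
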