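import Pool.Graph.R_seed8.Helper386.D5V.Helper386_FF_Riemann

/-!
# Functions with even divisors on curves: definitions
-/

set_option autoImplicit false
set_option linter.all false

open FF

namespace Pool.Agent.Helper55.RG

open Polynomial

/-- The coefficientwise map on Laurent series. -/
noncomputable def lmap (κ Ω : Type) [Field κ] [Field Ω] [Algebra κ Ω] :
    LaurentSeries κ →+* LaurentSeries Ω where
  toFun f := HahnSeries.map f (algebraMap κ Ω)
  map_one' := by
    ext n
    simp only [HahnSeries.map_coeff, HahnSeries.coeff_one]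
    split_ifs <;> simp
  map_mul' f g := HahnSeries.map_mul (algebraMap κ Ω : κ →ₙ+* Ω)
  map_zero' := by ext n; simp
  map_add' f g := by ext n; simp

theorem lmap_coeff {κ Ω : Type} [Field κ] [Field Ω] [Algebra κ Ω] (f : LaurentSeries κ) (n : ℤ) :
    (lmap κ Ω f).coeff n = algebraMap κ Ω (f.coeff n) := rfl

theorem lmap_single {κ Ω : Type} [Field κ] [Field Ω] [Algebra κ Ω] (m : ℤ) (c : κ) :
    lmap κ Ω (HahnSeries.single m c) = HahnSeries.single m (algebraMap κ Ω c) := by
  ext n
  rw [lmap_coeff, HahnSeries.coeff_single, HahnSeries.coeff_single]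
  split_ifs <;> simp

theorem lmap_C {κ Ω : Type} [Field κ] [Field Ω] [Algebra κ Ω] (c : κ) :
    lmap κ Ω (HahnSeries.C c) = HahnSeries.C (algebraMap κ Ω c) := lmap_single 0 c

theorem lmap_inj {κ Ω : Type} [Field κ] [Field Ω] [Algebra κ Ω] :
    Function.Injective (lmap κ Ω) := (lmap κ Ω).injective

/-- `z` has even order at all places over the points `a` with `s(a) ≠ 0`. -/
def EvenOff {κ N : Type} [Field κ] [Field N] [Algebra κ N] (t : N) (s : κ[X]) (z : N) : Prop :=
  ∀ (P : Place κ N) (a : κ), 0 < P.ord (t - algebraMap κ N a) → s.eval a ≠ 0 → Even (P.ord z)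

/-- An ultrapower of `κ`. -/
def UP (κ : Type) : Type := Filter.Germ (Filter.hyperfilter ℕ : Filter ℕ) κ

noncomputable instance upField (κ : Type) [Field κ] : Field (UP κ) :=
  inferInstanceAs (Field (Filter.Germ (Filter.hyperfilter ℕ : Filter ℕ) κ))

/-- The class of a sequence in the ultrapower. -/
noncomputable def UP.mk (κ : Type) [Field κ] : (ℕ → κ) →+* UP κ :=
  Filter.Germ.coeRingHom (Filter.hyperfilter ℕ : Filter ℕ)

noncomputable instance upAlgebra (κ : Type) [Field κ] : Algebra κ (UP κ) :=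
  ((UP.mk κ).comp (Pi.constRingHom ℕ κ)).toAlgebra

theorem UP.mk_eq_zero {κ : Type} [Field κ] (r : ℕ → κ) :
    UP.mk κ r = 0 ↔ ∀ᶠ i in (Filter.hyperfilter ℕ : Filter ℕ), r i = 0 := by
  show ((r : Filter.Germ (Filter.hyperfilter ℕ : Filter ℕ) κ) = ((0 : ℕ → κ) :
    Filter.Germ (Filter.hyperfilter ℕ : Filter ℕ) κ)) ↔ _
  rw [Filter.Germ.coe_eq]
  rfl

theorem UP.mk_surj {κ : Type} [Field κ] : Function.Surjective (UP.mk κ) := by
  intro x
  induction x using Filter.Germ.inductionOn with
  | _ f => exact ⟨f, rfl⟩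

/-- the value of a polynomial in two variables -/
noncomputable def ev2 {R N : Type} [CommRing R] [CommRing N] (φ : R →+* N) (t α : N)
    (g : R[X][X]) : N := eval₂ (eval₂RingHom φ t) α g

end Pool.Agent.Helper55.RG
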