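import Pool.Agent.Helper55.RG.Crit

/-!
# The criterion
-/

set_option autoImplicit false
set_option linter.all false

open Polynomial IsDedekindDomain
open scoped Classical

namespace Pool.Agent.Helper55.RG

open Pool.Agent.TH115.GD Pool.Agent.R939.EI Pool.Agent.Helper55.TT Pool.Agent.Helper55.UV

section core

variable {k k' K F : Type} [Field k] [CharZero k] [Field k'] [Algebra k k'] [Field K]
    [Algebra k[X] K] [Field F] [Algebra k'[X] F] [IsFractionRing k'[X] F] [Algebra K F]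

/-- The zeros of a cocycle form a subgroup. -/
def zer {Γ V : Type} [Group Γ] [AddCommGroup V] {ρ : Γ →* AddMonoid.End V} {C : Γ → V}
    (hC : IsCoG ρ C) : Subgroup Γ where
  carrier := {σ | C σ = 0}
  one_mem' := by
    have h := hC 1 1
    rw [mul_one, map_one] at h
    show C 1 = 0
    have h2 : C 1 = C 1 + C 1 := h
    simpa using h2
  mul_mem' := by
    intro a b ha hb
    show C (a * b) = 0
    rw [hC, show C a = 0 from ha, show C b = 0 from hb, map_zero, add_zero]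
  inv_mem' := by
    intro a ha
    show C a⁻¹ = 0
    have h1 : C 1 = 0 := by
      have h := hC 1 1
      rw [mul_one, map_one] at h
      have h2 : C 1 = C 1 + C 1 := h
      simpa using h2
    have h := hC a⁻¹ a
    rw [inv_mul_cancel, h1, show C a = 0 from ha, map_zero, add_zero] at h
    exact h.symm

/-- **The criterion.** -/
theorem crit_L (hDSL : S_DSL) (hKUM : S_KUM) (hCJ1 : S_CJ1) (hCJ2 : S_CJ2) (hCH1 : S_CH1)
    (hT : IsTower k k' K F)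
    {L L2 : IntermediateField K (Sep F)} [FiniteDimensional K L] [Normal K L] (hle : L ≤ L2)
    {s : k[X]} (hs : s ≠ 0)
    (hunr : ∀ v : HeightOneSpectrum k'[X], s.map (algebraMap k k') ∉ v.asIdeal →
      ∀ (ι : Sep F →ₐ[F] Sep (Comp k'[X] F v)) (σ : Sep F ≃ₐ[F] Sep F),
      InI (Comp k'[X] F v) ι σ → rH K F (Sep F) σ ∈ L.fixingSubgroup)
    (hfin : ∀ y : Sep F, y ≠ 0 → y ^ 2 ∈ L →
      (∀ v : HeightOneSpectrum k'[X], s.map (algebraMap k k') ∉ v.asIdeal →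
        ∀ (ι : Sep F →ₐ[F] Sep (Comp k'[X] F v)) (σ : Sep F ≃ₐ[F] Sep F),
        InI (Comp k'[X] F v) ι σ → σ y = y) →
      ∀ τ : Sep F ≃ₐ[K] Sep F, (∀ c : k', em k' F (Sep F) (C c) ∈ L →
        τ (em k' F (Sep F) (C c)) = em k' F (Sep F) (C c)) → y * τ y ∈ L2)
    (k₁ : IntermediateField k k') [FiniteDimensional k k₁]
    (hk₁ : ∀ c : k', c ∈ k₁ ↔ em k' F (Sep F) (C c) ∈ L)
    {π : k[X]} (hπ : Irreducible π) (hπ₁ : Irreducible (π.map (algebraMap k k₁)))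
    (hind : IndepAt (π.map (algebraMap k k₁)) (s.map (algebraMap k k₁))) (hπs : ¬ π ∣ s)
    (hsur : ∀ θ : k', aeval θ π = 0 → ∀ (ι : Sep F →ₐ[F] Sep (Comp k'[X] F (pl θ)))
      (σ : Sep F ≃ₐ[K] Sep F), ∃ δ : Sep F ≃ₐ[K] Sep F,
      InD K (Comp k'[X] F (pl θ)) ι δ ∧ ∀ x ∈ L2, δ x = σ x)
    {d : ℕ} {ρ : (Sep F ≃ₐ[K] Sep F) →* GL (Fin d) ℤ_[2]} (hρ : Continuous ρ)
    (hp2 : ∀ σ ∈ L.fixingSubgroup, ∃ m : ℕ, ∀ i j, (2 : ℤ_[2]) ∣ ((ρ (σ ^ 2 ^ m)).1 - 1) i j)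
    (hun : ∀ v : HeightOneSpectrum k'[X], (s * π).map (algebraMap k k') ∉ v.asIdeal → Unram k' ρ v)
    (hno : ∀ θ : k', aeval θ π = 0 → NoInv k' ρ (pl θ))
    {c : (Sep F ≃ₐ[F] Sep F) → Fin d → ℚ_[2]} (hcc : Continuous c)
    (hc : IsCo (rH K F (Sep F)) (ac ρ) c) (hci : IsInvt (rH K F (Sep F)) (ac ρ) c)
    (hloc : ∀ v : HeightOneSpectrum k'[X], (s * π).map (algebraMap k k') ∉ v.asIdeal →
      LocCob k' ρ c v)
    (hlocπ : ∀ θ : k', aeval θ π = 0 → LocCob k' ρ c (pl θ)) :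
    ∃ y : Fin d → ℚ_[2], ∀ σ, c σ = ac ρ (σ.restrictScalars K) y - y := by
  haveI := hT.sep
  haveI := hT.fracK
  haveI : IsAlgClosed k' := isAC (k := k)
  haveI : IsSepClosed k' := IsSepClosure.sep_closed k
  haveI : IsSepClosure K (Sep F) := sepKΩ hT.map
  haveI : Algebra.IsSeparable K (Sep F) := IsSepClosure.separable
  haveI : Algebra.IsSeparable F (Sep F) := IsSepClosure.separable
  haveI : IsGalois K (Sep F) := inferInstance
  have hKF := hT.map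
  have hN : Preserves K F (Sep F) := preserves hKF
  have h2n : (2 : ℝ) ^ (-((1 : ℕ) : ℤ)) = ((2 : ℕ) : ℝ) ^ (-((1 : ℕ) : ℤ)) := by norm_num
  have hp2' : ∀ σ ∈ L.fixingSubgroup, ∃ m : ℕ, ∀ i j,
      ‖((ρ (σ ^ 2 ^ m)).1 - 1) i j‖ ≤ (2 : ℝ) ^ (-((1 : ℕ) : ℤ)) := by
    intro σ hσ
    obtain ⟨m, hm⟩ := hp2 σ hσ
    refine ⟨m, fun i j => ?_⟩
    rw [h2n, PadicInt.norm_le_pow_iff_mem_span_pow, pow_one, Ideal.mem_span_singleton]
    exact_mod_cast hm i j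
  obtain ⟨θ, hθ⟩ := exists_root_sep (k' := k') hπ hπ.separable
  have hθs : ∀ θ' : k', aeval θ' π = 0 → aeval θ' s ≠ 0 := by
    intro θ' hθ' h
    exact hπs ((dvd_iff_aeval hπ hθ').2 h)
  obtain ⟨ι, y, hy⟩ := hlocπ θ hθ
  set I : Set (Sep F ≃ₐ[F] Sep F) := {σ | InI (Comp k'[X] F (pl θ)) ι σ} with hI
  have hVI : ∀ y : Fin d → ℚ_[2], (∀ σ ∈ I, ac ρ (rH K F (Sep F) σ) y = y) → y = 0 :=
    fun y hy => hno θ hθ ι y hy
  have hVN : ∀ y : Fin d → ℚ_[2], (∀ σ, ac ρ (rH K F (Sep F) σ) y = y) → y = 0 :=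
    fun y hy => hVI y fun σ _ => hy σ
  have hconj : ∀ (τ : Sep F ≃ₐ[K] Sep F) (σ : Sep F ≃ₐ[F] Sep F), ∃ σ' : Sep F ≃ₐ[F] Sep F,
      τ * rH K F (Sep F) σ' = rH K F (Sep F) σ * τ := by
    intro τ σ
    obtain ⟨σ', h⟩ := exists_conj hN τ σ
    exact ⟨σ', AlgEquiv.ext fun x => h x⟩
  obtain ⟨C', hC, hCr, hCrel⟩ := exists_ext rH_inj hconj hVN hc hci
  set C1 : (Sep F ≃ₐ[K] Sep F) → Fin d → ℚ_[2] := fun τ => C' τ - (ac ρ τ y - y) with hC1
  have hC1m : IsCoG (ac ρ) C1 := hC.sub_cob y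
  have hC1I : ∀ σ ∈ I, C1 (rH K F (Sep F) σ) = 0 := by
    intro σ hσ
    show C' (rH K F (Sep F) σ) - (ac ρ (rH K F (Sep F) σ) y - y) = 0
    rw [hCr, hy σ hσ]
    exact sub_self _
  have hC1D : ∀ g : Sep F ≃ₐ[K] Sep F, InD K (Comp k'[X] F (pl θ)) ι g → C1 g = 0 := by
    intro g hg
    apply hC1m.dec hC1I hVI
    intro σ hσ
    obtain ⟨σ', hσ'⟩ := hconj g σ
    refine ⟨σ', ?_, hσ'⟩
    refine (InD.inv' hg).conj hσ fun x => ?_
    have h1 : g (σ' (g⁻¹ x)) = σ (g (g⁻¹ x)) := AlgEquiv.congr_fun hσ' (g⁻¹ x)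
    have h3 : g (g⁻¹ x) = x := by
      show (g * g⁻¹) x = x
      rw [mul_inv_cancel]
      rfl
    rw [h3] at h1
    apply g.injective
    rw [h1]
    show σ x = (g * g⁻¹) (σ x)
    rw [mul_inv_cancel]
    rfl
  have hnear : ∀ m : ℤ, Near fun τ => C1 τ ∈ Lt d m := by
    intro m
    obtain ⟨S1, hS1, h1⟩ := near_C hρ hc hcc hconj hCrel hVI m
    obtain ⟨μ, hμ⟩ := exists_mem_Lt y
    obtain ⟨n, hn⟩ : ∃ n : ℕ, m ≤ μ + n := ⟨(m - μ).toNat, by have := Int.self_le_toNat (m - μ); omega⟩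
    obtain ⟨S3, hS3, h3⟩ := near_rho hρ n
    refine ⟨S1 ∪ S3, hS1.union hS3, fun τ hτ => ?_⟩
    exact (Lt d m).sub_mem (h1 τ fun x hx => hτ x (Or.inl hx))
      (Lt_anti hn (ac_sub_mem ρ (h3 τ fun x hx => hτ x (Or.inr hx)) hμ))
  obtain ⟨m₀, hm₀⟩ := bdd_C hC1m (hnear 0)
  have hstab : ∀ (τ : Sep F ≃ₐ[K] Sep F) (x : Sep F), x ∈ L → τ x ∈ L := by
    intro τ x hx
    have h1 := (IntermediateField.normal_iff_forall_map_le'.1 (inferInstance : Normal K L)) τ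
    exact h1 ⟨x, hx, rfl⟩
  have hnorm : L.fixingSubgroup.Normal := by
    refine ⟨fun n hn g => ?_⟩
    rw [IntermediateField.mem_fixingSubgroup_iff] at hn ⊢
    intro x hx
    show g (n (g⁻¹ x)) = x
    rw [hn _ (hstab g⁻¹ x hx), ← AlgEquiv.mul_apply, mul_inv_cancel]
    rfl
  have hzero : ∀ σ, C1 σ = 0 := by
    refine hDSL _ d ρ L.fixingSubgroup hnorm hp2' C1 hC1m m₀ hm₀ ?_ ?_
    · intro γ
      obtain ⟨δ, hδD, hδ⟩ := hsur θ hθ ι γ
      refine ⟨δ, hC1D δ hδD, ?_⟩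
      rw [IntermediateField.mem_fixingSubgroup_iff]
      intro x hx
      show δ⁻¹ (γ x) = x
      rw [← hδ x (hle hx), ← AlgEquiv.mul_apply, inv_mul_cancel]
      rfl
    · intro m hm χ hadd hχ hχc
      obtain ⟨S, hS, hSC⟩ := hnear (m + 1)
      refine key_char hKUM hCH1 hT hle hs hunr hfin k₁ hk₁ hπ₁ hind hθ (hθs θ hθ) ι
        (hsur θ hθ ι) (zer hC1m) hC1D χ hadd hS (fun u hu hu' => hχ u hu (hSC u hu'))
        (fun σ hσ hσH g => hχc σ hσ g hσH) ?_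
      intro v hv ι' σ hσ
      by_cases hvπ : ∃ θ' : k', aeval θ' π = 0 ∧ v = pl θ'
      · obtain ⟨θ', hθ', rfl⟩ := hvπ
        obtain ⟨τ, hτ⟩ := hCJ2 k k' K F hT π θ θ' hπ hθ hθ' ι ι'
        obtain ⟨σ₀, hσ₀, he⟩ := hτ σ hσ
        rw [he]
        refine hχc _ (hunr (pl θ) ?_ ι σ₀ hσ₀) τ (hC1I σ₀ hσ₀)
        rw [mem_pl', eval_map_algebraMap]
        exact hθs θ hθ
      · have hv' : (s * π).map (algebraMap k k') ∉ v.asIdeal := by
          rw [Polynomial.map_mul]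
          intro h
          rcases v.isPrime.mem_or_mem h with h | h
          · exact hv h
          · obtain ⟨a, rfl⟩ := eq_pl' v
            rw [mem_pl', eval_map_algebraMap] at h
            exact hvπ ⟨a, h, rfl⟩
        obtain ⟨ιv, yv, hyv⟩ := hloc v hv'
        obtain ⟨g, hg⟩ := hCJ1 k' F v ιv ι'
        -- `g σ g⁻¹` is in the inertia group for `ιv`
        have hσ' : InI (Comp k'[X] F v) ιv (g * σ * g⁻¹) := by
          obtain ⟨τ, hτ⟩ := hσ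
          refine ⟨τ, fun x => ?_⟩
          have h1 := hτ (g⁻¹ x)
          rw [hg, hg, ← AlgEquiv.mul_apply g g⁻¹, mul_inv_cancel] at h1
          exact h1
        have h5 : C1 (rH K F (Sep F) (g * σ * g⁻¹)) = 0 := by
          show C' (rH K F (Sep F) (g * σ * g⁻¹)) -
            (ac ρ (rH K F (Sep F) (g * σ * g⁻¹)) y - y) = 0
          have h6 : ρ (rH K F (Sep F) (g * σ * g⁻¹)) = 1 := hun v hv' ιv _ hσ'
          have h7 : ∀ x, ac ρ (rH K F (Sep F) (g * σ * g⁻¹)) x = x := by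
            intro x
            rw [ac_apply, h6, Units.val_one, Matrix.map_one _ (map_zero _) (map_one _),
              Matrix.one_mulVec]
          rw [hCr, hyv _ hσ', ← rH_apply, h7, h7, sub_self, sub_self, sub_zero]
        have h6 := hχc _ (hunr v hv ιv _ hσ') (rH K F (Sep F) g)⁻¹ h5
        have h7 : (rH K F (Sep F) g)⁻¹ * rH K F (Sep F) (g * σ * g⁻¹) * ((rH K F (Sep F) g)⁻¹)⁻¹ =
            rH K F (Sep F) σ := by
          rw [map_mul, map_mul, map_inv]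
          group
        rw [h7] at h6
        exact h6
  refine ⟨y, fun σ => ?_⟩
  have h5 := hzero (rH K F (Sep F) σ)
  have h6 : C' (rH K F (Sep F) σ) - (ac ρ (rH K F (Sep F) σ) y - y) = 0 := h5
  rw [hCr, sub_eq_zero] at h6
  exact h6

end core

end Pool.Agent.Helper55.RG
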