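import Pool.Agent.Helper55.RG.Hfin2

/-!
# Extension of the field of constants
-/

set_option autoImplicit false
set_option linter.all false

open Polynomial IsDedekindDomain
open scoped Classical

namespace Pool.Agent.Helper55.RG

open Pool.Agent.TH115.GD Pool.Agent.R939.EI Pool.Agent.Helper55.TT Pool.Agent.Helper55.UV

variable {k k' K F : Type} [Field k] [Field k'] [Algebra k k'] [Field K]
    [Algebra k[X] K] [Field F] [Algebra k'[X] F] [IsFractionRing k'[X] F] [Algebra K F]
    {k₂ K₂ : Type} [Field k₂] [Algebra k k₂] [Algebra k₂ k'] [IsScalarTower k k₂ k'] [Field K₂]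
    [Algebra k₂[X] K₂] [Algebra K₂ F]

theorem alg_sub (hT : IsTower k k' K F) (hT₂ : IsTower k₂ k' K₂ F) (x : K) :
    ∃ x₂ : K₂, algebraMap K F x = algebraMap K₂ F x₂ := by
  haveI := hT.fracK
  have hp : ∀ p : k[X], algebraMap K F (algebraMap k[X] K p) =
      algebraMap K₂ F (algebraMap k₂[X] K₂ (p.map (algebraMap k k₂))) := by
    intro p
    rw [hT.map, hT₂.map, Polynomial.map_map, ← IsScalarTower.algebraMap_eq]
  obtain ⟨p, q, -, rfl⟩ := IsFractionRing.div_surjective (A := k[X]) x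
  exact ⟨algebraMap k₂[X] K₂ (p.map (algebraMap k k₂)) /
    algebraMap k₂[X] K₂ (q.map (algebraMap k k₂)), by rw [map_div₀, map_div₀, hp, hp]⟩

theorem alg_sub' (hT : IsTower k k' K F) (hT₂ : IsTower k₂ k' K₂ F) (x : K) :
    ∃ x₂ : K₂, algebraMap K (Sep F) x = algebraMap K₂ (Sep F) x₂ := by
  obtain ⟨x₂, h⟩ := alg_sub hT hT₂ x
  refine ⟨x₂, ?_⟩
  rw [IsScalarTower.algebraMap_apply K F (Sep F), h, ← IsScalarTower.algebraMap_apply K₂ F (Sep F)]

theorem resc (hT : IsTower k k' K F) (hT₂ : IsTower k₂ k' K₂ F) (τ : Sep F ≃ₐ[K₂] Sep F) :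
    ∃ τ' : Sep F ≃ₐ[K] Sep F, ∀ x, τ' x = τ x := by
  refine ⟨AlgEquiv.ofRingEquiv (f := τ.toRingEquiv) ?_, fun x => rfl⟩
  intro x
  obtain ⟨x₂, h⟩ := alg_sub' hT hT₂ x
  rw [h]
  exact τ.commutes x₂

theorem stabN {L : IntermediateField K (Sep F)} [Algebra.IsAlgebraic K (Sep F)] [Normal K (Sep F)]
    (hn : Normal K L) (τ : Sep F ≃ₐ[K] Sep F) {x : Sep F} (hx : x ∈ L) : τ x ∈ L :=
  (IntermediateField.normal_iff_forall_map_le'.1 hn) τ ⟨x, hx, rfl⟩

theorem stab_adj (hT : IsTower k k' K F) (hT₂ : IsTower k₂ k' K₂ F)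
    {L : IntermediateField K (Sep F)} (hs : ∀ (τ : Sep F ≃ₐ[K] Sep F), ∀ x ∈ L, τ x ∈ L)
    (τ : Sep F ≃ₐ[K₂] Sep F) {x : Sep F}
    (hx : x ∈ IntermediateField.adjoin K₂ (L : Set (Sep F))) :
    τ x ∈ IntermediateField.adjoin K₂ (L : Set (Sep F)) := by
  obtain ⟨τ', hτ'⟩ := resc hT hT₂ τ
  induction hx using IntermediateField.adjoin_induction with
  | mem x hx =>
    rw [← hτ']
    exact IntermediateField.subset_adjoin _ _ (hs τ' x hx)
  | algebraMap x =>
    rw [τ.commutes]
    exact (IntermediateField.adjoin K₂ (L : Set (Sep F))).algebraMap_mem _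
  | add x y _ _ hx hy => rw [map_add]; exact add_mem hx hy
  | inv x _ hx => rw [map_inv₀]; exact inv_mem hx
  | mul x y _ _ hx hy => rw [map_mul]; exact mul_mem hx hy

theorem adj_sub (hT : IsTower k k' K F) (hT₂ : IsTower k₂ k' K₂ F) {S : Set (Sep F)} {x : Sep F}
    (hx : x ∈ IntermediateField.adjoin K S) : x ∈ IntermediateField.adjoin K₂ S := by
  induction hx using IntermediateField.adjoin_induction with
  | mem x hx => exact IntermediateField.subset_adjoin _ _ hx
  | algebraMap x =>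
    obtain ⟨x₂, h⟩ := alg_sub' hT hT₂ x
    rw [h]
    exact (IntermediateField.adjoin K₂ S).algebraMap_mem _
  | add x y _ _ hx hy => exact add_mem hx hy
  | inv x _ hx => exact inv_mem hx
  | mul x y _ _ hx hy => exact mul_mem hx hy

theorem fin_adj (hT : IsTower k k' K F) (hT₂ : IsTower k₂ k' K₂ F)
    [Algebra.IsAlgebraic K₂ (Sep F)]
    (L : IntermediateField K (Sep F)) [FiniteDimensional K L] :
    FiniteDimensional K₂ (IntermediateField.adjoin K₂ (L : Set (Sep F))) := by
  obtain ⟨S, hS⟩ := IntermediateField.essFiniteType_iff.1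
    (inferInstance : Algebra.EssFiniteType K L)
  have h : IntermediateField.adjoin K₂ (L : Set (Sep F)) =
      IntermediateField.adjoin K₂ (S : Set (Sep F)) := by
    apply le_antisymm
    · rw [IntermediateField.adjoin_le_iff]
      intro x hx
      rw [← hS] at hx
      exact adj_sub hT hT₂ hx
    · apply IntermediateField.adjoin.mono
      intro x hx
      rw [← hS]
      exact IntermediateField.subset_adjoin _ _ hx
  rw [h]
  exact IntermediateField.finiteDimensional_adjoin fun x _ =>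
    Algebra.IsIntegral.isIntegral (R := K₂) x

theorem normal_adj (hT : IsTower k k' K F) (hT₂ : IsTower k₂ k' K₂ F) [Normal K₂ (Sep F)]
    {L : IntermediateField K (Sep F)} (hs : ∀ (τ : Sep F ≃ₐ[K] Sep F), ∀ x ∈ L, τ x ∈ L) :
    Normal K₂ (IntermediateField.adjoin K₂ (L : Set (Sep F))) := by
  rw [IntermediateField.normal_iff_forall_map_le']
  rintro τ _ ⟨x, hx, rfl⟩
  exact stab_adj hT hT₂ hs τ hx

end Pool.Agent.Helper55.RG
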