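import Pool.Agent.Helper55.RG.Rig3

/-!
# Values of polynomials at places, and a good Laurent expansion
-/

set_option autoImplicit false
set_option linter.all false

open FF Polynomial IntermediateField

namespace Pool.Agent.Helper55.RG

section val

variable {κ N : Type} [Field κ] [Field N] [Algebra κ N]

theorem reg_ev1 {P : Place κ N} {t : N} (ht : P.Reg t) (p : κ[X]) :
    P.Reg (eval₂RingHom (algebraMap κ N) t p) := by
  induction p using Polynomial.induction_on' with
  | add p q hp hq => rw [map_add]; exact P.reg_add hp hq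
  | monomial n a =>
    rw [coe_eval₂RingHom, eval₂_monomial]
    refine P.reg_mul (P.reg_const a) ?_
    induction n with
    | zero => rw [pow_zero]; exact P.reg_one
    | succ n ih => rw [pow_succ]; exact P.reg_mul ih ht

theorem reg_pow' {P : Place κ N} {t : N} (ht : P.Reg t) (n : ℕ) : P.Reg (t ^ n) := by
  induction n with
  | zero => rw [pow_zero]; exact P.reg_one
  | succ n ih => rw [pow_succ]; exact P.reg_mul ih ht

theorem reg_ev2 {P : Place κ N} {t α : N} (ht : P.Reg t) (hα : P.Reg α) (g : κ[X][X]) :
    P.Reg (ev2 (algebraMap κ N) t α g) := by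
  unfold ev2
  induction g using Polynomial.induction_on' with
  | add p q hp hq => rw [eval₂_add]; exact P.reg_add hp hq
  | monomial n a =>
    rw [eval₂_monomial]
    exact P.reg_mul (reg_ev1 ht a) (reg_pow' hα n)

theorem reg_of_pos {P : Place κ N} {t : N} {a : κ} (h : t = algebraMap κ N a ∨
    0 < P.ord (t - algebraMap κ N a)) : P.Reg t := by
  have h1 : P.Reg (t - algebraMap κ N a) := by
    rcases h with h | h
    · left; rw [h, sub_self]
    · right; exact h.le
  have h2 := P.reg_add h1 (P.reg_const a)
  rwa [sub_add_cancel] at h2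

theorem red_of_pos {P : Place κ N} {t : N} {a : κ} (h : t = algebraMap κ N a ∨
    0 < P.ord (t - algebraMap κ N a)) : P.red t = P.constHom a := by
  have h0 := reg_of_pos h
  have h1 : P.red (t - algebraMap κ N a) = 0 := by
    rcases h with h | h
    · rw [h, sub_self, P.red_zero]
    · exact (P.red_eq_zero_iff (Or.inr h.le)).2 (Or.inr h)
  rw [P.red_sub h0 (P.reg_const a), sub_eq_zero] at h1
  exact h1

/-- the value of a polynomial at a place -/
theorem red_ev2 {P : Place κ N} {t α : N} {a b : κ} (ht : t = algebraMap κ N a ∨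
    0 < P.ord (t - algebraMap κ N a)) (hα : α = algebraMap κ N b ∨
    0 < P.ord (α - algebraMap κ N b)) (g : κ[X][X]) :
    P.red (ev2 (algebraMap κ N) t α g) = P.constHom ((g.map (evalRingHom a)).eval b) := by
  have rt := reg_of_pos ht
  have rα := reg_of_pos hα
  have h1 : P.redHom (eval₂RingHom (eval₂RingHom (algebraMap κ N) t) α) (fun g => reg_ev2 rt rα g) =
      P.constHom.comp ((evalRingHom b).comp (mapRingHom (evalRingHom a))) := by
    apply Polynomial.ringHom_ext'
    · apply Polynomial.ringHom_ext'
      · ext c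
        simp only [RingHom.comp_apply, Place.redHom_apply, coe_eval₂RingHom, eval₂_C,
          coe_mapRingHom, Polynomial.map_C, coe_evalRingHom, eval_C]
        rfl
      · simp only [RingHom.comp_apply, Place.redHom_apply, coe_eval₂RingHom, eval₂_C, eval₂_X,
          coe_mapRingHom, Polynomial.map_C, coe_evalRingHom, eval_C, eval_X]
        exact red_of_pos ht
    · simp only [RingHom.comp_apply, Place.redHom_apply, coe_eval₂RingHom, eval₂_X,
        coe_mapRingHom, Polynomial.map_X, coe_evalRingHom, eval_X]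
      exact red_of_pos hα
  exact RingHom.congr_fun h1 g

end val

/-- there is a Laurent expansion with `t = a₀ + X` -/
theorem exists_j (hEXP : S_EXP) (hVAL : S_VAL) (hUPL : S_UPL) {κ N : Type} [Field κ] [IsAlgClosed κ]
    [CharZero κ] [Field N] [Algebra κ N] [IsFF κ N] {t α : N} (ht : Transcendental κ t)
    (hgen : IntermediateField.adjoin κ {t, α} = ⊤) {g A B : κ[X][X]} {s : κ[X]} (hg : g.Monic)
    (hgt : ev2 (algebraMap κ N) t α g = 0) (hs : s ≠ 0) (hAB : A * g + B * derivative g = C s) :
    ∃ (a₀ : κ) (j : N →+* LaurentSeries κ), (∀ c : κ, j (algebraMap κ N c) = HahnSeries.C c) ∧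
      j t = HahnSeries.C a₀ + HahnSeries.single (1 : ℤ) (1 : κ) := by
  haveI : Infinite κ := IsAlgClosed.instInfinite
  obtain ⟨a₀, ha₀⟩ : ∃ a₀ : κ, s.eval a₀ ≠ 0 := by
    by_contra hcon
    push Not at hcon
    exact hs (Polynomial.funext fun r => by rw [hcon r, eval_zero])
  have htr : Transcendental κ (t - algebraMap κ N a₀) := by
    intro h
    apply ht
    have := h.add (isAlgebraic_algebraMap a₀)
    rwa [sub_add_cancel] at this
  obtain ⟨S, hS, hS2, hS3⟩ := zeros (k := κ) htr
  haveI := IsFF.finite htr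
  obtain ⟨P, hP⟩ : ∃ P : Place κ N, 0 < P.ord (t - algebraMap κ N a₀) := by
    by_contra hcon
    push Not at hcon
    have : S = ∅ := by
      rw [Finset.eq_empty_iff_forall_notMem]
      intro w hw
      have := (hS w).1 hw
      have := hcon w
      omega
    rw [this, Finset.sum_empty] at hS3
    have h1 : 0 < Module.finrank κ⟮t - algebraMap κ N a₀⟯ N := Module.finrank_pos
    omega
  have rt : P.Reg t := reg_of_pos (Or.inr hP)
  have rα : P.Reg α := by
    letI : Algebra κ[X] N := (eval₂RingHom (algebraMap κ N) t).toAlgebra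
    refine Place.reg_of_isIntegral (A := κ[X]) P (fun a => reg_ev1 rt a) ⟨g, hg, hgt⟩
  obtain ⟨b₀, hb₀⟩ := hVAL κ N P α rα
  have e1 : (g.map (evalRingHom a₀)).eval b₀ = 0 := by
    have h := red_ev2 (Or.inr hP) hb₀ g
    rw [hgt, P.red_zero] at h
    exact (map_eq_zero _).1 h.symm
  have e2 : ((g.map (evalRingHom a₀)).derivative).eval b₀ ≠ 0 := by
    intro h
    apply ha₀
    have h2 := congrArg (fun q : κ[X][X] => (q.map (evalRingHom a₀)).eval b₀) hAB
    simp only [Polynomial.map_add, Polynomial.map_mul, eval_add, eval_mul, e1, mul_zero, zero_add,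
      Polynomial.map_C, eval_C, coe_evalRingHom] at h2
    rw [← derivative_map, h, mul_zero] at h2
    exact h2.symm
  obtain ⟨h1, -⟩ := hUPL κ N t α ht hgen g hgt a₀ b₀ e1 e2 P hP hb₀
  obtain ⟨j, hj1, hj2, -⟩ := hEXP κ N P _ h1
  refine ⟨a₀, j, hj1, ?_⟩
  rw [← hj2, map_sub, hj1]
  ring

end Pool.Agent.Helper55.RG
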