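import Pool.Agent.Helper55.RG.Spec3
import Pool.Agent.Helper55.RG.Spec

/-!
# The field generated over `Ω` by a function field over `κ`
-/

set_option autoImplicit false
set_option linter.all false

open FF Polynomial IntermediateField

namespace Pool.Agent.Helper55.RG

section gen

variable {κ Ω N₀ M : Type} [Field κ] [Field Ω] [Algebra κ Ω] [Field N₀] [Algebra κ N₀]
  [Field M] [Algebra Ω M] {θ : N₀ →+* M}
  (hθ : ∀ c : κ, θ (algebraMap κ N₀ c) = algebraMap Ω M (algebraMap κ Ω c))

/-- the field generated over `Ω` -/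
abbrev EF (Ω : Type) [Field Ω] [Algebra Ω M] (θ : N₀ →+* M) : IntermediateField Ω M :=
  IntermediateField.adjoin Ω (Set.range fun x : N₀ => θ x)

/-- the embedding -/
def psi (Ω : Type) [Field Ω] [Algebra Ω M] (θ : N₀ →+* M) : N₀ →+* EF Ω θ where
  toFun x := ⟨θ x, IntermediateField.subset_adjoin _ _ ⟨x, rfl⟩⟩
  map_one' := by ext1; simp
  map_mul' x y := by ext1; simp
  map_zero' := by ext1; simp
  map_add' x y := by ext1; simp

theorem psi_coe (x : N₀) : (psi Ω θ x : M) = θ x := rfl

include hθ in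
theorem psi_const (c : κ) : psi Ω θ (algebraMap κ N₀ c) = algebraMap Ω (EF Ω θ) (algebraMap κ Ω c) := by
  ext1
  rw [psi_coe, hθ]
  rfl

include hθ in
theorem adjoin_top {t α : N₀} (hgen : IntermediateField.adjoin κ {t, α} = ⊤) :
    IntermediateField.adjoin Ω {psi Ω θ t, psi Ω θ α} = ⊤ := by
  -- all the `psi x` are in it
  have h1 : ∀ x : N₀, psi Ω θ x ∈ IntermediateField.adjoin Ω {psi Ω θ t, psi Ω θ α} := by
    intro x
    have hx : x ∈ IntermediateField.adjoin κ {t, α} := by rw [hgen]; trivial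
    induction hx using IntermediateField.adjoin_induction with
    | mem x hx =>
      apply IntermediateField.subset_adjoin
      rcases hx with rfl | hx
      · exact Or.inl rfl
      · rw [Set.mem_singleton_iff] at hx
        rw [hx]; exact Or.inr rfl
    | algebraMap c =>
      rw [psi_const hθ]
      exact IntermediateField.algebraMap_mem _ _
    | add x y _ _ hx hy => rw [map_add]; exact add_mem hx hy
    | inv x _ hx => rw [map_inv₀]; exact inv_mem hx
    | mul x y _ _ hx hy => rw [map_mul]; exact mul_mem hx hy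
  rw [eq_top_iff]
  rintro ⟨y, hy⟩ -
  induction hy using IntermediateField.adjoin_induction with
  | mem y hy =>
    obtain ⟨x, rfl⟩ := hy
    exact h1 x
  | algebraMap c => exact IntermediateField.algebraMap_mem _ c
  | add x y hx hy h1 h2 => exact add_mem h1 h2
  | inv x hx h1 => exact inv_mem h1
  | mul x y hx hy h1 h2 => exact mul_mem h1 h2

theorem trans_psi {t : N₀} (h0 : Transcendental Ω (θ t)) : Transcendental Ω (psi Ω θ t) := by
  intro h
  exact h0 (IntermediateField.isAlgebraic_iff.1 h)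

include hθ in
theorem isFF_EF [CharZero κ] {t α : N₀} (h0 : Transcendental Ω (θ t))
    (hgen : IntermediateField.adjoin κ {t, α} = ⊤) {g : κ[X][X]} (hg : g.Monic)
    (hgt : ev2 (algebraMap κ N₀) t α g = 0) : IsFF Ω (EF Ω θ) := by
  have ht := trans_psi (Ω := Ω) h0
  refine IsFF.of_finite ht ?_
  have h1 : IntermediateField.adjoin Ω {psi Ω θ t, psi Ω θ α} = ⊤ := adjoin_top hθ hgen
  have hint : IsIntegral Ω⟮psi Ω θ t⟯ (psi Ω θ α) := by
    refine ⟨g.map (eval₂RingHom ((algebraMap Ω Ω⟮psi Ω θ t⟯).comp (algebraMap κ Ω))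
      (IntermediateField.AdjoinSimple.gen Ω (psi Ω θ t))), hg.map _, ?_⟩
    rw [eval₂_map]
    have h2 : (algebraMap Ω⟮psi Ω θ t⟯ (EF Ω θ)).comp (eval₂RingHom
        ((algebraMap Ω Ω⟮psi Ω θ t⟯).comp (algebraMap κ Ω))
        (IntermediateField.AdjoinSimple.gen Ω (psi Ω θ t))) =
        (psi Ω θ).comp (eval₂RingHom (algebraMap κ N₀) t) := by
      apply Polynomial.ringHom_ext
      · intro c
        simp only [RingHom.comp_apply, coe_eval₂RingHom, eval₂_C]
        rw [psi_const hθ]
        rfl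
      · simp only [RingHom.comp_apply, coe_eval₂RingHom, eval₂_X]
        rfl
    rw [h2, ← hom_eval₂]
    unfold ev2 at hgt
    rw [hgt, map_zero]
  have h3 : Ω⟮psi Ω θ t⟯⟮psi Ω θ α⟯ = ⊤ := by
    rw [eq_top_iff]
    intro x _
    have hx : x ∈ IntermediateField.adjoin Ω {psi Ω θ t, psi Ω θ α} := by rw [h1]; trivial
    have h4 : (Ω⟮psi Ω θ t⟯⟮psi Ω θ α⟯).restrictScalars Ω =
        IntermediateField.adjoin Ω {psi Ω θ t, psi Ω θ α} := by
      rw [IntermediateField.adjoin_simple_adjoin_simple]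
    rw [← h4] at hx
    exact hx
  have h5 : FiniteDimensional Ω⟮psi Ω θ t⟯ Ω⟮psi Ω θ t⟯⟮psi Ω θ α⟯ :=
    IntermediateField.adjoin.finiteDimensional hint
  rw [h3] at h5
  exact IntermediateField.topEquiv.toLinearEquiv.finiteDimensional
    (V := (⊤ : IntermediateField Ω⟮psi Ω θ t⟯ (EF Ω θ)))

/-- additive maps with the Leibniz rule are derivations -/
theorem mkD {M : Type} [Field M] (f : M → M) (h1 : ∀ x y, f (x + y) = f x + f y)
    (h2 : ∀ x y, f (x * y) = x * f y + y * f x) : ∃ d : Derivation ℤ M M, ∀ x, d x = f x := by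
  let g : M →+ M := AddMonoidHom.mk' f h1
  exact ⟨Derivation.mk' g.toIntLinearMap h2, fun x => rfl⟩

/-- the derivation of `EF` -/
theorem exists_D {δ : Derivation κ Ω Ω} {d₀ : Derivation ℤ M M} (hk : ∀ x : N₀, d₀ (θ x) = 0)
    (hc : ∀ c : Ω, d₀ (algebraMap Ω M c) = algebraMap Ω M (δ c)) :
    ∃ D : Derivation ℤ (EF Ω θ) (EF Ω θ),
      (∀ x, D (psi Ω θ x) = 0) ∧ (∀ c : Ω, D (algebraMap Ω _ c) = algebraMap Ω _ (δ c)) ∧
      ∀ (x : EF Ω θ), (D x : M) = d₀ x := by
  have hmem : ∀ x ∈ EF Ω θ, d₀ x ∈ EF Ω θ := by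
    intro x hx
    induction hx using IntermediateField.adjoin_induction with
    | mem y hy =>
      obtain ⟨x, rfl⟩ := hy
      show d₀ (θ x) ∈ _
      rw [hk]; exact zero_mem _
    | algebraMap c =>
      rw [hc]
      exact IntermediateField.algebraMap_mem _ _
    | add x y _ _ hx hy => rw [map_add]; exact add_mem hx hy
    | inv x hx0 hx =>
      rw [Derivation.leibniz_inv, smul_eq_mul]
      exact mul_mem (neg_mem (pow_mem (inv_mem hx0) 2)) hx
    | mul x y hx0 hy0 hx hy =>
      rw [Derivation.leibniz, smul_eq_mul, smul_eq_mul]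
      exact add_mem (mul_mem hx0 hy) (mul_mem hy0 hx)
  let D0 : (EF Ω θ) →ₗ[ℤ] (EF Ω θ) :=
    { toFun := fun x => ⟨d₀ x, hmem x x.2⟩
      map_add' := fun x y => by ext1; simp
      map_smul' := fun n x => by
        ext1
        simp }
  refine ⟨Derivation.mk' D0 ?_, ?_, ?_, ?_⟩
  · intro x y
    ext1
    show d₀ ((x : M) * y) = _
    rw [Derivation.leibniz]
    rfl
  · intro x
    ext1
    exact hk x
  · intro c
    ext1
    exact hc c
  · intro x
    rfl

end gen

end Pool.Agent.Helper55.RG
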