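import Pool.Agent.Helper55.RG.Rig1

/-!
# The connection on the square root of a function with even divisor
-/

set_option autoImplicit false
set_option linter.all false

open FF Polynomial IntermediateField

namespace Pool.Agent.Helper55.RG

section nab

variable {Ω N : Type} [Field Ω] [CharZero Ω] [Field N] [Algebra Ω N] [IsFF Ω N]

/-- the integral part of half of the divisor of `z`, plus multiples of the poles of `t` -/
noncomputable def hd (Ω : Type) {N : Type} [Field Ω] [CharZero Ω] [Field N] [Algebra Ω N] [IsFF Ω N] (z t : N)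
    (n : ℕ) : Place Ω N →₀ ℤ :=
  (divisor Ω z).mapRange (fun m => m / 2) (by norm_num) + n • polar (k := Ω) t

theorem hd_apply (z t : N) (n : ℕ) (P : Place Ω N) :
    hd Ω z t n P = P.ord z / 2 + n * max (-P.ord t) 0 := by
  simp [hd, divisor_apply, polar_apply]

theorem reg_div {P : Place Ω N} {x y : N} (hy : y ≠ 0) (h : x ≠ 0 → P.ord y ≤ P.ord x) :
    P.Reg (x / y) := by
  by_cases hx : x = 0
  · left; rw [hx, zero_div]
  · right
    rw [P.ord_div hx hy]
    have := h hx
    omega

theorem nabla {z t : N} (hz : z ≠ 0) (D : Derivation ℤ N N) (cst : Place Ω N → Prop)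
    (h1 : ∀ P, cst P → ∀ x, D x ≠ 0 → P.ord x ≤ P.ord (D x))
    (h2 : ∀ (P : Place Ω N) x, P.Reg x → P.Reg (D x))
    (h3 : ∀ P, ¬ cst P → Even (P.ord z) ∧ 0 ≤ P.ord t) (n : ℕ) {x : N} (hx : x ∈ LL (hd Ω z t n)) :
    D x + D z / (2 * z) * x ∈ LL (hd Ω z t n) := by
  haveI : CharZero N := charZero_of_injective_algebraMap (algebraMap Ω N).injective
  by_cases hx0 : x = 0
  · rw [hx0, map_zero, mul_zero, add_zero]
    exact zero_mem _
  rw [mem_LL] at hx ⊢
  have hx' := hx.resolve_left hx0
  by_cases hr : D x + D z / (2 * z) * x = 0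
  · exact Or.inl hr
  right
  intro P
  have h20 : P.ord (2 : N) = 0 := by
    have h := P.ord_const (c := (2 : Ω)) two_ne_zero
    rwa [map_ofNat] at h
  by_cases hP : cst P
  · refine le_trans (hx' P) ?_
    have h5 : P.Reg ((D x + D z / (2 * z) * x) / x) := by
      have h6 : (D x + D z / (2 * z) * x) / x = D x / x + D z / (2 * z) := by
        field_simp
      rw [h6]
      refine P.reg_add (reg_div hx0 (h1 P hP x)) (reg_div (mul_ne_zero two_ne_zero hz) fun h => ?_)
      rw [P.ord_mul two_ne_zero hz, h20, zero_add]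
      exact h1 P hP z h
    have h6 := (P.reg_iff (div_ne_zero hr hx0)).1 h5
    rw [P.ord_div hr hx0] at h6
    omega
  · obtain ⟨⟨m, hm⟩, ht⟩ := h3 P hP
    obtain ⟨τ, hτ0, hτ⟩ := P.surj
    set b := τ ^ m with hb
    have hb0 : b ≠ 0 := zpow_ne_zero _ hτ0
    have hbo : P.ord b = m := by rw [hb, P.ord_zpow, hτ, mul_one]
    set v := b * x with hv
    set w := z / b ^ 2 with hw
    have hw0 : w ≠ 0 := div_ne_zero hz (pow_ne_zero _ hb0)
    have hwo : P.ord w = 0 := by
      rw [hw, P.ord_div hz (pow_ne_zero _ hb0), P.ord_pow, hbo, hm]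
      push_cast; ring
    have hAP : hd Ω z t n P = m := by
      rw [hd_apply, hm, max_eq_right (by omega), mul_zero, add_zero]
      omega
    have hvR : P.Reg v := by
      right
      rw [hv, P.ord_mul hb0 hx0, hbo]
      have := hx' P
      rw [hAP] at this
      omega
    have hxe : x = v / b := by rw [hv]; field_simp
    have hze : z = b ^ 2 * w := by rw [hw]; field_simp
    have key : b * (D x + D z / (2 * z) * x) = D v + D w / w / 2 * v := by
      have e1 : D v = b * D x + x * D b := by
        rw [hv, Derivation.leibniz, smul_eq_mul, smul_eq_mul]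
      have e2 : D z = b ^ 2 * D w + w * (2 * b * D b) := by
        rw [hze, Derivation.leibniz, Derivation.leibniz_pow, smul_eq_mul, smul_eq_mul, smul_eq_mul,
          nsmul_eq_mul]
        push_cast
        ring
      rw [e1, e2, hv, hze]
      field_simp
      ring
    have hR : P.Reg (b * (D x + D z / (2 * z) * x)) := by
      rw [key]
      have h2w : P.Reg (D w) := h2 P w (Or.inr hwo.ge)
      refine P.reg_add (h2 P v hvR) (P.reg_mul (reg_div two_ne_zero fun h => ?_) hvR)
      rw [h20]
      have h7 : P.Reg (D w / w) := reg_div hw0 fun h8 => by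
        rw [hwo]
        exact (P.reg_iff h8).1 h2w
      exact (P.reg_iff h).1 h7
    have h8 := (P.reg_iff (mul_ne_zero hb0 hr)).1 hR
    rw [P.ord_mul hb0 hr, hbo] at h8
    rw [hAP]
    omega

/-- the space is not zero, for large `n` -/
theorem exists_ne (z : N) {t : N} (ht : Transcendental Ω t) : ∃ n : ℕ, LL (hd Ω z t n) ≠ ⊥ := by
  obtain ⟨γ, -, hγ, -⟩ := riemann (k := Ω) (K := N)
  have h1 := ddeg_polar_pos (k := Ω) ht
  set d0 := ddeg ((divisor Ω z).mapRange (fun m => m / 2) (by norm_num)) with hd0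
  refine ⟨(γ + 1 - d0).toNat, fun h => ?_⟩
  set n := (γ + 1 - d0).toNat with hn
  have h2 := hγ (hd Ω z t n)
  have h3 : ddeg (hd Ω z t n) = d0 + n * ddeg (polar (k := Ω) t) := by
    rw [hd, ddeg_add, ddeg_nsmul]
  have h4 : ell (hd Ω z t n) = 0 := by
    unfold ell
    rw [h, finrank_bot]
    rfl
  have h5 := Int.self_le_toNat (γ + 1 - d0)
  have h6 : (n : ℤ) * 1 ≤ n * ddeg (polar (k := Ω) t) := by
    apply mul_le_mul_of_nonneg_left h1
    positivity
  rw [h4, h3] at h2
  omega

end nab

end Pool.Agent.Helper55.RG
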