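import Pool.Agent.Helper55.RG.Base
import Pool.Agent.Helper55.UV.Crit
import Pool.Agent.Helper55.TT.GoodC
import Pool.Agent.Helper55.PR.HG

/-!
# The statements of the parts (completions, decomposition groups, Hilbert irreducibility)
-/

set_option autoImplicit false
set_option linter.all false

open Polynomial IsDedekindDomain NumberField
open scoped Classical

namespace Pool.Agent.Helper55.RG

open Pool.Agent.TH115.GD Pool.Agent.R939.EI Pool.Agent.Helper55.TT Pool.Agent.Helper55.UV
open Pool.Agent.R939.HI Pool.Agent.W275.UB Pool.Agent.H927R2.RD Pool.Agent.R939.PP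

/-- the embedding of `k[X]` in a field over `K = k(X)` -/
noncomputable def em (k K M : Type) [Field k] [Field K] [Algebra k[X] K] [Field M] [Algebra K M] :
    k[X] →+* M := (algebraMap K M).comp (algebraMap k[X] K)

/-- the valuation of the completion of `F = k'(t)` at `t = a` -/
noncomputable def va {k' F : Type} [Field k'] [Field F] [Algebra k'[X] F] [IsFractionRing k'[X] F]
    (a : k') (x : Comp k'[X] F (pl a)) : WithZero (Multiplicative ℤ) :=
  Valued.v (R := (pl a).adicCompletion F) (Γ₀ := WithZero (Multiplicative ℤ)) x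

/-- HEN: Hensel's lemma in the completions of `F = k'(t)`. -/
def S_HEN : Prop := ∀ (k' F : Type) [Field k'] [Field F] [Algebra k'[X] F]
  [IsFractionRing k'[X] F] (g : k'[X][X]) (a b : k'), g.Monic →
  (g.map (evalRingHom a)).eval b = 0 → (g.map (evalRingHom a)).derivative.eval b ≠ 0 →
  ∃ β : Comp k'[X] F (pl a), eval₂ (em k' F (Comp k'[X] F (pl a))) β g = 0 ∧
    va a (β - em k' F (Comp k'[X] F (pl a)) (C b)) < 1

/-- UNR: roots of a monic polynomial which is separable at `t = a` are in the completion. -/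
def S_UNR : Prop := ∀ (k' F : Type) [Field k'] [IsAlgClosed k'] [Field F] [Algebra k'[X] F]
  [IsFractionRing k'[X] F] (g : k'[X][X]) (a : k'), g.Monic →
  (g.map (evalRingHom a)).Separable → ∀ α : Sep F, eval₂ (em k' F (Sep F)) α g = 0 →
  ∀ ι : Sep F →ₐ[F] Sep (Comp k'[X] F (pl a)), ∃ β : Comp k'[X] F (pl a),
    ι α = algebraMap (Comp k'[X] F (pl a)) (Sep (Comp k'[X] F (pl a))) β ∧
    ∃ b : k', va a (β - em k' F (Comp k'[X] F (pl a)) (C b)) < 1

/-- SUR: the decomposition group at a root `θ` of `π` is transitive on the roots of `g`, if `g` is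
irreducible modulo `π`. -/
def S_SUR : Prop := ∀ (k k' K F : Type) [Field k] [CharZero k] [Field k'] [Algebra k k'] [Field K]
  [Algebra k[X] K] [Field F] [Algebra k'[X] F] [IsFractionRing k'[X] F] [Algebra K F],
  IsTower k k' K F → ∀ (π : k[X]) (θ : k'), Irreducible π → aeval θ π = 0 →
  ∀ (ι : Sep F →ₐ[F] Sep (Comp k'[X] F (pl θ))) (g : k[X][X]), g.Monic →
  Irreducible (g.map (AdjoinRoot.mk π)) → ∀ α : Sep F, eval₂ (em k K (Sep F)) α g = 0 →
  ∀ σ : Sep F ≃ₐ[K] Sep F, ∃ δ : Sep F ≃ₐ[K] Sep F,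
    InD K (Comp k'[X] F (pl θ)) ι δ ∧ δ α = σ α

/-- BRI: if `y² = z ∈ F(α)` and `y` is fixed by all the inertia groups at `t = a`, then `z` has even
order at all places of `F(α)` over `a`. -/
def S_BRI : Prop := ∀ (k' F : Type) [Field k'] [IsAlgClosed k'] [CharZero k'] [Field F]
  [Algebra k'[X] F] [IsFractionRing k'[X] F] (g : k'[X][X]) (a : k'), g.Monic →
  (g.map (evalRingHom a)).Separable → ∀ α : Sep F, eval₂ (em k' F (Sep F)) α g = 0 →
  ∀ [Algebra k' (IntermediateField.adjoin F {α})],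
  (∀ c : k', algebraMap k' (IntermediateField.adjoin F {α}) c =
    algebraMap F (IntermediateField.adjoin F {α}) (algebraMap k'[X] F (C c))) →
  ∀ (y : Sep F) (z : IntermediateField.adjoin F {α}), z ≠ 0 → y ^ 2 = (z : Sep F) →
  (∀ (ι : Sep F →ₐ[F] Sep (Comp k'[X] F (pl a))) (σ : Sep F ≃ₐ[F] Sep F),
    InI (Comp k'[X] F (pl a)) ι σ → σ y = y) →
  ∀ P : FF.Place k' (IntermediateField.adjoin F {α}),
    0 < P.ord (algebraMap F (IntermediateField.adjoin F {α}) (algebraMap k'[X] F X) -
      algebraMap k' (IntermediateField.adjoin F {α}) a) → Even (P.ord z)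

/-- DSC: elements of `L` which are equal up to squares of `F L` are equal up to constants of `k` and
squares of `L`, if `k` is algebraically closed in `L`. -/
def S_DSC : Prop := ∀ (k k' K F : Type) [Field k] [CharZero k] [Field k'] [Algebra k k'] [Field K]
  [Algebra k[X] K] [Field F] [Algebra k'[X] F] [IsFractionRing k'[X] F] [Algebra K F],
  IsTower k k' K F → ∀ (L : IntermediateField K (Sep F)) [FiniteDimensional K L],
  (∀ c : k', em k' F (Sep F) (C c) ∈ L → c ∈ Set.range (algebraMap k k')) →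
  ∀ z z' : Sep F, z ∈ L → z' ∈ L → z ≠ 0 → z' ≠ 0 →
  ∀ v ∈ IntermediateField.adjoin F (L : Set (Sep F)), z = z' * v ^ 2 →
  ∃ (c : k) (w : Sep F), c ≠ 0 ∧ w ∈ L ∧ z = z' * em k K (Sep F) (C c) * w ^ 2

/-- GIR: a monic irreducible polynomial remains irreducible over fields of rational functions. -/
def S_GIR : Prop := ∀ (κ σ : Type) [Field κ] (g : κ[X]), g.Monic → Irreducible g →
  Irreducible (g.map (algebraMap κ (FractionRing (MvPolynomial σ κ))))

/-- IAL: in a factorization of `G` modulo `P` everything is algebraic. -/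
def S_IAL : Prop := ∀ (E M : Type) [Field E] [Field M] [IsAlgClosed M] [Algebra E M] (P : M[X])
  (G u v h : M[X][X]), P.Separable → (∀ n, IsAlgebraic E (P.coeff n)) →
  (∀ m n, IsAlgebraic E ((G.coeff m).coeff n)) → u.Monic → v.Monic →
  (∀ m, (u.coeff m).degree < P.degree) → (∀ m, (v.coeff m).degree < P.degree) →
  G = u * v + C P * h → ∀ m n, IsAlgebraic E ((u.coeff m).coeff n) ∧
    IsAlgebraic E ((v.coeff m).coeff n) ∧ IsAlgebraic E ((h.coeff m).coeff n)

/-- THE: generic parameters such that `t` is a root of the generic polynomial. -/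
def S_THE : Prop := ∀ (k O ι J : Type) [Field k] [CommRing O] [IsDomain O] [Algebra O k]
  [FaithfulSMul O k] [Fintype J] (ω : J → O) (j0 : J), ω j0 ≠ 0 → ∀ (m : ℕ) (e : Fin (m + 1) → ι),
  1 ≤ m → Function.Injective e →
  ∃ Θ : MvPolynomial (ι × J) O →+* FractionRing (MvPolynomial (ι × J) (FractionRing k[X])),
    Function.Injective Θ ∧
    (∀ o : O, Θ (MvPolynomial.C o) = algebraMap (MvPolynomial (ι × J) (FractionRing k[X])) _
      (MvPolynomial.C (algebraMap k[X] (FractionRing k[X]) (C (algebraMap O k o))))) ∧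
    ∑ i : Fin (m + 1), (∑ j, Θ (MvPolynomial.X (e i, j)) * Θ (MvPolynomial.C (ω j))) *
      (algebraMap (MvPolynomial (ι × J) (FractionRing k[X])) _
        (MvPolynomial.C (algebraMap k[X] (FractionRing k[X]) X))) ^ (i : ℕ) = 0

/-- IRR: `g` remains irreducible modulo almost all polynomials. -/
def S_IRR : Prop := ∀ (k : Type) [Field k] [NumberField k] (J : Type) [Fintype J]
  (ω : Module.Basis J ℤ (𝓞 k)) (u : ℕ) (n : Fin u → ℕ) (l0 : Fin u), 1 ≤ n l0 →
  ∀ g : k[X][X], g.Monic → Irreducible (g.map (algebraMap k[X] (FractionRing k[X]))) →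
  D0 {x : (Σ l : Fin u, Fin (n l + 1)) × J → ℤ | Irreducible (Dp ω x l0) ∧
    ¬ Irreducible (g.map (AdjoinRoot.mk (Dp ω x l0)))}

end Pool.Agent.Helper55.RG
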