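import Pool.Agent.Helper55.RG.Spec2

/-!
# The statements of further parts: fields of constants larger than `k`
-/

set_option autoImplicit false
set_option linter.all false

open Polynomial IsDedekindDomain NumberField
open scoped Classical

namespace Pool.Agent.Helper55.RG

open Pool.Agent.TH115.GD Pool.Agent.R939.EI Pool.Agent.Helper55.TT Pool.Agent.Helper55.UV
open Pool.Agent.R939.HI Pool.Agent.W275.UB Pool.Agent.H927R2.RD Pool.Agent.R939.PP

/-- DSN: elements of `L` which are equal up to squares of `F L` are equal up to constants in `L` and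
squares of `L`. -/
def S_DSN : Prop := ∀ (k k' K F : Type) [Field k] [CharZero k] [Field k'] [Algebra k k'] [Field K]
  [Algebra k[X] K] [Field F] [Algebra k'[X] F] [IsFractionRing k'[X] F] [Algebra K F],
  IsTower k k' K F → ∀ (L : IntermediateField K (Sep F)) [FiniteDimensional K L],
  ∀ z z' : Sep F, z ∈ L → z' ∈ L → z ≠ 0 → z' ≠ 0 →
  ∀ v ∈ IntermediateField.adjoin F (L : Set (Sep F)), z = z' * v ^ 2 →
  ∃ (c : k') (w : Sep F), c ≠ 0 ∧ em k' F (Sep F) (C c) ∈ L ∧ w ∈ L ∧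
    z = z' * em k' F (Sep F) (C c) * w ^ 2

/-- SYK: `sysE` (PR/HG.lean) for arbitrary parameters. -/
def S_SYK : Prop := ∀ (O J κ τ : Type) [CommRing O] [IsDomain O] [Fintype J] [Fintype κ]
  [Fintype τ] (ω : Module.Basis J ℤ O) (S : Set (MvPolynomial (J ⊕ τ) (MvPolynomial κ ℤ))),
  (∀ (Ω : Type) [Field Ω] [IsAlgClosed Ω] [Algebra (EE κ) Ω] (σ : O →+* Ω) (y : J ⊕ τ → Ω),
    (∀ j, y (Sum.inl j) = σ (ω j)) → (∀ g ∈ S, MvPolynomial.eval₂ (gn κ Ω) y g = 0) →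
    ∀ t, IsAlgebraic (EE κ) (y (Sum.inr t))) →
  ∀ (F : Type) [Field F] (Θ : MvPolynomial κ O →+* F), Function.Injective Θ →
  (∀ y : J ⊕ τ → F, (∀ j, y (Sum.inl j) = Θ (MvPolynomial.C (ω j))) →
    ¬ ∀ g ∈ S, MvPolynomial.eval₂ (Θ.comp (MvPolynomial.map (Int.castRingHom O))) y g = 0) →
  D0 {x : κ → ℤ | ∃ (K : Type) (_ : Field K) (_ : NumberField K) (σ : O →+* K)
    (y : J ⊕ τ → K), Module.finrank ℚ K ≤ Fintype.card J ∧ (∀ j, y (Sum.inl j) = σ (ω j)) ∧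
    ∀ g ∈ S, MvPolynomial.eval₂ ((Int.castRingHom K).comp (MvPolynomial.eval x)) y g = 0}

/-- THN: generic parameters such that the generic polynomial of degree `m` has `m` generic roots. -/
def S_THN : Prop := ∀ (k O ι J : Type) [Field k] [CharZero k] [CommRing O] [IsDomain O] [Algebra O k]
  [FaithfulSMul O k] [Fintype J] (ω : J → O) (j0 : J), ω j0 ≠ 0 → ∀ (m : ℕ) (e : Fin (m + 1) → ι),
  1 ≤ m → Function.Injective e →
  ∃ (M : Type) (_ : Field M) (φ : k →+* M) (Θ : MvPolynomial (ι × J) O →+* M) (t : Fin m → M),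
    Function.Injective Θ ∧ (∀ o : O, Θ (MvPolynomial.C o) = φ (algebraMap O k o)) ∧
    Function.Injective t ∧
    (∀ l : Fin m, ∑ i : Fin (m + 1), (∑ j, Θ (MvPolynomial.X (e i, j)) * Θ (MvPolynomial.C (ω j))) *
      (t l) ^ (i : ℕ) = 0) ∧
    (∀ p : Equiv.Perm (Fin m), ∃ σ : M ≃+* M, (∀ x, σ (Θ x) = Θ x) ∧ ∀ l, σ (t l) = t (p l)) ∧
    ∀ S : k[X], S.Monic → Squarefree S → S ≠ 1 → ∀ l l' : Fin m, l ≠ l' →
      ¬ IsSquare (eval₂ φ (t l) S * eval₂ φ (t l') S)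

/-- IKB: independence over an extension `k₁`, the nonconstant part. -/
def S_IKB : Prop := ∀ (k k₁ : Type) [Field k] [NumberField k] [Field k₁] [NumberField k₁]
  [Algebra k k₁] (J : Type) [Fintype J] (ω : Module.Basis J ℤ (𝓞 k)) (u : ℕ) (n : Fin u → ℕ)
  (l0 : Fin u), 2 ≤ n l0 → ∀ S : k₁[X], S.Monic → Squarefree S → S ≠ 1 →
  D0 {x : (Σ l : Fin u, Fin (n l + 1)) × J → ℤ |
    Irreducible ((Dp ω x l0).map (algebraMap k k₁)) ∧ ¬ (Dp ω x l0).map (algebraMap k k₁) ∣ S ∧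
    ∃ c : k₁, c ≠ 0 ∧ SqMod ((Dp ω x l0).map (algebraMap k k₁)) (C c * S)}

/-- IKC: independence over an extension `k₁`, the constants. -/
def S_IKC : Prop := ∀ (k k₁ : Type) [Field k] [NumberField k] [Field k₁] [NumberField k₁]
  [Algebra k k₁] (J : Type) [Fintype J] (ω : Module.Basis J ℤ (𝓞 k)) (u : ℕ) (n : Fin u → ℕ)
  (l0 : Fin u), 3 ≤ n l0 →
  D0 {x : (Σ l : Fin u, Fin (n l + 1)) × J → ℤ |
    Irreducible ((Dp ω x l0).map (algebraMap k k₁)) ∧
    ∃ c : k₁, ¬ IsSquare c ∧ SqMod ((Dp ω x l0).map (algebraMap k k₁)) (C c)}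

/-- IK1: independence over an extension `k₁`. -/
def S_IK1 : Prop := ∀ (k k₁ : Type) [Field k] [NumberField k] [Field k₁] [NumberField k₁]
  [Algebra k k₁] (J : Type) [Fintype J] (ω : Module.Basis J ℤ (𝓞 k)) (u : ℕ) (n : Fin u → ℕ)
  (l0 : Fin u), 3 ≤ n l0 → ∀ s : k₁[X], s ≠ 0 →
  D0 {x : (Σ l : Fin u, Fin (n l + 1)) × J → ℤ |
    Irreducible ((Dp ω x l0).map (algebraMap k k₁)) ∧
    ¬ IndepAt ((Dp ω x l0).map (algebraMap k k₁)) s}

/-- IRK: almost all polynomials over `k` remain irreducible over `k₁`. -/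
def S_IRK : Prop := ∀ (k k₁ : Type) [Field k] [NumberField k] [Field k₁] [NumberField k₁]
  [Algebra k k₁] (J : Type) [Fintype J] (ω : Module.Basis J ℤ (𝓞 k)) (u : ℕ) (n : Fin u → ℕ)
  (l0 : Fin u), 1 ≤ n l0 →
  D0 {x : (Σ l : Fin u, Fin (n l + 1)) × J → ℤ |
    ¬ Irreducible ((Dp ω x l0).map (algebraMap k k₁))}

end Pool.Agent.Helper55.RG
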