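import Pool.Agent.Helper55.RG.Spec4

/-!
# The statements of further parts: descent and conjugation
-/

set_option autoImplicit false
set_option linter.all false

open Polynomial IsDedekindDomain NumberField
open scoped Classical

namespace Pool.Agent.Helper55.RG

open Pool.Agent.TH115.GD Pool.Agent.R939.EI Pool.Agent.Helper55.TT Pool.Agent.Helper55.UV

/-- DSL: descent for cocycles on `Γ` which vanish at representatives of `Γ / N`, where `N` acts modulo `2`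
through a 2-group. -/
def S_DSL : Prop := ∀ (Γ : Type) [Group Γ] (d : ℕ) (ρ : Γ →* GL (Fin d) ℤ_[2]) (N : Subgroup Γ),
  N.Normal →
  (∀ σ ∈ N, ∃ m : ℕ, ∀ i j, ‖((ρ (σ ^ 2 ^ m)).1 - 1) i j‖ ≤ (2 : ℝ) ^ (-((1 : ℕ) : ℤ))) →
  ∀ C : Γ → Fin d → ℚ_[2], IsCoG (ac ρ) C → ∀ m₀ : ℤ, (∀ σ, C σ ∈ Lt d m₀) →
  (∀ γ : Γ, ∃ δ : Γ, C δ = 0 ∧ δ⁻¹ * γ ∈ N) →
  (∀ m, m₀ ≤ m → ∀ χ : Γ → ZMod 2, (∀ σ ∈ N, ∀ τ ∈ N, χ (σ * τ) = χ σ + χ τ) →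
    (∀ σ ∈ N, C σ ∈ Lt d (m + 1) → χ σ = 0) →
    (∀ σ ∈ N, ∀ g : Γ, C σ = 0 → χ (g * σ * g⁻¹) = 0) → ∀ σ ∈ N, χ σ = 0) →
  ∀ σ, C σ = 0

/-- CJ1: two embeddings of the separable closure of `F` differ by an automorphism. -/
def S_CJ1 : Prop := ∀ (k' F : Type) [Field k'] [Field F] [Algebra k'[X] F] [IsFractionRing k'[X] F]
  (v : HeightOneSpectrum k'[X]) (ι ι' : Sep F →ₐ[F] Sep (Comp k'[X] F v)),
  ∃ g : Sep F ≃ₐ[F] Sep F, ∀ x, ι' x = ι (g x)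

/-- CJ2: the inertia groups at conjugate places are conjugate. -/
def S_CJ2 : Prop := ∀ (k k' K F : Type) [Field k] [CharZero k] [Field k'] [Algebra k k'] [Field K]
  [Algebra k[X] K] [Field F] [Algebra k'[X] F] [IsFractionRing k'[X] F] [Algebra K F],
  IsTower k k' K F → ∀ (π : k[X]) (θ θ' : k'), Irreducible π → aeval θ π = 0 → aeval θ' π = 0 →
  ∀ (ι : Sep F →ₐ[F] Sep (Comp k'[X] F (pl θ))) (ι' : Sep F →ₐ[F] Sep (Comp k'[X] F (pl θ'))),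
  ∃ τ : Sep F ≃ₐ[K] Sep F, ∀ σ : Sep F ≃ₐ[F] Sep F, InI (Comp k'[X] F (pl θ')) ι' σ →
    ∃ σ₀ : Sep F ≃ₐ[F] Sep F, InI (Comp k'[X] F (pl θ)) ι σ₀ ∧
      rH K F (Sep F) σ = τ * rH K F (Sep F) σ₀ * τ⁻¹

/-- CH1: `char_one` (TT/Char.lean) for the group `Γ₁` of the automorphisms which fix the constants in
`k₁`. -/
def S_CH1 : Prop := ∀ (k k' K F : Type) [Field k] [CharZero k] [Field k'] [Algebra k k'] [Field K]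
  [Algebra k[X] K] [Field F] [Algebra k'[X] F] [IsFractionRing k'[X] F] [Algebra K F],
  IsTower k k' K F → ∀ (k₁ : IntermediateField k k') [FiniteDimensional k k₁] (s π : k[X]),
  s ≠ 0 → Irreducible (π.map (algebraMap k k₁)) →
  IndepAt (π.map (algebraMap k k₁)) (s.map (algebraMap k k₁)) →
  ∀ θ : k', aeval θ π = 0 → aeval θ s ≠ 0 → ∀ (ι : Sep F →ₐ[F] Sep (Comp k'[X] F (pl θ)))
  (Γ₁ : Set (Sep F ≃ₐ[K] Sep F)),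
  (∀ τ, τ ∈ Γ₁ ↔ ∀ c ∈ k₁, τ (em k' F (Sep F) (C c)) = em k' F (Sep F) (C c)) →
  ∀ χ : (Sep F ≃ₐ[K] Sep F) → Sep F, (∀ σ, χ σ = 1 ∨ χ σ = -1) →
  (∀ σ ∈ Γ₁, ∀ τ ∈ Γ₁, χ (σ * τ) = χ σ * χ τ) →
  ∀ S : Set (Sep F), S.Finite → (∀ u ∈ Γ₁, (∀ x ∈ S, u x = x) → χ u = 1) →
  (∀ v : HeightOneSpectrum k'[X], s.map (algebraMap k k') ∉ v.asIdeal →
    ∀ (ι' : Sep F →ₐ[F] Sep (Comp k'[X] F v)) (σ : Sep F ≃ₐ[F] Sep F),
    InI (Comp k'[X] F v) ι' σ → χ (σ.restrictScalars K) = 1) →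
  (∀ g ∈ Γ₁, InD K (Comp k'[X] F (pl θ)) ι g → χ g = 1) → ∀ g ∈ Γ₁, χ g = 1

end Pool.Agent.Helper55.RG
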