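import Pool.Agent.Helper55.RG.Asm2

/-!
# The statements of further parts: uniformity in the field of constants
-/

set_option autoImplicit false
set_option linter.all false

open Polynomial IsDedekindDomain NumberField
open scoped Classical

namespace Pool.Agent.Helper55.RG

open Pool.Agent.TH115.GD Pool.Agent.R939.EI Pool.Agent.Helper55.TT Pool.Agent.Helper55.UV

/-- SU2: as SUR, with control of the action on the constants. -/
def S_SU2 : Prop := ∀ (k k' K F : Type) [Field k] [CharZero k] [Field k'] [Algebra k k'] [Field K]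
  [Algebra k[X] K] [Field F] [Algebra k'[X] F] [IsFractionRing k'[X] F] [Algebra K F],
  IsTower k k' K F → ∀ (π : k[X]) (θ : k'), Irreducible π → aeval θ π = 0 →
  ∀ (ι : Sep F →ₐ[F] Sep (Comp k'[X] F (pl θ))) (g : k[X][X]), g.Monic →
  Irreducible (g.map (AdjoinRoot.mk π)) → ∀ α : Sep F, eval₂ (em k K (Sep F)) α g = 0 →
  ∀ σ : Sep F ≃ₐ[K] Sep F, ∃ b b' : k', ev2 (algebraMap k k') θ b g = 0 ∧
    ev2 (algebraMap k k') θ b' g = 0 ∧ (∃ s₀ : k' ≃ₐ[k] k', s₀ θ = θ ∧ s₀ b = b') ∧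
    ∀ s : k' ≃ₐ[k] k', s θ = θ → s b = b' → ∃ (δ : Sep F ≃ₐ[K] Sep F)
      (G : Sep (Comp k'[X] F (pl θ)) ≃ₐ[K] Sep (Comp k'[X] F (pl θ)))
      (γ : Comp k'[X] F (pl θ) ≃+* Comp k'[X] F (pl θ)),
      (∀ x, G (algebraMap (Comp k'[X] F (pl θ)) (Sep (Comp k'[X] F (pl θ))) x) =
        algebraMap (Comp k'[X] F (pl θ)) (Sep (Comp k'[X] F (pl θ))) (γ x)) ∧
      (∀ x, G (ι x) = ι (δ x)) ∧ δ α = σ α ∧
      ∀ c : k', δ (em k' F (Sep F) (C c)) = em k' F (Sep F) (C (s c))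

/-- SPM: a finite Galois extension `M` with `k₂ ∩ M = k` is linearly disjoint from `k₂`. -/
def S_SPM : Prop := ∀ (k k' : Type) [Field k] [CharZero k] [Field k'] [Algebra k k']
  [IsSepClosure k k'] (M k₂ : IntermediateField k k') [FiniteDimensional k M] [IsGalois k M]
  [FiniteDimensional k k₂], k₂ ⊓ M = ⊥ → ∀ σ : k' ≃ₐ[k] k', ∃ τ : k' ≃ₐ[k] k',
    (∀ x ∈ M, τ x = σ x) ∧ ∀ x ∈ k₂, τ x = x

/-- CON: the constants of `K₂ L`. -/
def S_CON : Prop := ∀ (k k' K F : Type) [Field k] [CharZero k] [Field k'] [Algebra k k'] [Field K]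
  [Algebra k[X] K] [Field F] [Algebra k'[X] F] [IsFractionRing k'[X] F] [Algebra K F],
  IsTower k k' K F → ∀ (L : IntermediateField K (Sep F)) [FiniteDimensional K L] [Normal K L]
  (k₂ : IntermediateField k k') [FiniteDimensional k k₂] (K₂ : Type) [Field K₂] [Algebra k₂[X] K₂]
  [Algebra K₂ F], IsTower k₂ k' K₂ F → ∀ c : k',
  em k' F (Sep F) (C c) ∈ IntermediateField.adjoin K₂ (L : Set (Sep F)) →
  ∀ τ : k' ≃ₐ[k] k', (∀ x ∈ k₂, τ x = x) →
  (∀ x : k', em k' F (Sep F) (C x) ∈ L → τ x = x) → τ c = c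

/-- KAP: irreducibility and independence over an extension `κ` which is linearly disjoint from the
field generated by `M`. -/
def S_KAP : Prop := ∀ (k₁ κ k' : Type) [Field k₁] [CharZero k₁] [Field κ] [Field k'] [Algebra k₁ κ]
  [Algebra k₁ k'] [Algebra κ k'] [IsScalarTower k₁ κ k'] [IsSepClosure k₁ k'] [IsSepClosure κ k']
  (M : Set k') (D s : k₁[X]), M.Finite →
  (∀ σ : k' ≃ₐ[k₁] k', ∃ τ : k' ≃ₐ[κ] k', ∀ x ∈ M, τ x = σ x) →
  (∀ θ : k', aeval θ D = 0 → θ ∈ M) → (∀ r : k', aeval r s = 0 → r ∈ M) →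
  (∀ θ r w : k', aeval θ D = 0 → aeval r s = 0 → w ^ 2 = θ - r → w ∈ M) →
  s ≠ 0 → Irreducible D → IndepAt D s →
  Irreducible (D.map (algebraMap k₁ κ)) ∧
    IndepAt (D.map (algebraMap k₁ κ)) (s.map (algebraMap k₁ κ))

/-- MDG: the Galois extension generated by a finite stable set. -/
def S_MDG : Prop := ∀ (k k' : Type) [Field k] [CharZero k] [Field k'] [Algebra k k']
  [IsSepClosure k k'] (B : Set k') (m : ℕ), B.Finite → B.ncard ≤ m →
  (∀ (σ : k' ≃ₐ[k] k'), ∀ x ∈ B, σ x ∈ B) →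
  ∃ M : IntermediateField k k', FiniteDimensional k M ∧ IsGalois k M ∧
    Module.finrank k M ∣ m.factorial ∧ B ⊆ M

end Pool.Agent.Helper55.RG
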